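import Pool.Agent.Work.MP_b30479_gt.TBS.G2.Num.RF

section

/-!
# Numerics of `UU`: affine forms
-/

namespace Pool.Agent.Work.NumUs

open NumIs

/-- value at the centre -/
def uV (X T : A) : Option R3 :=
  let m := Nat.add T.p T.q
  cond (Nat.ble (Nat.mul 2 X.p) 68719476736) (uC X.p m)
    (match uC (Nat.sub 68719476736 X.p) m with
      | none => none
      | some r => some ⟨r.q, r.p, r.e⟩)

theorem uV_spec {X T : A} {t : ℝ} {r : R3} (h : uV X T = some r) (h0 : 0 < X.p)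
    (h1 : X.p < 68719476736) (ht : |t * DR - ((T.p : ℝ) + T.q)| ≤ 1) (ht0 : 0 ≤ t) :
    r.Good (uu ((X.p : ℝ) / DR) t) := by
  have hD := DR_pos
  have hm : |t * DR - ((Nat.add T.p T.q : ℕ) : ℝ)| ≤ 1 := by
    have e : ((Nat.add T.p T.q : ℕ) : ℝ) = (T.p : ℝ) + T.q := by
      change ((T.p + T.q : ℕ) : ℝ) = _
      push_cast; ring
    rw [e]; exact ht
  unfold uV at h
  simp only at h
  rcases h2 : Nat.ble (Nat.mul 2 X.p) 68719476736 with _ | _
  · rw [h2, cond_false] at h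
    rcases h3 : uC (Nat.sub 68719476736 X.p) (Nat.add T.p T.q) with _ | r'
    · rw [h3] at h; exact absurd h (by simp)
    · rw [h3] at h
      have h := Option.some.inj h
      have h4 := uC_spec h3 (show 0 < 68719476736 - X.p by omega) hm ht0
      have e : (((Nat.sub 68719476736 X.p : ℕ) : ℝ)) / DR = 1 - (X.p : ℝ) / DR := by
        change (((68719476736 - X.p : ℕ) : ℝ)) / DR = _
        rw [Nat.cast_sub h1.le, DN_cast]
        field_simp
      rw [e, uu_one_sub] at h4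
      have h5 := h4.neg
      rw [neg_neg] at h5
      rw [← h]
      exact h5
  · rw [h2, cond_true] at h
    exact uC_spec h h0 hm ht0

/-! ### the remainder -/

/-- second order bound -/
def uK (X T : A) (l : LS) : ℕ :=
  let T2 := Nat.add T.tot 1
  let a2 := Nat.mul X.tot X.tot
  let b2 := Nat.mul T2 T2
  let u := l.vU
  let w := l.vW
  Nat.add (Nat.add (Nat.div (Nat.add (Nat.mul (cond (Nat.ble a2 b2) b2 a2) (Nat.add (Nat.add u.p u.q) u.e))
    (Nat.mul (Nat.mul 2 (Nat.mul X.tot T2)) (Nat.add (Nat.add w.p w.q) w.e))) 9444732965739290427392)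
    (Nat.div (Nat.mul (Nat.add X.tot T2) (lnK X T l)) 206158430208)) 2

lemma lnK_pre {X T : A} {l : LS} {x t σ : ℝ} (h : l.Good x t) (hσ : σ = 1 ∨ σ = -1)
    (hs : 9 + 4 * X.tot ≤ l.s) {a b : ℝ} (ha : |a| ≤ (X.tot : ℝ)) (hb : |b| ≤ ((T.tot + 1 : ℕ) : ℝ)) :
    ∃ L2 : ℝ, 0 < L2 ∧ (∀ τ ∈ Set.Icc (0 : ℝ) 1, L2 ≤ MM (x + τ * (a / DR)) (σ * t + τ * (b / DR))) ∧
      Real.pi ^ 2 * ((a / DR) ^ 2 + (b / DR) ^ 2) / L2 / 2 * DR ≤ lnK X T l := by
  have hD := DR_pos
  have hpi := Real.pi_pos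
  have hpi2 := Real.pi_lt_d2
  set T2 := T.tot + 1 with hT2
  set L1 := l.s - (4 + 4 * X.tot) with hL1
  set Lu := l.m - 4 * T2 with hLu
  have hL1r : (L1 : ℝ) = l.s - (4 + 4 * X.tot) := by
    rw [hL1, Nat.cast_sub (by omega)]; push_cast; ring
  have hL1pos : 0 < L1 := by omega
  have hL1pos' : (0 : ℝ) < L1 := by exact_mod_cast hL1pos
  have hab : ∀ c : ℝ, ∀ τ ∈ Set.Icc (0 : ℝ) 1, |τ * c| ≤ |c| := by
    intro c τ hτ
    rw [abs_mul, abs_of_nonneg hτ.1]
    have := abs_nonneg c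
    nlinarith only [hτ, this, hτ.2]
  have hsin : ∀ τ ∈ Set.Icc (0 : ℝ) 1, (L1 : ℝ) / DR ≤ Real.sin (Real.pi * (x + τ * (a / DR))) := by
    intro τ hτ
    have h1 := Real.abs_sin_sub_sin_le (Real.pi * (x + τ * (a / DR))) (Real.pi * x)
    have h2 : |Real.pi * (x + τ * (a / DR)) - Real.pi * x| ≤ 4 * X.tot / DR := by
      have e : Real.pi * (x + τ * (a / DR)) - Real.pi * x = Real.pi * (τ * a) / DR := by ring
      rw [e, abs_div, abs_of_pos hD, abs_mul, abs_of_pos hpi]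
      have := (hab a τ hτ).trans ha
      gcongr
      linarith only [hpi2]
    have h3 := (abs_le.1 (h1.trans h2)).1
    have h4 := (abs_le.1 h.s).2
    have h5 : ((l.s : ℝ) - 4) / DR ≤ Real.sin (Real.pi * x) := by
      rw [div_le_iff₀ hD]
      have := (abs_le.1 h.s).1
      linarith only [this]
    have e : (L1 : ℝ) / DR = ((l.s : ℝ) - 4) / DR - 4 * X.tot / DR := by rw [hL1r]; ring
    rw [e]; linarith only [h3, h5]
  have hsinh : ∀ τ ∈ Set.Icc (0 : ℝ) 1, (Lu : ℝ) / DR ≤ |Real.sinh (Real.pi * (σ * t + τ * (b / DR)))| := by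
    intro τ hτ
    refine le_trans ?_ (abs_le_abs_sinh _)
    have h1 : Real.pi * (σ * t + τ * (b / DR)) = (σ * (Real.pi * t * DR) + Real.pi * (τ * b)) / DR := by
      field_simp
    rw [h1, h.m, abs_div, abs_of_pos hD]
    gcongr
    rcases le_total l.m (4 * T2) with hle | hle
    · rw [hLu, Nat.sub_eq_zero_of_le hle]; simp
    · rw [hLu, Nat.cast_sub hle]
      have h2 : |Real.pi * (τ * b)| ≤ 4 * T2 := by
        rw [abs_mul, abs_of_pos hpi]
        have := (hab b τ hτ).trans hb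
        have := abs_nonneg (τ * b)
        nlinarith
      have h3 : |σ * (l.m : ℝ)| = l.m := by
        rcases hσ with h0 | h0 <;> rw [h0] <;> simp
      have h4 := abs_sub_abs_le_abs_sub (σ * (l.m : ℝ)) (-(Real.pi * (τ * b)))
      rw [abs_neg, sub_neg_eq_add, h3] at h4
      push_cast
      linarith only [h2, h4]
  have hLL : 0 < ((L1 : ℝ) ^ 2 + (Lu : ℝ) ^ 2) / DR ^ 2 := by positivity
  refine ⟨((L1 : ℝ) ^ 2 + (Lu : ℝ) ^ 2) / DR ^ 2, hLL, ?_, ?_⟩
  · intro τ hτ
    unfold MM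
    have h1 := hsin τ hτ
    have h2 := hsinh τ hτ
    have h3 : ((L1 : ℝ) / DR) ^ 2 ≤ Real.sin (Real.pi * (x + τ * (a / DR))) ^ 2 := by gcongr
    have h4 : ((Lu : ℝ) / DR) ^ 2 ≤ Real.sinh (Real.pi * (σ * t + τ * (b / DR))) ^ 2 := by
      rw [← sq_abs (Real.sinh _)]; gcongr
    have e : ((L1 : ℝ) ^ 2 + (Lu : ℝ) ^ 2) / DR ^ 2 = ((L1 : ℝ) / DR) ^ 2 + ((Lu : ℝ) / DR) ^ 2 := by
      ring
    rw [e]; linarith only [h3, h4]
  · have k := lt_ndiv (343597383680 * (X.tot * X.tot + T2 * T2)) (b := L1 * L1 + Lu * Lu)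
      (by positivity)
    have h5 : ((343597383680 : ℕ) : ℝ) = 5 * DR := by unfold DR; norm_num
    rw [Nat.cast_mul, h5] at k
    push_cast at k
    have hK : (lnK X T l : ℝ) =
        (((343597383680 * (X.tot * X.tot + T2 * T2)) / (L1 * L1 + Lu * Lu) : ℕ) : ℝ) + 1 := by
      change (((343597383680 * (X.tot * X.tot + T2 * T2)) / (L1 * L1 + Lu * Lu) + 1 : ℕ) : ℝ) = _
      push_cast; ring
    rw [hK]
    refine le_trans ?_ k.le
    have e : Real.pi ^ 2 * ((a / DR) ^ 2 + (b / DR) ^ 2) / (((L1 : ℝ) ^ 2 + (Lu : ℝ) ^ 2) / DR ^ 2) / 2 * DR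
        = (Real.pi ^ 2 * (a ^ 2 + b ^ 2) / 2 * DR) / ((L1 : ℝ) * L1 + Lu * Lu) := by
      have : (L1 : ℝ) * L1 + Lu * Lu ≠ 0 := by positivity
      have : (L1 : ℝ) ^ 2 + Lu ^ 2 ≠ 0 := by positivity
      field_simp
    rw [e]
    have ha2 : a ^ 2 ≤ (X.tot : ℝ) * X.tot := by rw [← pow_two, ← sq_abs a]; gcongr
    have hb2 : b ^ 2 ≤ (T2 : ℝ) * T2 := by rw [← pow_two, ← sq_abs b]; gcongr
    have hp := pi_sq_lt
    have h6 : Real.pi ^ 2 * (a ^ 2 + b ^ 2) / 2 * DR ≤ 5 * DR * ((X.tot : ℝ) * X.tot + T2 * T2) := by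
      have h7 : Real.pi ^ 2 * (a ^ 2 + b ^ 2) ≤ 10 * ((X.tot : ℝ) * X.tot + T2 * T2) :=
        mul_le_mul hp (by linarith only [ha2, hb2]) (by positivity) (by norm_num)
      nlinarith only [hD, h7]
    exact div_le_div_of_nonneg_right h6 (by positivity)

lemma R3.Good.abs_le {r : R3} {v : ℝ} (h : r.Good v) :
    |v| * DR ≤ ((Nat.add (Nat.add r.p r.q) r.e : ℕ) : ℝ) := by
  have hD := DR_pos
  unfold R3.Good at h
  have e : |v| * DR = |v * DR| := by rw [abs_mul, abs_of_pos hD]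
  rw [e]
  have h1 : |v * DR| ≤ |v * DR - ((r.p : ℝ) - r.q)| + |(r.p : ℝ) - r.q| := by
    have := abs_add_le (v * DR - ((r.p : ℝ) - r.q)) ((r.p : ℝ) - r.q)
    rwa [sub_add_cancel] at this
  have h2 : |(r.p : ℝ) - r.q| ≤ (r.p : ℝ) + r.q := by
    have := Nat.cast_nonneg (α := ℝ) r.p
    have := Nat.cast_nonneg (α := ℝ) r.q
    rw [_root_.abs_le]; constructor <;> linarith only []
  change _ ≤ ((r.p + r.q + r.e : ℕ) : ℝ)
  push_cast
  linarith only [h, h1, h2]

lemma uK_spec {X T : A} {l : LS} {x t σ : ℝ} (h : l.Good x t) (hok : l.ok = true)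
    (hσ : σ = 1 ∨ σ = -1) (hs : 9 + 4 * X.tot ≤ l.s) {a b : ℝ} (ha : |a| ≤ (X.tot : ℝ))
    (hb : |b| ≤ ((T.tot + 1 : ℕ) : ℝ))
    (h01 : ∀ τ ∈ Set.Icc (0 : ℝ) 1, 0 < x + τ * (a / DR) ∧ x + τ * (a / DR) < 1) :
    |uu (x + a / DR) (σ * t + b / DR) - uu x (σ * t) -
      (a / DR * NumIs.lnA x (σ * t) - b / DR * NumIs.lnB x (σ * t))| * DR ≤ uK X T l := by
  have hD := DR_pos
  have hpi := Real.pi_pos
  obtain ⟨L2, hL, hM, hK⟩ := lnK_pre (T := T) h hσ hs ha hb
  have key := uu_second (t := σ * t) (b := b / DR) hL h01 hM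
  refine (mul_le_mul_of_nonneg_right key hD.le).trans ?_
  have gU := R3.Good.abs_le (h.vU hok)
  have gW := R3.Good.abs_le (h.vW hok)
  set U : ℕ := Nat.add (Nat.add l.vU.p l.vU.q) l.vU.e with hU
  set W : ℕ := Nat.add (Nat.add l.vW.p l.vW.q) l.vW.e with hW
  set T2 : ℕ := T.tot + 1 with hT2
  have hPP : |PP x (σ * t)| = |PP x t| := by
    rcases hσ with h0 | h0 <;> rw [h0]
    · rw [one_mul]
    · rw [neg_one_mul, PP_neg]
  have hQQ : |QQ x (σ * t)| = |QQ x t| := by
    rcases hσ with h0 | h0 <;> rw [h0]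
    · rw [one_mul]
    · rw [neg_one_mul, QQ_neg, abs_neg]
  rw [hPP, hQQ]
  rw [abs_mul, abs_of_pos hpi] at gU gW
  have ha2 : a ^ 2 ≤ ((X.tot * X.tot : ℕ) : ℝ) := by
    push_cast
    rw [← pow_two, ← sq_abs a]; gcongr
  have hb2 : b ^ 2 ≤ ((T2 * T2 : ℕ) : ℝ) := by
    push_cast
    rw [← pow_two, ← sq_abs b]; gcongr
  set m2 : ℕ := cond (Nat.ble (Nat.mul X.tot X.tot) (Nat.mul T2 T2)) (Nat.mul T2 T2) (Nat.mul X.tot X.tot) with hm2
  have hm : ((X.tot * X.tot : ℕ) : ℝ) ≤ m2 ∧ ((T2 * T2 : ℕ) : ℝ) ≤ m2 := by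
    rcases hc : Nat.ble (Nat.mul X.tot X.tot) (Nat.mul T2 T2) with _ | _
    · have h1 : ¬ (X.tot * X.tot ≤ T2 * T2) := fun hle => by
        have := Nat.ble_eq_true_of_le hle
        rw [show Nat.ble (X.tot * X.tot) (T2 * T2) = Nat.ble (Nat.mul X.tot X.tot) (Nat.mul T2 T2) from rfl, hc] at this
        exact absurd this (by decide)
      have e : m2 = X.tot * X.tot := by rw [hm2, hc]; rfl
      rw [e]
      exact ⟨le_rfl, by exact_mod_cast (by omega : T2 * T2 ≤ X.tot * X.tot)⟩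
    · have e : m2 = T2 * T2 := by rw [hm2, hc]; rfl
      rw [e]
      exact ⟨by exact_mod_cast Nat.le_of_ble_eq_true hc, le_rfl⟩
  have hab2 : |a ^ 2 - b ^ 2| ≤ m2 := by
    have := sq_nonneg a
    have := sq_nonneg b
    rw [_root_.abs_le]; constructor <;> linarith [hm.1, hm.2]
  have hab : |a * b| ≤ ((X.tot * T2 : ℕ) : ℝ) := by
    rw [abs_mul]
    push_cast
    exact mul_le_mul ha hb (abs_nonneg _) (Nat.cast_nonneg _)
  -- second order part
  have p1 : Real.pi * (|(a / DR) ^ 2 - (b / DR) ^ 2| * |PP x t| + 2 * |a / DR * (b / DR)| * |QQ x t|) / 2 * DR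
      ≤ ((m2 : ℝ) * U + 2 * ((X.tot * T2 : ℕ) : ℝ) * W) / (2 * DR ^ 2) := by
    have e1 : |(a / DR) ^ 2 - (b / DR) ^ 2| = |a ^ 2 - b ^ 2| / DR ^ 2 := by
      rw [div_pow, div_pow, ← sub_div, abs_div, abs_of_pos (by positivity : (0 : ℝ) < DR ^ 2)]
    have e2 : |a / DR * (b / DR)| = |a * b| / DR ^ 2 := by
      rw [div_mul_div_comm, abs_div, ← pow_two, abs_of_pos (by positivity : (0 : ℝ) < DR ^ 2)]
    rw [e1, e2]
    have e3 : Real.pi * (|a ^ 2 - b ^ 2| / DR ^ 2 * |PP x t| + 2 * (|a * b| / DR ^ 2) * |QQ x t|) / 2 * DR =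
        (|a ^ 2 - b ^ 2| * (Real.pi * |PP x t| * DR) + 2 * |a * b| * (Real.pi * |QQ x t| * DR)) /
          (2 * DR ^ 2) := by
      field_simp
    rw [e3]
    apply div_le_div_of_nonneg_right _ (by positivity)
    apply add_le_add
    · exact mul_le_mul hab2 gU (by positivity) (Nat.cast_nonneg _)
    · apply mul_le_mul _ gW (by positivity) (by positivity)
      linarith only [hab]
  have p2 : (|a / DR| + |b / DR|) * (Real.pi ^ 2 * ((a / DR) ^ 2 + (b / DR) ^ 2) / L2 / 2) / 3 * DR ≤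
      (((X.tot + T2 : ℕ) : ℝ) * lnK X T l) / (3 * DR) := by
    have e1 : |a / DR| + |b / DR| = (|a| + |b|) / DR := by
      rw [abs_div, abs_div, abs_of_pos hD]
      ring
    rw [e1]
    have e2 : (|a| + |b|) / DR * (Real.pi ^ 2 * ((a / DR) ^ 2 + (b / DR) ^ 2) / L2 / 2) / 3 * DR =
        (|a| + |b|) * (Real.pi ^ 2 * ((a / DR) ^ 2 + (b / DR) ^ 2) / L2 / 2 * DR) / (3 * DR) := by
      field_simp
    rw [e2]
    apply div_le_div_of_nonneg_right _ (by positivity)
    apply mul_le_mul _ hK (by positivity) (by positivity)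
    rw [Nat.cast_add]
    exact add_le_add ha hb
  have k1 := lt_ndiv (m2 * U + 2 * (X.tot * T2) * W) (b := 9444732965739290427392) (by norm_num)
  have k2 := lt_ndiv ((X.tot + T2) * lnK X T l) (b := 206158430208) (by norm_num)
  have d1 : ((9444732965739290427392 : ℕ) : ℝ) = 2 * DR ^ 2 := by unfold DR; norm_num
  have d2 : ((206158430208 : ℕ) : ℝ) = 3 * DR := by unfold DR; norm_num
  rw [d1] at k1
  rw [d2] at k2
  have hfin : (uK X T l : ℝ) = (((m2 * U + 2 * (X.tot * T2) * W) / 9444732965739290427392 : ℕ) : ℝ) +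
      ((((X.tot + T2) * lnK X T l) / 206158430208 : ℕ) : ℝ) + 2 := by
    change (((m2 * U + 2 * (X.tot * T2) * W) / 9444732965739290427392 +
      ((X.tot + T2) * lnK X T l) / 206158430208 + 2 : ℕ) : ℝ) = _
    push_cast
    ring
  rw [add_mul, hfin]
  push_cast at k1 k2 p1 p2 ⊢
  linarith only [k1, k2, p1, p2]

/-! ### the node -/

/-- `uu` of affine forms -/
def uuA (a b : A) : Option A :=
  let X := a.nf
  let T := b.nf
  cond (Nat.beq X.q 0) (cond (Nat.ble (Nat.add X.tot 1) X.p) (cond (Nat.ble (Nat.add (Nat.add X.p X.tot) 1) 68719476736)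
    (match lsD X T with
    | none => none
    | some l => cond l.ok (match l.vB with
      | none => none
      | some w => match uV X T with
        | none => none
        | some v =>
          let u := l.vA
          cond (Nat.beq T.q 0)
            (some (A.app2 X T (Nat.add T.r 1) (Nat.add T.tot 1) v.p v.q v.e u.p u.q u.e w.q w.p w.e (uK X T l)))
            (some (A.app2 X T (Nat.add T.r 1) (Nat.add T.tot 1) v.p v.q v.e u.p u.q u.e w.p w.q w.e (uK X T l)))) none)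
      none) none) none

theorem uuA_spec {a b c : A} {ε : ℕ → ℝ} {x t : ℝ} (hε : ∀ i, |ε i| ≤ 1) (hx : a.Encl ε x)
    (ht : b.Encl ε t) (h : uuA a b = some c) : c.Encl ε (uu x t) := by
  have hD := DR_pos
  have hpi := Real.pi_pos
  unfold uuA at h
  simp only at h
  rcases c1 : Nat.beq a.nf.q 0 with _ | _
  · rw [c1] at h; exact absurd h (by simp)
  rw [c1, cond_true] at h
  rcases c2 : Nat.ble (Nat.add a.nf.tot 1) a.nf.p with _ | _
  · rw [c2] at h; exact absurd h (by simp)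
  rw [c2, cond_true] at h
  rcases c3 : Nat.ble (Nat.add (Nat.add a.nf.p a.nf.tot) 1) 68719476736 with _ | _
  · rw [c3] at h; exact absurd h (by simp)
  rw [c3, cond_true] at h
  rcases hl : lsD a.nf b.nf with _ | l
  · rw [hl] at h; exact absurd h (by simp)
  rw [hl] at h
  simp only at h
  rcases hok : l.ok with _ | _
  · rw [hok] at h; exact absurd h (by simp)
  rw [hok, cond_true] at h
  rcases hb : l.vB with _ | w
  · rw [hb] at h; exact absurd h (by simp)
  rw [hb] at h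
  simp only at h
  rcases hv : uV a.nf b.nf with _ | v
  · rw [hv] at h; exact absurd h (by simp)
  rw [hv] at h
  simp only at h
  have q0 : a.nf.q = 0 := Nat.eq_of_beq_eq_true c1
  have k2 : a.nf.tot + 1 ≤ a.nf.p := Nat.le_of_ble_eq_true c2
  have k3 : a.nf.p + a.nf.tot + 1 ≤ 68719476736 := Nat.le_of_ble_eq_true c3
  obtain ⟨hg, hm, hs⟩ := lsD_spec (A.nf_normal a) hl
  obtain ⟨o1, o2, -, -⟩ := LS.ok_spec hok
  have gA := hg.vA o1 o2
  have gB := hg.vB hb
  set x0 := ((a.nf.p : ℝ) - a.nf.q) / DR with hx0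
  set t0 := (l.m : ℝ) / (Real.pi * DR) with ht0
  have hxp : x0 = (a.nf.p : ℝ) / DR := by rw [hx0, q0]; simp
  have ht0' : 0 ≤ t0 := by positivity
  have gV : v.Good (uu x0 t0) := by
    rw [hxp]
    refine uV_spec hv (by omega) (by omega) ?_ ht0'
    have e : t0 * DR = (l.m : ℝ) / Real.pi := by rw [ht0]; field_simp
    rw [e, abs_sub_comm]
    exact hm
  have hDx : ∀ y z : ℝ, (y * DR + z) / DR = y + z / DR := by intro y z; field_simp
  have hDx' : ∀ y : ℝ, y * DR / DR = y := by intro y; field_simp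
  have hDc : (68719476736 : ℝ) = DR := by unfold DR; norm_num
  have h01 : ∀ u : ℝ, |u| ≤ (a.nf.tot : ℝ) → ∀ τ ∈ Set.Icc (0 : ℝ) 1,
      0 < x0 + τ * (u / DR) ∧ x0 + τ * (u / DR) < 1 := by
    intro u hu τ hτ
    have r2 : (a.nf.tot : ℝ) + 1 ≤ a.nf.p := by exact_mod_cast k2
    have r3 : (a.nf.p : ℝ) + a.nf.tot + 1 ≤ 68719476736 := by exact_mod_cast k3
    rw [hDc] at r3
    have hτu : |τ * u| ≤ (a.nf.tot : ℝ) := by
      rw [abs_mul, abs_of_nonneg hτ.1]
      have := abs_nonneg u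
      nlinarith only [hu, hτ, this, hτ.2]
    have h4 := abs_le.1 hτu
    have e : x0 + τ * (u / DR) = ((a.nf.p : ℝ) + τ * u) / DR := by rw [hxp]; field_simp
    rw [e]
    constructor
    · apply div_pos _ hD; linarith only [r2, h4, h4.1]
    · rw [div_lt_one hD]; linarith only [r3, h4, h4.2]
  rcases hq : Nat.beq b.nf.q 0 with _ | _
  · rw [hq, cond_false] at h
    have hq0 : b.nf.q ≠ 0 := fun h0 => by rw [h0] at hq; exact absurd hq (by decide)
    have hp : b.nf.p = 0 := (A.nf_normal b).resolve_right hq0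
    obtain ⟨f1, f2, f3, f4⟩ := ln_frame hε hx ht hl (σ := -1) (Or.inr ⟨rfl, hp⟩)
    have h := Option.some.inj h
    rw [← h]
    refine A.app2_spec hε f1 f2 f3 f4 uu (NumIs.lnA x0 t0) (NumIs.lnB x0 t0) ?_ gA gB ?_
    · rw [hDx', hDx', neg_one_mul, uu_neg]; exact gV
    · intro u v hu hv
      have k := uK_spec (T := b.nf) hg hok (Or.inr rfl : (-1 : ℝ) = 1 ∨ (-1 : ℝ) = -1) hs hu hv
        (h01 u hu)
      rw [hDx, hDx, hDx', hDx']
      have e : uu (x0 + u / DR) (-1 * t0 + v / DR) * DR - uu x0 (-1 * t0) * DR -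
          (NumIs.lnA x0 t0 * u + NumIs.lnB x0 t0 * v) =
          (uu (x0 + u / DR) (-1 * t0 + v / DR) - uu x0 (-1 * t0) -
          (u / DR * NumIs.lnA x0 (-1 * t0) - v / DR * NumIs.lnB x0 (-1 * t0))) * DR := by
        rw [neg_one_mul, lnA_neg, lnB_neg]
        field_simp
        ring
      rw [e, abs_mul, abs_of_pos hD]
      exact k
  · rw [hq, cond_true] at h
    have hq0 : b.nf.q = 0 := Nat.eq_of_beq_eq_true hq
    obtain ⟨f1, f2, f3, f4⟩ := ln_frame hε hx ht hl (σ := 1) (Or.inl ⟨rfl, hq0⟩)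
    have h := Option.some.inj h
    rw [← h]
    refine A.app2_spec hε f1 f2 f3 f4 uu (NumIs.lnA x0 t0) (-NumIs.lnB x0 t0) ?_ gA gB.neg ?_
    · rw [hDx', hDx', one_mul]; exact gV
    · intro u v hu hv
      have k := uK_spec (T := b.nf) hg hok (Or.inl rfl : (1 : ℝ) = 1 ∨ (1 : ℝ) = -1) hs hu hv
        (h01 u hu)
      rw [hDx, hDx, hDx', hDx']
      have e : uu (x0 + u / DR) (1 * t0 + v / DR) * DR - uu x0 (1 * t0) * DR -
          (NumIs.lnA x0 t0 * u + -NumIs.lnB x0 t0 * v) =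
          (uu (x0 + u / DR) (1 * t0 + v / DR) - uu x0 (1 * t0) -
          (u / DR * NumIs.lnA x0 (1 * t0) - v / DR * NumIs.lnB x0 (1 * t0))) * DR := by
        rw [one_mul]
        field_simp
        ring
      rw [e, abs_mul, abs_of_pos hD]
      exact k

end Pool.Agent.Work.NumUs

end

section

/-!
# Numerics with values of `UU`: expressions and checker

The same as `NumIs.Expr` with two more constructors: `uu x t` is `UU (x + i t)` (`0 < x < 1`,
`|x + i t|^2 ≤ 1/2` or `|1 - x - i t|^2 ≤ 1/2`), `emb e` is an expression of `NumIs`.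
Usage: `open NumUs`, ranges `NumIs.V.of N lo hi k`, search with `#eval cnt [e] fuel box`, proof with
`chk1`, ..., `chk5`.
-/

namespace Pool.Agent.Work.NumUs

open NumIs (A G V R3 LS lkR lkA op0 op1 op2 op3 op0_some op1_some op2_some op3_some Encl_lk posO posA
  posA_spec mkEnv mkEnv_spec eps_le setL setR set_split best gradO lkR_zero lkR_one lkR_succ)

/-- expressions -/
inductive E where
  | var : ℕ → E
  | q : ℤ → ℕ → E
  | pi : E
  | add : E → E → E
  | sub : E → E → E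
  | mul : E → E → E
  | neg : E → E
  | inv : E → E
  | sq : E → E
  | cosPi : E → E
  | sinPi : E → E
  | exp : E → E
  | log : E → E
  | cosh : E → E
  | sinh : E → E
  | atan : E → E
  | lnA : E → E → E
  | lnB : E → E → E
  | lt : E → E → E
  | uu : E → E → E
  | emb : NumIs.E → E

namespace E

/-- the real value -/
noncomputable def val : E → List ℝ → ℝ
  | var i, xs => lkR xs i
  | q n d, _ => (n : ℝ) / d
  | pi, _ => Real.pi
  | add a b, xs => a.val xs + b.val xs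
  | sub a b, xs => a.val xs - b.val xs
  | mul a b, xs => a.val xs * b.val xs
  | neg a, xs => -a.val xs
  | inv a, xs => (a.val xs)⁻¹
  | sq a, xs => (a.val xs) ^ 2
  | cosPi a, xs => Real.cos (Real.pi * a.val xs)
  | sinPi a, xs => Real.sin (Real.pi * a.val xs)
  | exp a, xs => Real.exp (a.val xs)
  | log a, xs => Real.log (a.val xs)
  | cosh a, xs => Real.cosh (a.val xs)
  | sinh a, xs => Real.sinh (a.val xs)
  | atan a, xs => Real.arctan (a.val xs)
  | lnA a b, xs => NumIs.lnA (a.val xs) (b.val xs)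
  | lnB a b, xs => NumIs.lnB (a.val xs) (b.val xs)
  | lt a b, xs => b.val (xs ++ [a.val xs])
  | uu a b, xs => NumUs.uu (a.val xs) (b.val xs)
  | emb e, xs => e.val xs

end E

/-- evaluation with affine forms -/
def E.ev : E → List A → Option A
  | E.var i, xs => some (lkA xs i)
  | E.q n d, _ => some (A.cst n d)
  | E.pi, _ => some A.pi
  | E.add a b, xs => op2 A.add (a.ev xs) (b.ev xs)
  | E.sub a b, xs => op2 A.sub (a.ev xs) (b.ev xs)
  | E.mul a b, xs => op2 A.mul (a.ev xs) (b.ev xs)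
  | E.neg a, xs => op1 A.neg (a.ev xs)
  | E.inv a, xs => op0 A.inv (a.ev xs)
  | E.sq a, xs => op1 A.sqn (a.ev xs)
  | E.cosPi a, xs => op1 A.cosPi (a.ev xs)
  | E.sinPi a, xs => op1 A.sinPi (a.ev xs)
  | E.exp a, xs => op0 A.exp (a.ev xs)
  | E.log a, xs => op0 A.log (a.ev xs)
  | E.cosh a, xs => op0 (A.hyp true) (a.ev xs)
  | E.sinh a, xs => op0 (A.hyp false) (a.ev xs)
  | E.atan a, xs => op0 A.atan (a.ev xs)
  | E.lnA a b, xs => op3 A.lnA (a.ev xs) (b.ev xs)
  | E.lnB a b, xs => op3 A.lnB (a.ev xs) (b.ev xs)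
  | E.lt a b, xs => match a.ev xs with
    | none => none
    | some c => b.ev (xs ++ [c])
  | E.uu a b, xs => op3 uuA (a.ev xs) (b.ev xs)
  | E.emb e, xs => NumIs.E.ev e xs

theorem E.ev_sound {ε : ℕ → ℝ} (hε : ∀ i, |ε i| ≤ 1) : ∀ (e : E) {as : List A} {xs : List ℝ} {c : A},
    List.Forall₂ (fun a x => a.Encl ε x) as xs → e.ev as = some c → c.Encl ε (e.val xs)
  | E.var i, as, xs, c, h, he => by
    have := Option.some.inj he
    rw [← this]; exact Encl_lk h i
  | E.q n d, as, xs, c, h, he => by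
    have := Option.some.inj he
    rw [← this]; exact A.Encl_cst n d ε
  | E.pi, as, xs, c, h, he => by
    have := Option.some.inj he
    rw [← this]; exact A.Encl_pi ε
  | E.add a b, as, xs, c, h, he => by
    obtain ⟨u, v, hu, hv, rfl⟩ := op2_some he
    exact (E.ev_sound hε a h hu).add (E.ev_sound hε b h hv)
  | E.sub a b, as, xs, c, h, he => by
    obtain ⟨u, v, hu, hv, rfl⟩ := op2_some he
    exact (E.ev_sound hε a h hu).sub (E.ev_sound hε b h hv)
  | E.mul a b, as, xs, c, h, he => by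
    obtain ⟨u, v, hu, hv, rfl⟩ := op2_some he
    exact (E.ev_sound hε a h hu).mul hε (E.ev_sound hε b h hv)
  | E.neg a, as, xs, c, h, he => by
    obtain ⟨u, hu, rfl⟩ := op1_some he
    exact (E.ev_sound hε a h hu).neg
  | E.inv a, as, xs, c, h, he => by
    obtain ⟨u, hu, hc⟩ := op0_some he
    exact (E.ev_sound hε a h hu).inv hε hc
  | E.sq a, as, xs, c, h, he => by
    obtain ⟨u, hu, rfl⟩ := op1_some he
    exact ((E.ev_sound hε a h hu).nf).sq hε (A.nf_normal u)
  | E.cosPi a, as, xs, c, h, he => by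
    obtain ⟨u, hu, rfl⟩ := op1_some he
    exact (E.ev_sound hε a h hu).cosPi hε
  | E.sinPi a, as, xs, c, h, he => by
    obtain ⟨u, hu, rfl⟩ := op1_some he
    exact (E.ev_sound hε a h hu).sinPi hε
  | E.exp a, as, xs, c, h, he => by
    obtain ⟨u, hu, hc⟩ := op0_some he
    exact (E.ev_sound hε a h hu).exp hε hc
  | E.log a, as, xs, c, h, he => by
    obtain ⟨u, hu, hc⟩ := op0_some he
    exact (E.ev_sound hε a h hu).log hε hc
  | E.cosh a, as, xs, c, h, he => by
    obtain ⟨u, hu, hc⟩ := op0_some he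
    exact (E.ev_sound hε a h hu).hyp hε hc
  | E.sinh a, as, xs, c, h, he => by
    obtain ⟨u, hu, hc⟩ := op0_some he
    exact (E.ev_sound hε a h hu).hyp hε hc
  | E.atan a, as, xs, c, h, he => by
    obtain ⟨u, hu, hc⟩ := op0_some he
    exact (E.ev_sound hε a h hu).atan hε hc
  | E.lnA a b, as, xs, c, h, he => by
    obtain ⟨u, v, hu, hv, hc⟩ := op3_some he
    exact (E.ev_sound hε a h hu).lnA hε (E.ev_sound hε b h hv) hc
  | E.lnB a b, as, xs, c, h, he => by
    obtain ⟨u, v, hu, hv, hc⟩ := op3_some he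
    exact (E.ev_sound hε a h hu).lnB hε (E.ev_sound hε b h hv) hc
  | E.lt a b, as, xs, c, h, he => by
    unfold E.ev at he
    rcases ha : a.ev as with _ | u
    · rw [ha] at he; exact absurd he (by simp)
    · rw [ha] at he
      have h1 := E.ev_sound hε a h ha
      have h2 : List.Forall₂ (fun a x => a.Encl ε x) (as ++ [u]) (xs ++ [a.val xs]) :=
        List.rel_append h (List.Forall₂.cons h1 List.Forall₂.nil)
      exact E.ev_sound hε b h2 he
  | E.uu a b, as, xs, c, h, he => by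
    obtain ⟨u, v, hu, hv, hc⟩ := op3_some he
    exact uuA_spec hε (E.ev_sound hε a h hu) (E.ev_sound hε b h hv) hc
  | E.emb e, as, xs, c, h, he => NumIs.E.ev_sound hε e h he

/-! ### the checker -/

def tryE (env : List A) : List E → Bool
  | [] => false
  | e :: es => cond (posO (e.ev env)) true (tryE env es)

lemma tryE_spec {env : List A} {ε : ℕ → ℝ} {xs : List ℝ} (hε : ∀ i, |ε i| ≤ 1)
    (henv : List.Forall₂ (fun a x => a.Encl ε x) env xs) :
    ∀ {es : List E}, tryE env es = true → ∃ e ∈ es, 0 < e.val xs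
  | [], h => absurd h (by simp [tryE])
  | e :: es, h => by
    unfold tryE at h
    rcases h1 : posO (e.ev env) with _ | _
    · rw [h1, cond_false] at h
      obtain ⟨e', he', hp⟩ := tryE_spec hε henv h
      exact ⟨e', List.mem_cons_of_mem _ he', hp⟩
    · rcases h2 : e.ev env with _ | c
      · rw [h2] at h1; exact absurd h1 (by simp [posO])
      · rw [h2] at h1
        exact ⟨e, List.mem_cons_self, posA_spec hε (E.ev_sound hε e henv h2) h1⟩

def grad1 (env : List A) : List E → G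
  | [] => G.nil
  | e :: _ => gradO (e.ev env)

/-- the checker: bisect until one of the expressions is positive -/
def chk (es : List E) : ℕ → List V → Bool
  | 0, _ => false
  | n + 1, vs =>
    cond (tryE (mkEnv 0 vs) es) true
      (cond (chk es n (setL (best vs (grad1 (mkEnv 0 vs) es) 0 0 0) vs))
        (chk es n (setR (best vs (grad1 (mkEnv 0 vs) es) 0 0 0) vs)) false)

theorem chk_sound {es : List E} : ∀ {n : ℕ} {vs : List V}, chk es n vs = true →
    ∀ {xs : List ℝ}, List.Forall₂ V.Mem vs xs → ∃ e ∈ es, 0 < e.val xs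
  | 0, vs, h, xs, hx => absurd h (by simp [chk])
  | n + 1, vs, h, xs, hx => by
    unfold chk at h
    rcases h1 : tryE (mkEnv 0 vs) es with _ | _
    · rw [h1, cond_false] at h
      set i := best vs (grad1 (mkEnv 0 vs) es) 0 0 0
      rcases h2 : chk es n (setL i vs) with _ | _
      · rw [h2] at h; exact absurd h (by simp)
      · rw [h2, cond_true] at h
        rcases set_split (i := i) hx with h3 | h3
        · exact chk_sound h2 h3
        · exact chk_sound h h3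
    · have he := eps_le hx
      exact tryE_spec he (mkEnv_spec hx (fun n => rfl)) h1

/-! ### interface -/

/-- the result for boxes `Fin n → ℚ × ℚ` -/
theorem chk_box {n : ℕ} {es : List E} {fuel : ℕ} {b : Fin n → ℚ × ℚ} {k : ℕ}
    (h : chk es fuel (List.ofFn fun i => V.ofQ (b i).1 (b i).2 k) = true)
    {x : Fin n → ℝ} (hx : ∀ i, ((b i).1 : ℝ) ≤ x i ∧ x i ≤ ((b i).2 : ℝ)) :
    ∃ e ∈ es, 0 < e.val (List.ofFn x) := by
  refine chk_sound h ?_
  rw [List.forall₂_iff_get]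
  refine ⟨by simp, fun i h1 h2 => ?_⟩
  simp only [List.get_eq_getElem, List.getElem_ofFn]
  exact V.ofQ_mem (hx _).1 (hx _).2

theorem chk1 {es : List E} {fuel N : ℕ} {l1 h1 : ℤ} {k1 : ℕ}
    (h : chk es fuel [V.of N l1 h1 k1] = true) (hN : 0 < N) {x : ℝ}
    (a1 : (l1 : ℝ) / N ≤ x) (b1 : x ≤ (h1 : ℝ) / N) : ∃ e ∈ es, 0 < e.val [x] :=
  chk_sound h (List.Forall₂.cons (V.of_mem hN a1 b1) List.Forall₂.nil)

theorem chk2 {es : List E} {fuel N : ℕ} {l1 h1 l2 h2 : ℤ} {k1 k2 : ℕ}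
    (h : chk es fuel [V.of N l1 h1 k1, V.of N l2 h2 k2] = true) (hN : 0 < N) {x y : ℝ}
    (a1 : (l1 : ℝ) / N ≤ x) (b1 : x ≤ (h1 : ℝ) / N)
    (a2 : (l2 : ℝ) / N ≤ y) (b2 : y ≤ (h2 : ℝ) / N) : ∃ e ∈ es, 0 < e.val [x, y] :=
  chk_sound h (List.Forall₂.cons (V.of_mem hN a1 b1) (List.Forall₂.cons (V.of_mem hN a2 b2)
    List.Forall₂.nil))

theorem chk3 {es : List E} {fuel N : ℕ} {l1 h1 l2 h2 l3 h3 : ℤ} {k1 k2 k3 : ℕ}
    (h : chk es fuel [V.of N l1 h1 k1, V.of N l2 h2 k2, V.of N l3 h3 k3] = true) (hN : 0 < N)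
    {x y z : ℝ} (a1 : (l1 : ℝ) / N ≤ x) (b1 : x ≤ (h1 : ℝ) / N)
    (a2 : (l2 : ℝ) / N ≤ y) (b2 : y ≤ (h2 : ℝ) / N)
    (a3 : (l3 : ℝ) / N ≤ z) (b3 : z ≤ (h3 : ℝ) / N) : ∃ e ∈ es, 0 < e.val [x, y, z] :=
  chk_sound h (List.Forall₂.cons (V.of_mem hN a1 b1) (List.Forall₂.cons (V.of_mem hN a2 b2)
    (List.Forall₂.cons (V.of_mem hN a3 b3) List.Forall₂.nil)))

theorem chk4 {es : List E} {fuel N : ℕ} {l1 h1 l2 h2 l3 h3 l4 h4 : ℤ} {k1 k2 k3 k4 : ℕ}
    (h : chk es fuel [V.of N l1 h1 k1, V.of N l2 h2 k2, V.of N l3 h3 k3, V.of N l4 h4 k4] = true)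
    (hN : 0 < N) {x y z w : ℝ} (a1 : (l1 : ℝ) / N ≤ x) (b1 : x ≤ (h1 : ℝ) / N)
    (a2 : (l2 : ℝ) / N ≤ y) (b2 : y ≤ (h2 : ℝ) / N)
    (a3 : (l3 : ℝ) / N ≤ z) (b3 : z ≤ (h3 : ℝ) / N)
    (a4 : (l4 : ℝ) / N ≤ w) (b4 : w ≤ (h4 : ℝ) / N) : ∃ e ∈ es, 0 < e.val [x, y, z, w] :=
  chk_sound h (List.Forall₂.cons (V.of_mem hN a1 b1) (List.Forall₂.cons (V.of_mem hN a2 b2)
    (List.Forall₂.cons (V.of_mem hN a3 b3) (List.Forall₂.cons (V.of_mem hN a4 b4)
      List.Forall₂.nil))))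

theorem pos_of_chk {e : E} {xs : List ℝ} (h : ∃ e' ∈ [e], 0 < e'.val xs) :
    0 < e.val xs := by
  obtain ⟨e', he, hp⟩ := h
  simp only [List.mem_singleton] at he
  rwa [he] at hp

theorem chk5 {es : List E} {fuel N : ℕ} {l1 h1 l2 h2 l3 h3 l4 h4 l5 h5 : ℤ} {k1 k2 k3 k4 k5 : ℕ}
    (h : chk es fuel [V.of N l1 h1 k1, V.of N l2 h2 k2, V.of N l3 h3 k3, V.of N l4 h4 k4,
      V.of N l5 h5 k5] = true)
    (hN : 0 < N) {x y z w u : ℝ} (a1 : (l1 : ℝ) / N ≤ x) (b1 : x ≤ (h1 : ℝ) / N)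
    (a2 : (l2 : ℝ) / N ≤ y) (b2 : y ≤ (h2 : ℝ) / N)
    (a3 : (l3 : ℝ) / N ≤ z) (b3 : z ≤ (h3 : ℝ) / N)
    (a4 : (l4 : ℝ) / N ≤ w) (b4 : w ≤ (h4 : ℝ) / N)
    (a5 : (l5 : ℝ) / N ≤ u) (b5 : u ≤ (h5 : ℝ) / N) : ∃ e ∈ es, 0 < e.val [x, y, z, w, u] :=
  chk_sound h (List.Forall₂.cons (V.of_mem hN a1 b1) (List.Forall₂.cons (V.of_mem hN a2 b2)
    (List.Forall₂.cons (V.of_mem hN a3 b3) (List.Forall₂.cons (V.of_mem hN a4 b4)
      (List.Forall₂.cons (V.of_mem hN a5 b5) List.Forall₂.nil)))))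

/-- number of boxes (for `#eval` only) -/
def cnt (es : List E) : ℕ → List V → ℕ
  | 0, _ => 1000000
  | n + 1, vs =>
    if tryE (mkEnv 0 vs) es then 1 else
      let i := best vs (grad1 (mkEnv 0 vs) es) 0 0 0
      cnt es n (setL i vs) + cnt es n (setR i vs)

/-- the first box on which the search fails, in units `1 / 2^36` (for `#eval` only) -/
def bad (es : List E) : ℕ → List V → Option (List (ℤ × ℤ))
  | 0, vs => some (vs.map fun v => ((v.p : ℤ) - v.q + v.a, (v.p : ℤ) - v.q + v.b))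
  | n + 1, vs =>
    if tryE (mkEnv 0 vs) es then none else
      let i := best vs (grad1 (mkEnv 0 vs) es) 0 0 0
      match bad es n (setL i vs) with
      | some r => some r
      | none => bad es n (setR i vs)

end Pool.Agent.Work.NumUs

end

section

/-!
# Left ramps of the hinges of a ring, heights `≤ 0`, shift `π / 2`: expressions

`D` is the side, `F ≤ 0` the first order condition of the ring variable.  Every expression of the list
`la` is a lower bound of `D` or of `D + F` (in `D + F` the logarithmic singularity at `w + 1/2 - ζ = 1`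
cancels).  Variables: `x`, `-m`, `s`, `ρ`.
-/

namespace Pool.Agent.Work.MP_b30479_gtS.G2

open VOL NumUs

namespace LRA



section
open NumUs.E

/-- the height of `w`, the height of `ζ` -/
def aT : E := neg (mul (var 1) (var 0))
def aH : E := mul (mul (q 4 1) (var 3)) (var 2)
/-- `w + 1/2 + ζ` -/
def aLu : E := lnA (add (var 0) (var 2)) (add aT aH)
def aYu : E := neg (lnB (add (var 0) (var 2)) (add aT aH))
/-- `w + 1/2 - ζ`, first form -/
def aLv1 : E := lnA (sub (var 2) (var 0)) (sub aH aT)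
def aYv1 : E := neg (lnB (sub (var 2) (var 0)) (sub aH aT))
/-- `w + 1/2 - ζ`, second form -/
def aLv2 : E := mul (q 1 2) (log (sub (mul (q 2 1) (cosh (mul (mul (q 2 1) E.pi) (sub aH aT))))
  (mul (q 2 1) (cosPi (mul (q 2 1) (sub (var 0) (var 2)))))))
def aYv2 : E := neg (add (mul (q 1 2) E.pi) (atan (mul (mul (sinPi (sub (var 0) (var 2)))
  (cosh (mul E.pi (sub aH aT)))) (inv (mul (cosPi (sub (var 0) (var 2)))
    (sinh (mul E.pi (sub aH aT))))))))
/-- `w` -/
def aLw : E := lnA (var 0) aT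
def aYw : E := neg (lnB (var 0) aT)
/-- `w` for `x ≤ n / 1000` -/
def aLw0 (n : ℤ) : E := lnA (q n 1000) (neg (mul (var 1) (q n 1000)))

/-- `D - k / 1000` -/
def eDD (lv yv : E) (k : ℤ) : E :=
  sub (sub (sub (sub (add aLu lv) (mul (q 2 1) aLw)) (mul (var 1)
    (sub (add aYu yv) (mul (q 2 1) aYw)))) (mul (mul (q 1 2) E.pi) (var 1))) (q k 1000)
/-- `D + F - k / 1000` without `YY v` -/
def eG0 (R : E) (k : ℤ) : E :=
  sub (sub (sub (add (add (mul (q 2 1) (sub aLu aLw)) (mul (sub (mul (q 4 1) (var 3)) (var 1)) aYu))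
    (mul (var 1) (mul (q 2 1) aYw))) (mul (mul (q 1 2) E.pi) (var 1))) (q k 1000)) R
/-- `D + F - k / 1000` -/
def eG (yv R : E) (k : ℤ) : E := sub (eG0 R k) (mul (add (var 1) (mul (q 4 1) (var 3))) yv)
/-- `D - k / 1000`, small `x` -/
def eDS (n : ℤ) (lv yv : E) (k : ℤ) : E :=
  sub (sub (sub (sub (add aLu lv) (mul (q 2 1) (aLw0 n))) (mul (var 1) (add aYu yv)))
    (mul (mul (q 1 2) E.pi) (var 1))) (q k 1000)
/-- `D + F - k / 1000`, small `x` -/
def eGS (n : ℤ) (yv R : E) (k : ℤ) : E :=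
  sub (sub (sub (sub (add (mul (q 2 1) (sub aLu (aLw0 n)))
    (mul (sub (mul (q 4 1) (var 3)) (var 1)) aYu)) (mul (mul (q 1 2) E.pi) (var 1))) (q k 1000)) R)
    (mul (add (var 1) (mul (q 4 1) (var 3))) yv)

def hb (b : ℤ) : E := sub (q 2 1) (mul (q b 1) (sub (q 1 1) (mul (q 4 1) (var 2))))
def g1 : E := q 1 1
def g2 : E := sub (q 107 100) (mul (q 17 1) (sq (var 2)))
def RP (g : E) (b : ℤ) : E := mul (mul (mul (q 4 1) E.pi) (var 3)) (add (hb b) g)
def RX (b : ℤ) : E := add (mul (mul (mul (q 4 1) E.pi) (var 3)) (hb b)) (mul (q 45 10) (var 2))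
/-- `-T > t / 10000` -/
def eT (t : ℤ) : E := sub (mul (var 1) (var 0)) (q t 10000)

/-- the list for `x ≥ 1 / 100` -/
def la (R : E) (k t : ℤ) : List E :=
  [eG aYv1 R k, eDD aLv1 aYv1 k, eG aYv2 R k, eDD aLv2 aYv2 k, eG0 R k, eT t]
/-- the list for `x ≤ n / 1000` -/
def ls (n : ℤ) (R : E) (k : ℤ) : List E := [eGS n aYv1 R k, eDS n aLv1 aYv1 k]

end

end LRA

end Pool.Agent.Work.MP_b30479_gtS.G2

end

section

/-!
# Side of the slot-0 hinge of an inner digit `3`, left ramp: parts and expressions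

`u = x (1 + i m)` the hinge, `v = r + i t` the inner variable, `w` the hinge in slot 2.
-/

namespace Pool.Agent.Work.MP_b30479_gtS.G2

open VOL NumUs

namespace VL

namespace S0

/-- the gain of the hinge in slot 2 in the side of the inner variable -/
noncomputable def ff (r t w h : ℝ) : ℝ :=
  Real.pi * h + NumIs.lnA (r + w) (t + h) - NumIs.lnA r t

/-- its value at the cap next to a digit `1` -/
noncomputable def fc (r t : ℝ) : ℝ :=
  ((-3226 : ℤ) : ℝ) / (10000 : ℕ) + NumIs.lnA (r + ((39 : ℤ) : ℝ) / (100 : ℕ))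
    (t + ((-29770 : ℤ) : ℝ) / (290000 : ℕ)) - NumIs.lnA r t

/-- the shifted side without the term `LL (v - u)` -/
noncomputable def co (x m p r t c : ℝ) : ℝ :=
  -(Real.pi * t) - NumIs.lnA x (m * x) + m * (c - Real.pi * r +
    (NumIs.lnB x (m * x) - NumIs.lnB p (t - m * x)))

/-- the same for small `x` -/
noncomputable def cs (x m p r t c : ℝ) : ℝ :=
  -(Real.pi * t) - NumIs.lnA (((1 : ℤ) : ℝ) / (100 : ℕ)) (m * (((1 : ℤ) : ℝ) / (100 : ℕ))) +
    m * (c - Real.pi * r + -NumIs.lnB p (t - m * x))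

section
open NumUs.E

def eF (r t w h : E) : E :=
  sub (add (mul E.pi h) (E.lnA (add r w) (add t h))) (E.lnA r t)

def eC (r t : E) : E :=
  sub (add (q (-3226) 10000) (E.lnA (add r (q 39 100)) (add t (q (-29770) 290000)))) (E.lnA r t)

def eCo (x m p r t c : E) : E :=
  add (sub (neg (mul E.pi t)) (E.lnA x (mul m x))) (mul m (add (sub c (mul E.pi r))
    (sub (E.lnB x (mul m x)) (E.lnB p (sub t (mul m x))))))

def eCs (x m p r t c : E) : E :=
  add (sub (neg (mul E.pi t)) (E.lnA (q 1 100) (mul m (q 1 100)))) (mul m (add (sub c (mul E.pi r))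
    (neg (E.lnB p (sub t (mul m x))))))

/-- the term `LL (v - u)` -/
def eV (x m p t : E) : E := E.lnA p (sub t (mul m x))

def eU (x m t : E) : E := mul E.pi (add (mul m x) t)

/-- the side minus its bound -/
def f1 (co x m p t e : E) : E := sub (add co (eV x m p t)) e

/-- with the first-order condition of the inner variable added -/
def f2 (co x m t e φ : E) : E := sub (sub (sub co e) (eU x m t)) φ

/-- violation of the first-order condition -/
def f3 (x m p t φ : E) : E := sub (sub (neg (eU x m t)) (eV x m p t)) φ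

/-- windows of the heights -/
def w1 (m t : E) (cl s : ℤ) : E := sub (sub t (mul (q cl 100) m)) (q s 1000)

def w0 (m t : E) (cl s : ℤ) : E := sub (q s 1000) (sub t (mul (q cl 100) m))

/-- shifts -/
def cA : E := sub E.pi (mul (q 9 2) (var 0))

def cN : E := mul E.pi (q 1 2)

/-- bounds of `-ff` -/
def gA (r : E) : E := sub (q 9 100) (mul (q 3 10) r)

def gL (r : E) : E := add (q 1 100) (mul (q 44 10) (sub r (q 247 1000)))

def gD (r : E) : E := add (q 3 100) (mul (q 33 10) (sub r (q 275 1000)))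

def gB (r t : E) : E := add (sub (q 3326 10000) (E.lnA (add r (q 39 100))
  (add t (q (-29770) 290000)))) (E.lnA r t)

/-! lists; variables `x, m, r, t` (`x, m, p, t` in `l1`, `r = x + p`) -/

def lN (cl s0 s1 : ℤ) : List E :=
  [sub (sub (neg (eU (var 0) (var 1) (var 3))) (E.lnA (q 8 100) (sub (var 3)
    (mul (var 1) (var 0))))) (gA (var 2)), sub (sub (var 2) (var 0)) (q 8 100),
    w1 (var 1) (var 3) cl s1, w0 (var 1) (var 3) cl s0]

def lN' : List E :=
  [sub (sub (neg (eU (var 0) (var 1) (var 3))) (E.lnA (q 8 100) (sub (var 3)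
    (mul (var 1) (var 0))))) (gA (var 2)), sub (sub (var 2) (var 0)) (q 8 100)]

def l1 (co : E) (e : ℤ) : List E :=
  [f2 co (var 0) (var 1) (var 3) (q e 1000) (gA (add (var 0) (var 2))),
    f1 co (var 0) (var 1) (var 2) (var 3) (q e 1000),
    f3 (var 0) (var 1) (var 2) (var 3) (gA (add (var 0) (var 2))),
    sub (add (var 0) (var 2)) (q 247 1000)]

def l2 (co φ : E) (e : ℤ) : List E :=
  [f2 co (var 0) (var 1) (var 3) (q e 1000) φ,
    f1 co (var 0) (var 1) (sub (var 2) (var 0)) (var 3) (q e 1000),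
    f3 (var 0) (var 1) (sub (var 2) (var 0)) (var 3) φ]

def l3 (co : E) (e : ℤ) : List E :=
  [f1 co (var 0) (var 1) (sub (var 2) (var 0)) (var 3) (q e 1000)]

def lW (cl s0 s1 : ℤ) : List E := [w1 (var 1) (var 3) cl s1, w0 (var 1) (var 3) cl s0]

/-- `co` for the variables `x, m, r, t` -/
def oR (c : E) : E := eCo (var 0) (var 1) (sub (var 2) (var 0)) (var 2) (var 3) c

/-- `co` for the variables `x, m, p, t` -/
def oP (c : E) : E := eCo (var 0) (var 1) (var 2) (add (var 0) (var 2)) (var 3) c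

def sR (c : E) : E := eCs (var 0) (var 1) (sub (var 2) (var 0)) (var 2) (var 3) c

def sP (c : E) : E := eCs (var 0) (var 1) (var 2) (add (var 0) (var 2)) (var 3) c

variable (x' m' p' r' t' c' h' w' : E) (xs : List ℝ)

theorem eF_val : (eF r' t' w' h').val xs = ff (r'.val xs) (t'.val xs) (w'.val xs) (h'.val xs) := by
  simp only [eF, E.val, ff]

theorem eC_val : (eC r' t').val xs = fc (r'.val xs) (t'.val xs) := by
  simp only [eC, E.val, fc]

theorem eCo_val : (eCo x' m' p' r' t' c').val xs =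
    co (x'.val xs) (m'.val xs) (p'.val xs) (r'.val xs) (t'.val xs) (c'.val xs) := by
  simp only [eCo, E.val, co]

theorem eCs_val : (eCs x' m' p' r' t' c').val xs =
    cs (x'.val xs) (m'.val xs) (p'.val xs) (r'.val xs) (t'.val xs) (c'.val xs) := by
  simp only [eCs, E.val, cs]

end

end S0

end VL

end Pool.Agent.Work.MP_b30479_gtS.G2

end

section

/-!
# The loss at a hinge when the ring variable moves: analytic part
-/

namespace Pool.Agent.Work.MP_b30479_gtS.G2

open VOL NumUs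

namespace ZD

namespace ZE
open NumUs.E

def x : NumUs.E := var 0
def y : NumUs.E := var 1
def s : NumUs.E := var 2
def r : NumUs.E := var 3
def h : NumUs.E := mul (q 4 1) (mul (var 3) (var 2))

end ZE

end ZD

end Pool.Agent.Work.MP_b30479_gtS.G2

end

section

/-!
# Checking a box in pieces

The checker `chk` of `NumUs.Expr` can be run in pieces, each by a theorem of its own: `chk_node`
gives the step at a bisection.
-/

namespace Pool.Agent.Work.NumUs

open NumIs (V setL setR best mkEnv)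

theorem chk_node {es : List E} {n i : ℕ} {vs : List V}
    (hi : Nat.beq (best vs (grad1 (mkEnv 0 vs) es) 0 0 0) i = true)
    (hl : chk es n (setL i vs) = true) (hr : chk es n (setR i vs) = true) :
    chk es (n + 1) vs = true := by
  have h := Nat.eq_of_beq_eq_true hi
  unfold chk
  rw [h, hl, hr, cond_true]
  cases tryE (mkEnv 0 vs) es <;> rfl

end Pool.Agent.Work.NumUs

end
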