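import Pool.Agent.Work.MP_b30479_gt.TBS.NumU.Node

section

/-!
# The checker with a certificate: the split tree is given as a number

The certificate is the list of the digits (base 16, least significant first) of the tree in
preorder: a digit `i < 8` splits the variable `i`, the digit `8 + i` is a leaf on which the
expression number `i` is positive.  Every leaf is evaluated once, inner nodes are not evaluated.
Find certificates with `#eval cert es fuel box`, prove with `decide +kernel`, `chkT4`.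
-/

namespace Pool.Agent.Work.NumUs

open NumIs (A G V R3 LS lkR lkA posO posA posA_spec mkEnv mkEnv_spec eps_le setL setR set_split)

/-- the expression number `i` -/
def nth : List E → ℕ → E
  | [], _ => E.q 0 1
  | e :: _, 0 => e
  | _ :: es, n + 1 => nth es n

theorem nth_spec : ∀ (es : List E) (i : ℕ) {xs : List ℝ}, 0 < (nth es i).val xs →
    ∃ e ∈ es, 0 < e.val xs
  | [], i, xs, h => by
    simp only [nth, E.val] at h
    norm_num at h
  | e :: es, 0, xs, h => ⟨e, List.mem_cons_self, h⟩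
  | e :: es, i + 1, xs, h => by
    obtain ⟨e', he, hp⟩ := nth_spec es i h
    exact ⟨e', List.mem_cons_of_mem _ he, hp⟩

/-- `0`: failure, `c + 1`: success, `c` is the rest of the certificate -/
def runT (es : List E) : ℕ → ℕ → List V → ℕ
  | 0, _, _ => 0
  | n + 1, c, vs =>
    cond (Nat.ble 8 (Nat.mod c 16))
      (cond (posO ((nth es (Nat.sub (Nat.mod c 16) 8)).ev (mkEnv 0 vs)))
        (Nat.add (Nat.div c 16) 1) 0)
      (match runT es n (Nat.div c 16) (setL (Nat.mod c 16) vs) with
        | 0 => 0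
        | c' + 1 => runT es n c' (setR (Nat.mod c 16) vs))

/-- the checker with the certificate `c` -/
def chkT (es : List E) (n c : ℕ) (vs : List V) : Bool := Nat.ble 1 (runT es n c vs)

theorem leaf_sound {e : E} {vs : List V} (h : posO (e.ev (mkEnv 0 vs)) = true)
    {xs : List ℝ} (hx : List.Forall₂ V.Mem vs xs) : 0 < e.val xs := by
  have hε := eps_le hx
  rcases h2 : e.ev (mkEnv 0 vs) with _ | c
  · rw [h2] at h; exact absurd h (by simp [posO])
  · rw [h2] at h
    exact posA_spec hε (E.ev_sound hε e (mkEnv_spec hx (fun n => rfl)) h2) h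

theorem runT_sound {es : List E} : ∀ {n c : ℕ} {vs : List V}, runT es n c vs ≠ 0 →
    ∀ {xs : List ℝ}, List.Forall₂ V.Mem vs xs → ∃ e ∈ es, 0 < e.val xs
  | 0, c, vs, h, xs, hx => absurd rfl h
  | n + 1, c, vs, h, xs, hx => by
    unfold runT at h
    rcases hb : Nat.ble 8 (Nat.mod c 16) with _ | _
    · rw [hb, cond_false] at h
      rcases h1 : runT es n (Nat.div c 16) (setL (Nat.mod c 16) vs) with _ | c'
      · rw [h1] at h; exact absurd rfl h
      · rw [h1] at h
        rcases set_split (i := Nat.mod c 16) hx with h3 | h3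
        · exact runT_sound (by rw [h1]; exact Nat.succ_ne_zero _) h3
        · exact runT_sound h h3
    · rw [hb, cond_true] at h
      rcases hp : posO ((nth es (Nat.sub (Nat.mod c 16) 8)).ev (mkEnv 0 vs)) with _ | _
      · rw [hp, cond_false] at h; exact absurd rfl h
      · exact nth_spec es _ (leaf_sound hp hx)

theorem chkT_sound {es : List E} {n c : ℕ} {vs : List V} (h : chkT es n c vs = true)
    {xs : List ℝ} (hx : List.Forall₂ V.Mem vs xs) : ∃ e ∈ es, 0 < e.val xs := by
  refine runT_sound (n := n) (c := c) ?_ hx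
  unfold chkT at h
  have := Nat.le_of_ble_eq_true h
  omega

theorem chkT2 {es : List E} {fuel c N : ℕ} {l1 h1 l2 h2 : ℤ} {k1 k2 : ℕ}
    (h : chkT es fuel c [V.of N l1 h1 k1, V.of N l2 h2 k2] = true) (hN : 0 < N) {x y : ℝ}
    (a1 : (l1 : ℝ) / N ≤ x) (b1 : x ≤ (h1 : ℝ) / N)
    (a2 : (l2 : ℝ) / N ≤ y) (b2 : y ≤ (h2 : ℝ) / N) : ∃ e ∈ es, 0 < e.val [x, y] :=
  chkT_sound h (List.Forall₂.cons (V.of_mem hN a1 b1) (List.Forall₂.cons (V.of_mem hN a2 b2)
    List.Forall₂.nil))

theorem chkT3 {es : List E} {fuel c N : ℕ} {l1 h1 l2 h2 l3 h3 : ℤ} {k1 k2 k3 : ℕ}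
    (h : chkT es fuel c [V.of N l1 h1 k1, V.of N l2 h2 k2, V.of N l3 h3 k3] = true) (hN : 0 < N)
    {x y z : ℝ} (a1 : (l1 : ℝ) / N ≤ x) (b1 : x ≤ (h1 : ℝ) / N)
    (a2 : (l2 : ℝ) / N ≤ y) (b2 : y ≤ (h2 : ℝ) / N)
    (a3 : (l3 : ℝ) / N ≤ z) (b3 : z ≤ (h3 : ℝ) / N) : ∃ e ∈ es, 0 < e.val [x, y, z] :=
  chkT_sound h (List.Forall₂.cons (V.of_mem hN a1 b1) (List.Forall₂.cons (V.of_mem hN a2 b2)
    (List.Forall₂.cons (V.of_mem hN a3 b3) List.Forall₂.nil)))

theorem chkT4 {es : List E} {fuel c N : ℕ} {l1 h1 l2 h2 l3 h3 l4 h4 : ℤ} {k1 k2 k3 k4 : ℕ}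
    (h : chkT es fuel c [V.of N l1 h1 k1, V.of N l2 h2 k2, V.of N l3 h3 k3, V.of N l4 h4 k4] = true)
    (hN : 0 < N) {x y z w : ℝ} (a1 : (l1 : ℝ) / N ≤ x) (b1 : x ≤ (h1 : ℝ) / N)
    (a2 : (l2 : ℝ) / N ≤ y) (b2 : y ≤ (h2 : ℝ) / N)
    (a3 : (l3 : ℝ) / N ≤ z) (b3 : z ≤ (h3 : ℝ) / N)
    (a4 : (l4 : ℝ) / N ≤ w) (b4 : w ≤ (h4 : ℝ) / N) : ∃ e ∈ es, 0 < e.val [x, y, z, w] :=
  chkT_sound h (List.Forall₂.cons (V.of_mem hN a1 b1) (List.Forall₂.cons (V.of_mem hN a2 b2)
    (List.Forall₂.cons (V.of_mem hN a3 b3) (List.Forall₂.cons (V.of_mem hN a4 b4)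
      List.Forall₂.nil))))

theorem chkT5 {es : List E} {fuel c N : ℕ} {l1 h1 l2 h2 l3 h3 l4 h4 l5 h5 : ℤ} {k1 k2 k3 k4 k5 : ℕ}
    (h : chkT es fuel c [V.of N l1 h1 k1, V.of N l2 h2 k2, V.of N l3 h3 k3, V.of N l4 h4 k4,
      V.of N l5 h5 k5] = true)
    (hN : 0 < N) {x y z w u : ℝ} (a1 : (l1 : ℝ) / N ≤ x) (b1 : x ≤ (h1 : ℝ) / N)
    (a2 : (l2 : ℝ) / N ≤ y) (b2 : y ≤ (h2 : ℝ) / N)
    (a3 : (l3 : ℝ) / N ≤ z) (b3 : z ≤ (h3 : ℝ) / N)
    (a4 : (l4 : ℝ) / N ≤ w) (b4 : w ≤ (h4 : ℝ) / N)
    (a5 : (l5 : ℝ) / N ≤ u) (b5 : u ≤ (h5 : ℝ) / N) : ∃ e ∈ es, 0 < e.val [x, y, z, w, u] :=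
  chkT_sound h (List.Forall₂.cons (V.of_mem hN a1 b1) (List.Forall₂.cons (V.of_mem hN a2 b2)
    (List.Forall₂.cons (V.of_mem hN a3 b3) (List.Forall₂.cons (V.of_mem hN a4 b4)
      (List.Forall₂.cons (V.of_mem hN a5 b5) List.Forall₂.nil)))))

/-! ### search (for `#eval` only) -/

/-- first alternative which is positive -/
def fstPos (env : List A) : List E → ℕ → Option ℕ
  | [], _ => none
  | e :: es, i => if posO (e.ev env) then some i else fstPos env es (i + 1)

/-- best lower bound (negative), `none` if nothing can be evaluated -/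
def lowB (env : List A) : List E → Option ℤ
  | [] => none
  | e :: es =>
    let r := lowB env es
    match e.ev env with
    | none => r
    | some a =>
      let s : ℤ := (a.p : ℤ) - a.q - a.tot
      match r with
      | none => some s
      | some t => some (max s t)

/-- score of a box: `0` if it is finished, otherwise the lower bound of the first `m` expressions -/
def scoreB (m : ℕ) (es : List E) (vs : List V) : ℤ :=
  match fstPos (mkEnv 0 vs) es 0 with
  | some _ => 0
  | none =>
    match lowB (mkEnv 0 vs) (es.take m) with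
    | none => -(2 ^ 60)
    | some s => s

/-- the variable with the best score of the two halves -/
def pick (m : ℕ) (es : List E) (vs : List V) : ℕ :=
  let r := (List.range vs.length).foldl (fun (b : ℕ × ℤ × ℕ) i =>
    let l := setL i vs
    let s := scoreB m es l + scoreB m es (setR i vs)
    let w := match vs[i]? with
      | some v => v.b - v.a
      | none => 0
    if b.2.1 < s ∨ (b.2.1 = s ∧ b.2.2 < w) then (i, s, w) else b) (0, -(2 ^ 62), 0)
  r.1

/-- digits of the certificate in preorder -/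
def digs (m : ℕ) (es : List E) : ℕ → List V → Option (List ℕ)
  | 0, _ => none
  | n + 1, vs =>
    match fstPos (mkEnv 0 vs) es 0 with
    | some i => some [8 + i]
    | none =>
      let i := pick m es vs
      match digs m es n (setL i vs) with
      | none => none
      | some l =>
        match digs m es n (setR i vs) with
        | none => none
        | some r => some (i :: (l ++ r))

/-- number of leaves and the certificate; `m` the number of main expressions -/
def cert (es : List E) (fuel : ℕ) (vs : List V) (m : ℕ := 1) : Option (ℕ × ℕ) :=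
  (digs m es fuel vs).map fun l =>
    ((l.filter fun d => 8 ≤ d).length, l.foldr (fun d c => d + 16 * c) 0)

end Pool.Agent.Work.NumUs

end

section

/-!
# Tails: a region with three crossings next to a digit `1` in the tail, expressions
-/

namespace Pool.Agent.Work.MP_b30479_gtS.G2

open VOL NumUs

namespace TL

namespace K3o

section
open NumIs (V)
open NumUs NumUs.E

def r0 : E := q 0 1
def u1 (e : E) : E := E.uu e r0
def eps : E := q 1 100
def eE : E := sub (sub (q 7 20) (var 0)) (var 1)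

/-- the old value, slot `0`; `fd fw fe`: the terms at `d`, `w`, `e` are replaced by the one at
`1/100` -/
def p0 (fd fw fe zz : Bool) (n : ℤ) : E :=
  sub (add (add (cond fd (u1 eps) (u1 (var 0))) (cond fe (u1 eps) (u1 eE)))
      (mul (q n 1) (cond fw (u1 eps) (u1 (var 1)))))
    (add (cond zz r0 (u1 (sub (q 7 20) (var 0)))) (u1 (q 7 20)))

/-- the old value, slot `2` -/
def p2 (fd fw fe zz : Bool) (n : ℤ) : E :=
  sub (add (add (add (cond fd (u1 eps) (u1 (var 0))) (cond fe (u1 eps) (u1 eE)))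
      (mul (q n 1) (cond fw (u1 eps) (u1 (var 1)))))
    (cond zz (u1 (q 2 100)) (u1 (add (var 0) (var 1))))) (mul (q 2 1) (u1 (q 7 20)))

def rP (p : E) (cw c2 : ℤ) : E := sub (add p (mul (q cw 1000) (var 1))) (q c2 10000)

def es (p : E) (cw c2 : ℤ) (fe : Bool) : List E :=
  [rP p cw c2, cond fe (sub eE eps) (sub eps eE), neg eE]

def rowP (p : E) (cw c2 : ℤ) (fe : Bool) (c : ℕ) (dl dh wl wh : ℤ) : Bool :=
  chkT (es p cw c2 fe) 30 c [V.of 1000 dl dh 0, V.of 1000 wl wh 0]

/-- the seven rows of an alternative -/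
structure R7 (P : Bool → Bool → Bool → Bool → ℤ → E) (s2 : Bool) (n cw c2 wh : ℤ)
    (c1' c2' c3' c4' c5' c6' c7' : ℕ) : Prop where
  h1 : rowP (P false false false false n) cw c2 false c1' 10 350 10 wh = true
  h2 : rowP (P false false true false n) cw c2 true c2' 10 350 10 wh = true
  h3 : rowP (P false true false false n) cw c2 false c3' 10 350 0 10 = true
  h4 : rowP (P false true true (!s2) n) cw c2 true c4' 330 350 0 10 = true
  h5 : rowP (P true false false false n) cw c2 false c5' 0 10 10 wh = true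
  h6 : rowP (P true false true false n) cw c2 true c6' 0 10 10 wh = true
  h7 : rowP (P true true false s2 n) cw c2 false c7' 0 10 0 10 = true

/-- the new value, slot `0`, target `cn / 1000`; the variables are `t m k` -/
def N0 (cn : ℤ) : E :=
  sub (sub (sub (sub (add (neg (mul (mul pi (q 1 2)) (add (sub (add (mul (q 56 100) (var 1))
    (mul (q 84 100) (var 0))) (var 1)) (add (var 2) (mul (q (2 * (420 - cn)) 1000)
      (sub (var 1) (var 2)))))))
    (E.uu (q (420 + cn) 1000) (add (var 1) (var 2)))) (E.uu (q 140 1000) (sub (var 1) (var 0))))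
    (E.uu (q 420 1000) (var 1))) (E.uu (q 280 1000) (var 0))) (mul (q 2 1) (E.uu (q cn 1000) (var 2)))

/-- the new value, slot `2` -/
def N2 (cn : ℤ) : E :=
  sub (sub (sub (sub (add (neg (mul (mul pi (q 1 2)) (add (sub (add (mul (q (2 * cn) 1000) (var 1))
    (mul (q 84 100) (var 2))) (var 1)) (add (var 0) (mul (q 28 100) (sub (var 1) (var 0)))))))
    (E.uu (q 700 1000) (add (var 1) (var 0)))) (E.uu (q (420 - cn) 1000) (sub (var 1) (var 2))))
    (E.uu (q 420 1000) (var 1))) (E.uu (q cn 1000) (var 2))) (mul (q 2 1) (E.uu (q 280 1000) (var 0)))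

def rN (s2 : Bool) (cn : ℤ) (kn : ℤ) (kd : ℕ) (c1 : ℤ) (s0 s1 : ℤ) : List E :=
  [sub (add (add (cond s2 (N2 cn) (N0 cn)) (mul (q 19 10) (var 0))) (mul (q kn kd) (var 2)))
    (q c1 10000),
   sub (q s0 10000) (sub (var 1) (cond s2 (var 2) (var 0))),
   sub (sub (var 1) (cond s2 (var 2) (var 0))) (q s1 10000)]

def rowN (s2 : Bool) (cn kn : ℤ) (kd : ℕ) (c1 s0 s1 m0 m1 k0 k1 : ℤ) (c : ℕ) : Bool :=
  chkT (rN s2 cn kn kd c1 s0 s1) 30 c
    [V.of 10000 (-1145) (-210) 0, V.of 10000 m0 m1 0, V.of 10000 k0 k1 0]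

end

end K3o

end TL

end Pool.Agent.Work.MP_b30479_gtS.G2

end

section

/-!
# Checking a certificate tree in pieces

A certificate tree of `NumUs.Tree` can be checked in pieces, each by a theorem of its own: a piece
is an equation `runT es n c vs = c' + 1`, where `c'` is the rest of the certificate.
-/

namespace Pool.Agent.Work.NumUs

open NumIs (V setL setR)

theorem runT_split {es : List E} {n c i c1 c2 r : ℕ} {vs : List V}
    (hd : Nat.mod c 16 = i) (hi : Nat.ble 8 i = false) (hc : Nat.div c 16 = c1)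
    (hl : runT es n c1 (setL i vs) = c2 + 1) (hr : runT es n c2 (setR i vs) = r) :
    runT es (n + 1) c vs = r := by
  unfold runT
  rw [hd, hi, cond_false, hc, hl]
  exact hr

theorem chkT_of {es : List E} {n c r : ℕ} {vs : List V} (h : runT es n c vs = r + 1) :
    chkT es n c vs = true := by
  unfold chkT
  rw [h]
  exact Nat.ble_eq_true_of_le (Nat.succ_le_succ (Nat.zero_le r))

end Pool.Agent.Work.NumUs

end
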