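import Pool.Agent.Work.MP_b30479_gt.TBS.NumU.GenC
import Pool.Agent.Work.MP_b30479_gt.TBS.G2.ZRows
import Pool.Agent.Work.MP_b30479_gt.TBS.G2.MRBase

section

/-!
# Numerics with `UU`, positive parts and slopes

The engine of `NumGs` (fast version, four variables) with the node `lnB a t` (`NumIs.lnB`, the slope of
`t ↦ UU (a + i t)` is `-lnB a t` for `0 < a < 1`).
-/

namespace Pool.Agent.Work.NumLs

open NumIs (V F okB okB_sound TestOk posO')
open NumUs (uu)
open NumGs (reluF reluF_encl uwF uwF_encl)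

/-- expressions -/
inductive E where
  | var : ℕ → E
  | q : ℤ → ℕ → E
  | pi : E
  | add : E → E → E
  | sub : E → E → E
  | mul : E → E → E
  | neg : E → E
  | sq : E → E
  | relu : E → E
  | uw : E → E → E
  | lnB : E → E → E

namespace E

/-- the real value -/
noncomputable def val : E → List ℝ → ℝ
  | var i, xs => NumIs.lkR xs i
  | q n d, _ => (n : ℝ) / d
  | pi, _ => Real.pi
  | add a b, xs => a.val xs + b.val xs
  | sub a b, xs => a.val xs - b.val xs
  | mul a b, xs => a.val xs * b.val xs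
  | neg a, xs => -a.val xs
  | sq a, xs => (a.val xs) ^ 2
  | relu a, xs => max (a.val xs) 0
  | uw a b, xs => uu (a.val xs) (b.val xs)
  | lnB a b, xs => NumIs.lnB (a.val xs) (b.val xs)

/-- maximum -/
def mx (a b : E) : E := add b (relu (sub a b))
/-- minimum -/
def mn (a b : E) : E := sub a (relu (sub a b))
/-- absolute value -/
def ab (a : E) : E := add (relu a) (relu (neg a))

theorem mx_val (a b : E) (xs : List ℝ) : (mx a b).val xs = max (a.val xs) (b.val xs) := by
  simp only [mx, val]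
  rcases le_total (a.val xs) (b.val xs) with h | h
  · rw [max_eq_right h, max_eq_right (by linarith only [h]), add_zero]
  · rw [max_eq_left h, max_eq_left (by linarith only [h])]
    ring

theorem mn_val (a b : E) (xs : List ℝ) : (mn a b).val xs = min (a.val xs) (b.val xs) := by
  simp only [mn, val]
  rcases le_total (a.val xs) (b.val xs) with h | h
  · rw [min_eq_left h, max_eq_right (by linarith only [h]), sub_zero]
  · rw [min_eq_right h, max_eq_left (by linarith only [h])]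
    ring

theorem ab_val (a : E) (xs : List ℝ) : (ab a).val xs = |a.val xs| := by
  simp only [ab, val]
  rcases le_total (a.val xs) 0 with h | h
  · rw [abs_of_nonpos h, max_eq_right h, max_eq_left (by linarith only [h]), zero_add]
  · rw [abs_of_nonneg h, max_eq_left h, max_eq_right (by linarith only [h]), add_zero]

end E

/-! ### evaluation -/

/-- evaluation by the recursor -/
noncomputable def E.evR (e : E) : List F → Option F :=
  E.rec (motive := fun _ => List F → Option F)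
    (fun i xs => some (NumIs.lkF xs i))
    (fun n d _ => some (F.cst n d))
    (fun _ => some F.pi)
    (fun _ _ a b xs => NumIs.o2 F.add (a xs) (b xs))
    (fun _ _ a b xs => NumIs.o2 F.sub (a xs) (b xs))
    (fun _ _ a b xs => NumIs.o2 F.mul (a xs) (b xs))
    (fun _ a xs => NumIs.o1 F.neg (a xs))
    (fun _ a xs => NumIs.o1 F.sqn (a xs))
    (fun _ a xs => NumIs.o1 reluF (a xs))
    (fun _ _ a b xs => NumIs.o3 uwF (a xs) (b xs))
    (fun _ _ a b xs => NumIs.o3 F.lnB (a xs) (b xs)) e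

theorem E.evR_sound {ε : ℕ → ℝ} (hε : ∀ i, |ε i| ≤ 1) (e : E) : ∀ {fs : List F} {xs : List ℝ}
    {c : F}, List.Forall₂ (fun f x => F.Encl f ε x) fs xs → e.evR fs = some c →
      c.Encl ε (e.val xs) := by
  induction e with
  | var i =>
    intro fs xs c h he
    have := Option.some.inj he
    rw [← this]; exact NumIs.lkF_encl h i
  | q n d =>
    intro fs xs c h he
    have := Option.some.inj he
    rw [← this]; exact F.cst_encl n d ε
  | pi =>
    intro fs xs c h he
    have := Option.some.inj he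
    rw [← this]; exact F.pi_encl ε
  | add a b iha ihb =>
    intro fs xs c h he
    obtain ⟨u, v, hu, hv, rfl⟩ := NumIs.o2_some he
    exact F.Encl.add (iha h hu) (ihb h hv)
  | sub a b iha ihb =>
    intro fs xs c h he
    obtain ⟨u, v, hu, hv, rfl⟩ := NumIs.o2_some he
    exact F.Encl.sub (iha h hu) (ihb h hv)
  | mul a b iha ihb =>
    intro fs xs c h he
    obtain ⟨u, v, hu, hv, rfl⟩ := NumIs.o2_some he
    exact F.Encl.mul hε (iha h hu) (ihb h hv)
  | neg a iha =>
    intro fs xs c h he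
    obtain ⟨u, hu, rfl⟩ := NumIs.o1_some he
    exact F.Encl.neg (iha h hu)
  | sq a iha =>
    intro fs xs c h he
    obtain ⟨u, hu, rfl⟩ := NumIs.o1_some he
    exact F.Encl.sqn hε (iha h hu)
  | relu a iha =>
    intro fs xs c h he
    obtain ⟨u, hu, rfl⟩ := NumIs.o1_some he
    exact reluF_encl hε (iha h hu)
  | uw a b iha ihb =>
    intro fs xs c h he
    obtain ⟨u, v, hu, hv, hc⟩ := NumIs.o3_some he
    exact uwF_encl hε (iha h hu) (ihb h hv) hc
  | lnB a b iha ihb =>
    intro fs xs c h he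
    obtain ⟨u, v, hu, hv, hc⟩ := NumIs.o3_some he
    exact F.Encl.lnB hε (iha h hu) (ihb h hv) hc

/-! ### the checker: certificates of `NumIs.Tree` -/

/-- the expression number `k` -/
noncomputable def nthR (es : List E) : ℕ → E :=
  List.rec (motive := fun _ => ℕ → E) (fun _ => E.q 0 1)
    (fun x _ ih i => Nat.rec (motive := fun _ => E) x (fun j _ => ih j) i) es

theorem nthR_spec : ∀ (es : List E) (i : ℕ) {xs : List ℝ}, 0 < (nthR es i).val xs →
    ∃ e ∈ es, 0 < e.val xs
  | [], i, xs, h => by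
    change 0 < (E.q 0 1).val xs at h
    simp only [E.val] at h
    norm_num at h
  | e :: es, 0, xs, h => ⟨e, List.mem_cons_self, h⟩
  | e :: es, i + 1, xs, h => by
    obtain ⟨e', he, hp⟩ := nthR_spec es i h
    exact ⟨e', List.mem_cons_of_mem _ he, hp⟩

/-- the tests: the expression number `k` is positive -/
noncomputable def tst (es : List E) (k : ℕ) (X Y Z W : F) : Bool :=
  posO' ((nthR es k).evR [X, Y, Z, W])

theorem tst_ok (es : List E) : TestOk (tst es) fun x y z w => ∃ e ∈ es, 0 < e.val [x, y, z, w] := by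
  intro k X Y Z W ε x y z w hε hX hY hZ hW h
  unfold tst at h
  rcases h1 : (nthR es k).evR [X, Y, Z, W] with _ | c
  · rw [h1] at h
    exact absurd h (by simp [posO'])
  · rw [h1] at h
    refine nthR_spec es k (NumIs.posF_spec hε (E.evR_sound hε _ ?_ h1) h)
    exact List.Forall₂.cons hX (List.Forall₂.cons hY (List.Forall₂.cons hZ
      (List.Forall₂.cons hW List.Forall₂.nil)))

/-- the checker on a box `[(l - o) / N, (h - o) / N]` of four variables -/
noncomputable def chkF (es : List E) (N o0 o1 o2 o3 fuel l0 h0 l1 h1 l2 h2 l3 h3 c : ℕ) : Bool :=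
  okB N (tst es) o0 o1 o2 o3 fuel l0 h0 l1 h1 l2 h2 l3 h3 c

theorem chkF4 {es : List E} {N o0 o1 o2 o3 fuel l0 h0 l1 h1 l2 h2 l3 h3 c : ℕ}
    (h : chkF es N o0 o1 o2 o3 fuel l0 h0 l1 h1 l2 h2 l3 h3 c = true) (hN : 0 < N) {x y z w : ℝ}
    (hx : ((l0 : ℝ) - o0) / N ≤ x) (hx' : x ≤ ((h0 : ℝ) - o0) / N)
    (hy : ((l1 : ℝ) - o1) / N ≤ y) (hy' : y ≤ ((h1 : ℝ) - o1) / N)
    (hz : ((l2 : ℝ) - o2) / N ≤ z) (hz' : z ≤ ((h2 : ℝ) - o2) / N)
    (hw : ((l3 : ℝ) - o3) / N ≤ w) (hw' : w ≤ ((h3 : ℝ) - o3) / N) :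
    ∃ e ∈ es, 0 < e.val [x, y, z, w] :=
  okB_sound hN (tst_ok es) h hx hx' hy hy' hz hz' hw hw'

end Pool.Agent.Work.NumLs

end

section

/-!
# `RowsN.nR`: expressions
-/

namespace Pool.Agent.Work.MP_b30479_gtS.G2

open NumUs (uu UU_uu)
open NumLs (E)
open NumLs.E (mn mx ab mn_val mx_val ab_val)

namespace ZD

namespace ZN

def x : E := .var 0
def half : E := .q 1 2
/-- fR -/
def fRE (x y s e : E) : E :=
  .sub (.add (.uw (.add (.add x half) s) (.add y e)) (.uw (.sub (.add x half) s) (.sub y e)))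
    (.mul (.q 2 1) (.uw x y))
def thE (s : E) : E := mn (.q 1 1) (.sub (.q 2 1) (.mul (.q 4 1) (ab s)))
def dNE (x : E) : E := .add (.q 15 1000) (.add (.relu (.sub (.q 15 100) (.mul (.q 19 10) x))) (.mul (.q 84 100) (.relu (.sub x (.q 3 10)))))
def cNE (x : E) : E := .add (.q 45 1000) (.mul (.q 1 48) x)
/-- nB with t -/
def nBE (x t s e : E) : E :=
  .add (.add (.q 2254 10000) (.mul (.mul (.mul (.q 2 1) .pi) e) (.relu s)))
    (.sub (.mul .pi (.mul (.q 16 100) t)) (fRE x (.neg (.mul (.q 16 100) t)) s e))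
def F1 (x t s e : E) : E := .sub (nBE x t s e) (dNE x)
def F2 (x t s e : E) : E :=
  .add (.mul (.add x (.q 15 100))
    (.add (.sub (fRE x (.q 0 1) s e) (fRE x (.neg (.mul (.q 16 100) t)) s e))
      (.mul t (.sub (.mul (.q 16 100) (.sub .pi (cNE x))) (.mul (.q 105 100000) .pi)))))
   (.mul (.mul (.mul (.q 16 100) t) (.sub (.q 1825 1000) (.mul (.q 5 2) x))) (nBE x t s e))
def tR (x : E) : E := mn (.q 1 1) (.mul (.q 10 3) (.sub (.q 6 10) x))
def tL (a : Nat) (x : E) : E := mn (.q 1 1) (.mul (.q 100 a) x)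
def et : E := .mul (.var 2) (thE (.var 1))


/-- v1 -/
def v1E (x : E) : E := .mul (.q 8 15) (.sub (.q 6 10) x)
/-- nB at v -/
def nVE (x w s e : E) : E :=
  .add (.add (.q 2254 10000) (.mul (.mul (.mul (.q 2 1) .pi) e) (.relu s)))
    (.sub (.mul .pi w) (fRE x (.neg w) s e))
def HpE (x w s e d : E) : E :=
  .add (.mul (.add x (.q 15 100)) (.sub d (.add (cNE x) (.mul (.q 7 1600) (.mul (.q 13 10) .pi)))))
    (.mul (.sub (.q 1825 1000) (.mul (.q 5 2) x)) (.add (nVE x w s e) (.mul w d)))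
/-- F1 with v1 instead of 16/100 t -/
def F1v (x s e : E) : E := .sub (nVE x (v1E x) s e) (.add (.q 15 1000) (.mul (.q 84 100) (.sub x (.q 3 10))))
def a1E (x s : E) : E := .add (.add x half) s
def a2E (x s : E) : E := .sub (.sub x half) s
def dA (x w s e : E) : E :=
  .sub (.sub (.lnB (a2E x s) (.add e w)) (.lnB (a1E x s) (.sub e w))) (.mul (.q 2 1) (.lnB x w))
def dD (x w s e : E) : E :=
  .sub (.add (.lnB (mx (a2E x s) (.q 5 100)) (.add e w)) (.lnB (mx (.sub (.q 1 1) (a1E x s)) (.q 3 100)) (.sub e w))) (.mul (.q 2 1) (.lnB x w))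
def dE (x w s e : E) : E :=
  .sub (.add (.lnB (.sub (a1E x s) (.q 1 1)) (.sub w e)) (.lnB (.sub (.add x half) s) (.add e w))) (.mul (.q 2 1) (.lnB x w))
def rowA : List E :=
  let w := .mul (v1E x) (.var 1)
  let s := .var 2
  let e := .mul (.var 3) (thE s)
  [HpE x w s e (dA x w s e)]
def rowB1 : List E :=
  let w := .mul (v1E x) (.var 1)
  let s := .sub (.sub (.var 2) x) half
  let e := .mul (v1E x) (.var 3)
  [HpE x w s e (dA x w s e), F1v x s e]
def rowB2 : List E :=
  let w := .mul (v1E x) (.var 1)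
  let s := .sub (.sub (.var 2) x) half
  let e := .add (v1E x) (.mul (.sub (.q 1045 10000) (v1E x)) (.var 3))
  [HpE x w s e (dD x w s e), F1v x s e]
def rowD1 : List E :=
  let s := .sub (.sub (.var 2) x) half
  let e := .mul (v1E x) (.var 3)
  [F1v x s e]
def rowD2 : List E :=
  let s := .var 2
  let e := .mul (v1E x) (.var 3)
  let w := .mul (v1E x) (.add (.var 3) (.mul (.sub (.q 1 1) (.var 3)) (.var 1)))
  [HpE x w s e (dE x w s e), F1v x s e]


def rowI : List E := [F2 x (tR x) (.var 1) et, F1 x (tR x) (.var 1) et]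
def rowL (a : ℕ) : List E := [F2 x (tL a x) (.var 1) et, F1 x (tL a x) (.var 1) et]
def rowG : List E := [.sub (.add (.uw (.q 425 1000) (.var 0)) (.uw (.q 975 1000) (.var 0)))
  (.add (.mul (.q 2 1) (.uw (.q 2 10) (.var 0))) (.q 3374 10000))]

def rowU : List E := [.sub (.q 1618 10000) (.uw (.var 0) (.q 0 1))]

/-! ### values -/

theorem fR_uu (x y σ η : ℝ) : fR ⟨x, y⟩ ⟨σ, η⟩ =
    uu (x + 1 / 2 + σ) (y + η) + uu (x + 1 / 2 - σ) (y - η) - 2 * uu x y := by
  have e1 : (⟨x, y⟩ : ℂ) + 1 / 2 + ⟨σ, η⟩ = ⟨x + 1 / 2 + σ, y + η⟩ := by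
    apply Complex.ext <;> simp
  have e2 : (⟨x, y⟩ : ℂ) + 1 / 2 - ⟨σ, η⟩ = ⟨x + 1 / 2 - σ, y - η⟩ := by
    apply Complex.ext <;> simp
  unfold fR
  rw [e1, e2, UU_uu, UU_uu, UU_uu]

variable (xs : List ℝ)

theorem fRE_val (x y s e : E) :
    (fRE x y s e).val xs = fR ⟨x.val xs, y.val xs⟩ ⟨s.val xs, e.val xs⟩ := by
  rw [fR_uu]
  simp only [fRE, half, E.val]
  push_cast
  ring

theorem thE_val (s : E) : (thE s).val xs = LT.th (s.val xs) := by
  simp only [thE, mn_val, E.val, ab_val, LT.th]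
  norm_num

theorem dNE_val (x : E) : (dNE x).val xs = dN (x.val xs) := by
  simp only [dNE, E.val, dN]
  norm_num
  ring

theorem cNE_val (x : E) : (cNE x).val xs = cN (x.val xs) := by
  simp only [cNE, E.val, cN]
  norm_num
  ring

/-- lower bound of the function `nBR` -/
noncomputable def nB0 (x v σ η : ℝ) : ℝ :=
  2254 / 10000 + bR σ η + (Real.pi * v - fR ⟨x, -v⟩ ⟨σ, η⟩)

/-- lower bound of the second function of `nR`, times `x + 15/100` -/
noncomputable def HH (x v κ σ η : ℝ) : ℝ :=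
  (x + 15 / 100) * ((fR ⟨x, 0⟩ ⟨σ, η⟩ - fR ⟨x, -v⟩ ⟨σ, η⟩) + v * (Real.pi - cN x - 7 / 1600 * κ)) +
    (1825 / 1000 - 5 / 2 * x) * v * nB0 x v σ η

/-- its derivative in `v`; `d`: `π` minus the derivative of `fR` -/
noncomputable def Hp (x v σ η d : ℝ) : ℝ :=
  (x + 15 / 100) * (d - (cN x + 7 / 1600 * (13 / 10 * Real.pi))) +
    (1825 / 1000 - 5 / 2 * x) * (nB0 x v σ η + v * d)

theorem nBE_val (x t s e : E) : (nBE x t s e).val xs =
    nB0 (x.val xs) (16 / 100 * t.val xs) (s.val xs) (e.val xs) := by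
  unfold nB0 bR
  simp only [nBE, E.val, fRE_val]
  push_cast
  ring_nf

theorem nVE_val (x w s e : E) : (nVE x w s e).val xs =
    nB0 (x.val xs) (w.val xs) (s.val xs) (e.val xs) := by
  unfold nB0 bR
  simp only [nVE, E.val, fRE_val]
  push_cast
  ring_nf

theorem F1_val (x t s e : E) : (F1 x t s e).val xs =
    nB0 (x.val xs) (16 / 100 * t.val xs) (s.val xs) (e.val xs) - dN (x.val xs) := by
  simp only [F1, E.val, nBE_val, dNE_val]

theorem F2_val (x t s e : E) : (F2 x t s e).val xs =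
    HH (x.val xs) (16 / 100 * t.val xs) (3 / 2 * Real.pi) (s.val xs) (e.val xs) := by
  unfold HH
  simp only [F2, E.val, fRE_val, nBE_val, cNE_val]
  push_cast
  rw [zero_div]
  ring

theorem HpE_val (x w s e d : E) : (HpE x w s e d).val xs =
    Hp (x.val xs) (w.val xs) (s.val xs) (e.val xs) (d.val xs) := by
  unfold Hp
  simp only [HpE, E.val, nVE_val, cNE_val]
  push_cast
  ring

theorem v1E_val (x : E) : (v1E x).val xs = 8 / 15 * (6 / 10 - x.val xs) := by
  simp only [v1E, E.val]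
  norm_num

theorem F1v_val (x s e : E) : (F1v x s e).val xs =
    nB0 (x.val xs) (8 / 15 * (6 / 10 - x.val xs)) (s.val xs) (e.val xs) -
      (15 / 1000 + 84 / 100 * (x.val xs - 3 / 10)) := by
  simp only [F1v, E.val, nVE_val, v1E_val]
  norm_num

theorem a1E_val (x s : E) : (a1E x s).val xs = x.val xs + 1 / 2 + s.val xs := by
  simp only [a1E, half, E.val]
  norm_num

theorem a2E_val (x s : E) : (a2E x s).val xs = x.val xs - 1 / 2 - s.val xs := by
  simp only [a2E, half, E.val]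
  norm_num

theorem dA_val (x w s e : E) : (dA x w s e).val xs =
    NumIs.lnB (x.val xs - 1 / 2 - s.val xs) (e.val xs + w.val xs) -
      NumIs.lnB (x.val xs + 1 / 2 + s.val xs) (e.val xs - w.val xs) -
      2 * NumIs.lnB (x.val xs) (w.val xs) := by
  simp only [dA, E.val, a1E_val, a2E_val]
  norm_num

theorem dD_val (x w s e : E) : (dD x w s e).val xs =
    NumIs.lnB (max (x.val xs - 1 / 2 - s.val xs) (5 / 100)) (e.val xs + w.val xs) +
      NumIs.lnB (max (1 - (x.val xs + 1 / 2 + s.val xs)) (3 / 100)) (e.val xs - w.val xs) -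
      2 * NumIs.lnB (x.val xs) (w.val xs) := by
  simp only [dD, E.val, a1E_val, a2E_val, mx_val]
  norm_num

theorem dE_val (x w s e : E) : (dE x w s e).val xs =
    NumIs.lnB (x.val xs + 1 / 2 + s.val xs - 1) (w.val xs - e.val xs) +
      NumIs.lnB (x.val xs + 1 / 2 - s.val xs) (e.val xs + w.val xs) -
      2 * NumIs.lnB (x.val xs) (w.val xs) := by
  simp only [dE, E.val, a1E_val, half]
  norm_num

end ZN

end ZD

end Pool.Agent.Work.MP_b30479_gtS.G2

end

section

/-!
# Rows at rings: tools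

Slopes of `t ↦ uu a t`, thin strips near `a = 0`, the derivative argument.
-/

namespace Pool.Agent.Work.MP_b30479_gtS.G2

open VOL NumUs

namespace ZD

namespace ZA

theorem uu_t {a c τ : ℝ} (h0 : 0 < a) (h1 : a < 1) :
    HasDerivAt (fun τ => uu a (τ + c)) (-NumIs.lnB a (τ + c)) τ := by
  have h := uu_line (x := a) (t := c) (a := 0) (b := 1) (τ := τ) (by simpa using h0)
    (by simpa using h1)
  have e : (fun τ => uu (a + τ * 0) (c + τ * 1)) = fun τ => uu a (τ + c) := by
    funext s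
    rw [mul_zero, add_zero, mul_one, add_comm]
  rw [e] at h
  refine h.congr_deriv ?_
  rw [mul_zero, add_zero, mul_one, add_comm c τ]
  ring

theorem cont_uu : Continuous fun p : ℝ × ℝ => uu p.1 p.2 := by
  have h : Continuous fun p : ℝ × ℝ => (⟨p.1, p.2⟩ : ℂ) := by
    have e : (fun p : ℝ × ℝ => (⟨p.1, p.2⟩ : ℂ)) = fun p => (p.1 : ℂ) + p.2 * Complex.I := by
      funext p
      apply Complex.ext <;> simp
    rw [e]
    fun_prop
  exact continuous_UU.comp h

theorem cont_uu' {α : Type*} [TopologicalSpace α] {f g : α → ℝ} (hf : Continuous f)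
    (hg : Continuous g) : Continuous fun a => uu (f a) (g a) := by
  have h : Continuous ((fun p : ℝ × ℝ => uu p.1 p.2) ∘ fun a => (f a, g a)) :=
    Continuous.comp cont_uu (hf.prodMk hg)
  exact h

theorem lnB_le (a t : ℝ) : NumIs.lnB a t ≤ Real.pi / 2 := (Real.arctan_lt_pi_div_two _).le

theorem lnB_nonneg {a t : ℝ} (h0 : 0 < a) (h1 : a ≤ 1 / 2) (ht : 0 ≤ t) : 0 ≤ NumIs.lnB a t := by
  have hp := Real.pi_pos
  unfold NumIs.lnB
  rw [Real.arctan_nonneg]
  apply div_nonneg
  · apply mul_nonneg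
    · apply Real.cos_nonneg_of_neg_pi_div_two_le_of_le <;> nlinarith only [hp, h0, h1]
    · exact Real.sinh_nonneg_iff.2 (by positivity)
  · apply mul_nonneg
    · exact (Real.sin_pos_of_pos_of_lt_pi (by positivity) (by nlinarith only [hp, h1])).le
    · exact (Real.cosh_pos _).le

theorem lnB_neg (a t : ℝ) : NumIs.lnB a (-t) = -NumIs.lnB a t := by
  unfold NumIs.lnB
  rw [mul_neg, Real.sinh_neg, Real.cosh_neg, ← Real.arctan_neg]
  congr 1
  ring

theorem lnB_nonpos {a t : ℝ} (h0 : 0 < a) (h1 : a ≤ 1 / 2) (ht : t ≤ 0) : NumIs.lnB a t ≤ 0 := by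
  have := lnB_nonneg h0 h1 (t := -t) (by linarith only [ht])
  rw [lnB_neg] at this
  linarith only [this]

theorem lnB_one_sub (a t : ℝ) : NumIs.lnB (1 - a) t = -NumIs.lnB a t := by
  unfold NumIs.lnB
  rw [mul_sub, mul_one, Real.cos_pi_sub, Real.sin_pi_sub, ← Real.arctan_neg]
  congr 1
  ring

/-- `lnB` decreases in `a` for `t ≥ 0` -/
theorem lnB_anti {a b t : ℝ} (h0 : 0 < a) (hab : a ≤ b) (h1 : b ≤ 1 / 2) (ht : 0 ≤ t) :
    NumIs.lnB b t ≤ NumIs.lnB a t := by
  have hp := Real.pi_pos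
  unfold NumIs.lnB
  rw [Real.arctan_le_arctan_iff]
  have s1 : 0 < Real.sin (Real.pi * a) :=
    Real.sin_pos_of_pos_of_lt_pi (by positivity) (by nlinarith only [hp, hab, h1])
  have s2 : Real.sin (Real.pi * a) ≤ Real.sin (Real.pi * b) := by
    apply Real.sin_le_sin_of_le_of_le_pi_div_two <;> nlinarith only [hp, h0, h1, hab]
  have c2 : Real.cos (Real.pi * b) ≤ Real.cos (Real.pi * a) := by
    apply Real.cos_le_cos_of_nonneg_of_le_pi <;> nlinarith only [h0, hp, h1, hab]
  have c0 : 0 ≤ Real.cos (Real.pi * b) := by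
    apply Real.cos_nonneg_of_neg_pi_div_two_le_of_le <;> nlinarith only [hp, h0, hab, h1]
  have hs : 0 ≤ Real.sinh (Real.pi * t) := Real.sinh_nonneg_iff.2 (by positivity)
  have hc := Real.cosh_pos (Real.pi * t)
  apply div_le_div₀
  · exact mul_nonneg (c0.trans c2) hs
  · exact mul_le_mul_of_nonneg_right c2 hs
  · positivity
  · exact mul_le_mul_of_nonneg_right s2 hc.le

theorem lnB_mono {a b t : ℝ} (h0 : 0 < a) (hab : a ≤ b) (h1 : b ≤ 1 / 2) (ht : t ≤ 0) :
    NumIs.lnB a t ≤ NumIs.lnB b t := by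
  have := lnB_anti h0 hab h1 (t := -t) (by linarith only [ht])
  rw [lnB_neg, lnB_neg] at this
  linarith only [this]

/-- a function with nonpositive derivative in the interior -/
theorem mono_of {f f' : ℝ → ℝ} {a b : ℝ} (hab : a ≤ b) (hc : ContinuousOn f (Set.Icc a b))
    (hd : ∀ y ∈ Set.Ioo a b, HasDerivAt f (f' y) y) (h : ∀ y ∈ Set.Ioo a b, f' y ≤ 0) :
    f b ≤ f a := by
  have hm : AntitoneOn f (Set.Icc a b) := by
    apply antitoneOn_of_deriv_nonpos (convex_Icc _ _) hc
    · rw [interior_Icc]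
      exact fun y hy => (hd y hy).differentiableAt.differentiableWithinAt
    · rw [interior_Icc]
      intro y hy
      rw [(hd y hy).deriv]
      exact h y hy
  exact hm (Set.left_mem_Icc.2 hab) (Set.right_mem_Icc.2 hab) hab

/-! ### slopes -/

theorem uu_abs (a t : ℝ) : uu a |t| = uu a t := by
  rcases abs_choice t with h | h <;> rw [h]
  exact uu_neg a t

/-- `t ↦ uu a t` decreases for `a ≤ 1/2` -/
theorem slope_le {a t t' : ℝ} (h0 : 0 ≤ a) (h1 : a ≤ 1 / 2) (ht : 0 ≤ t) (htt : t ≤ t') :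
    uu a t' ≤ uu a t := by
  have hp := Real.pi_pos
  rcases h0.eq_or_lt with h | h
  · rw [← h, UA.uu_zero, UA.uu_zero, abs_of_nonneg ht, abs_of_nonneg (ht.trans htt)]
    nlinarith only [htt, hp]
  · have := mono_of (f := fun τ => uu a (τ + 0)) (f' := fun τ => -NumIs.lnB a (τ + 0)) htt
      (cont_uu' continuous_const (by fun_prop)).continuousOn
      (fun y _ => uu_t h (by linarith only [h1, h])) (fun y hy => by
        have := lnB_nonneg h h1 (t := y + 0) (by linarith only [ht, hy, hy.1])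
        linarith only [this])
    simpa using this

/-- the slope of `t ↦ uu a t` is at least `-π/2` for `a ≤ 1/2` -/
theorem slope_ge {a t t' : ℝ} (h0 : 0 ≤ a) (h1 : a ≤ 1 / 2) (ht : 0 ≤ t) (htt : t ≤ t') :
    uu a t ≤ uu a t' + Real.pi / 2 * (t' - t) := by
  have hp := Real.pi_pos
  rcases h0.eq_or_lt with h | h
  · rw [← h, UA.uu_zero, UA.uu_zero, abs_of_nonneg ht, abs_of_nonneg (ht.trans htt)]
    linarith only []
  · have := mono_of (f := fun τ => -uu a (τ + 0) - Real.pi / 2 * τ)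
      (f' := fun τ => -(-NumIs.lnB a (τ + 0)) - Real.pi / 2 * 1) htt
      (((cont_uu' continuous_const (by fun_prop)).neg).sub (by fun_prop)).continuousOn
      (fun y _ => ((uu_t h (by linarith only [h1, h])).neg).sub ((hasDerivAt_id y).const_mul _))
      (fun y _ => by
        have := lnB_le a (y + 0)
        linarith only [this])
    simp only [add_zero] at this
    linarith only [this]

/-- thin strips: for heights up to `6/10` -/
theorem thin {s e u : ℝ} (h0 : 0 ≤ s) (hse : s ≤ e) (h1 : e ≤ 1 / 2) (hu : |u| ≤ 6 / 10) :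
    uu e u ≤ uu s u + 26 / 10 * (e - s) := by
  have hp := Real.pi_pos
  have hpt : ∀ s : ℝ, (u : ℂ) * Complex.I + ((1 * s : ℝ) : ℂ) = ⟨s, u⟩ := by
    intro s
    apply Complex.ext <;> simp
  have hd : ∀ y ∈ Set.Ioo s e, HasDerivAt
      (fun s : ℝ => UU ((u : ℂ) * Complex.I + ((1 * s : ℝ) : ℂ))) (1 * LL ⟨y, u⟩) y := by
    intro y hy
    have h2 := hasDerivAt_UU_level ((u : ℂ) * Complex.I) 1 y (by
      rw [hpt]
      intro hc
      rw [Complex.sin_eq_zero_iff] at hc
      obtain ⟨k, hk⟩ := hc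
      have hk1 : (⟨y, u⟩ : ℂ) = k := by
        have : (Real.pi : ℂ) ≠ 0 := by exact_mod_cast hp.ne'
        apply mul_left_cancel₀ this
        rw [hk]
        ring
      have hk2 := congrArg Complex.re hk1
      simp only [Complex.intCast_re] at hk2
      have a3 : (0 : ℤ) < k := by
        have : (0 : ℝ) < k := by linarith only [h0, hk2, hy, hy.1]
        exact_mod_cast this
      have a4 : k < (1 : ℤ) := by
        have : (k : ℝ) < 1 := by linarith only [h1, hk2, hy, hy.2]
        exact_mod_cast this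
      omega)
    rw [hpt] at h2
    exact h2
  have hL : ∀ y : ℝ, LL ⟨y, u⟩ ≤ 26 / 10 := by
    intro y
    have h3 : LL ⟨y, u⟩ ≤ Real.log (Real.exp (26 / 5)) / 2 := by
      apply MR.LL_le_log (Real.one_le_exp (by norm_num))
      simp only
      have c1 : 2 * Real.cosh (2 * Real.pi * u) ≤ Real.exp (378 / 100) + 1 := by
        have hpi := Real.pi_lt_d2
        have h4 : |2 * Real.pi * u| ≤ 378 / 100 := by
          rw [abs_mul, abs_of_pos (by positivity : 0 < 2 * Real.pi)]
          nlinarith only [hpi, hu, hp]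
        have h5 : Real.cosh (2 * Real.pi * u) ≤ Real.cosh (378 / 100) := by
          apply Real.cosh_le_cosh.2
          rwa [abs_of_pos (by norm_num : (0 : ℝ) < 378 / 100)]
        have h6 : Real.exp (-(378 / 100)) ≤ 1 := Real.exp_le_one_iff.2 (by norm_num)
        rw [Real.cosh_eq (378 / 100)] at h5
        linarith only [h5, h6]
      have c2 : Real.exp (378 / 100) + 3 ≤ Real.exp (26 / 5) := by
        have e1 : Real.exp (26 / 5) = Real.exp (378 / 100) * Real.exp (142 / 100) := by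
          rw [← Real.exp_add]
          norm_num
        have e2 := Real.add_one_le_exp (142 / 100 : ℝ)
        have e3 := Real.add_one_le_exp (378 / 100 : ℝ)
        rw [e1]
        nlinarith only [e2, e3]
      have c3 := Real.neg_one_le_cos (2 * Real.pi * y)
      linarith only [c1, c2, c3]
    rw [Real.log_exp] at h3
    linarith only [h3]
  have h2 := mono_of (f := fun s : ℝ => UU ((u : ℂ) * Complex.I + ((1 * s : ℝ) : ℂ)) -
      26 / 10 * s) (f' := fun y => 1 * LL ⟨y, u⟩ - 26 / 10 * 1) hse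
    ((continuous_UU.comp (by fun_prop)).sub (by fun_prop)).continuousOn
    (fun y hy => (hd y hy).sub ((hasDerivAt_id y).const_mul _))
    (fun y _ => by linarith only [hL, hL y])
  simp only [hpt] at h2
  unfold uu
  linarith only [h2]

end ZA

end ZD

end Pool.Agent.Work.MP_b30479_gtS.G2

end

section

/-!
# `RowsN.nR`: slopes and monotonicity
-/

namespace Pool.Agent.Work.MP_b30479_gtS.G2

open NumUs (uu uu_neg uu_one_sub uu_add_one UU_uu)

namespace ZD

namespace ZN

open ZA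

/-! ### slopes -/

/-- slope for `1/2 ≤ a ≤ 1`: between `0` and `π/2` -/
theorem sl_half {a t t' : ℝ} (h0 : 1 / 2 ≤ a) (h1 : a ≤ 1) (ht : 0 ≤ t) (htt : t ≤ t') :
    uu a t ≤ uu a t' ∧ uu a t' ≤ uu a t + Real.pi / 2 * (t' - t) := by
  have e1 : ∀ s, uu a s = -uu (1 - a) s := fun s => by
    rw [uu_one_sub, neg_neg]
  rw [e1, e1]
  have k1 := slope_le (a := 1 - a) (by linarith only [h1]) (by linarith only [h0]) ht htt
  have k2 := slope_ge (a := 1 - a) (by linarith only [h1]) (by linarith only [h0]) ht htt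
  constructor <;> linarith only [k1, k2]

theorem uu_sub_one {a s : ℝ} (hs : 0 ≤ s) : uu a s = uu (a - 1) s + Real.pi * s := by
  have := uu_add_one (a - 1) s
  rw [sub_add_cancel, abs_of_nonneg hs] at this
  exact this

/-- slope for `1 ≤ a ≤ 3/2`: between `π/2` and `π` -/
theorem sl_one {a t t' : ℝ} (h0 : 1 ≤ a) (h1 : a ≤ 3 / 2) (ht : 0 ≤ t) (htt : t ≤ t') :
    uu a t + Real.pi / 2 * (t' - t) ≤ uu a t' ∧ uu a t' ≤ uu a t + Real.pi * (t' - t) := by
  rw [uu_sub_one ht, uu_sub_one (ht.trans htt)]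
  have k1 := slope_le (a := a - 1) (by linarith only [h0]) (by linarith only [h1]) ht htt
  have k2 := slope_ge (a := a - 1) (by linarith only [h0]) (by linarith only [h1]) ht htt
  constructor <;> linarith only [k2, k1]

theorem lnB_small {a y : ℝ} (h0 : 1 / 2 ≤ a) (h1 : a < 1) (hy : 0 ≤ y) :
    -NumIs.lnB a y ≤ Real.pi * (a - 1 / 2) := by
  have hp := Real.pi_pos
  have hs : 0 < Real.sin (Real.pi * a) :=
    Real.sin_pos_of_pos_of_lt_pi (by positivity) (by nlinarith only [h1, hp])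
  have hc : Real.cos (Real.pi * a) ≤ 0 :=
    Real.cos_nonpos_of_pi_div_two_le_of_le (by nlinarith only [h0, hp]) (by nlinarith only [hp, h1])
  have hch : 0 < Real.cosh (Real.pi * y) := Real.cosh_pos _
  have hsh : Real.sinh (Real.pi * y) ≤ Real.cosh (Real.pi * y) := by
    rw [Real.sinh_eq, Real.cosh_eq]
    have := Real.exp_pos (-(Real.pi * y))
    linarith only [this]
  have hsh0 : 0 ≤ Real.sinh (Real.pi * y) := Real.sinh_nonneg_iff.2 (by positivity)
  unfold NumIs.lnB
  rw [← Real.arctan_neg]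
  have e : Real.pi * (a - 1 / 2) = Real.arctan (Real.tan (Real.pi * (a - 1 / 2))) := by
    rw [Real.arctan_tan] <;> nlinarith only [hp, h0, h1]
  rw [e, Real.arctan_le_arctan_iff]
  have e2 : Real.tan (Real.pi * (a - 1 / 2)) = -Real.cos (Real.pi * a) / Real.sin (Real.pi * a) := by
    have : Real.pi * (a - 1 / 2) = Real.pi * a - Real.pi / 2 := by ring
    rw [this, Real.tan_eq_sin_div_cos, Real.sin_sub_pi_div_two, Real.cos_sub_pi_div_two]
  rw [e2, ← neg_div, div_le_div_iff₀ (by positivity) hs]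
  have : 0 ≤ -Real.cos (Real.pi * a) * Real.sin (Real.pi * a) * (Real.cosh (Real.pi * y) - Real.sinh (Real.pi * y)) :=
    mul_nonneg (mul_nonneg (by linarith only [hc]) hs.le) (by linarith only [hsh])
  nlinarith only [this]

/-- slope for `1/2 ≤ a` -/
theorem sl_small {a t t' : ℝ} (h0 : 1 / 2 ≤ a) (h1 : a < 1) (ht : 0 ≤ t) (htt : t ≤ t') :
    uu a t' ≤ uu a t + Real.pi * (a - 1 / 2) * (t' - t) := by
  have hp := Real.pi_pos
  have := mono_of (f := fun τ => uu a (τ + 0) - Real.pi * (a - 1 / 2) * τ)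
    (f' := fun τ => -NumIs.lnB a (τ + 0) - Real.pi * (a - 1 / 2) * 1) htt
    ((cont_uu' continuous_const (by fun_prop)).sub (by fun_prop)).continuousOn
    (fun y _ => (uu_t (by linarith only [h0, h1]) h1).sub ((hasDerivAt_id y).const_mul _))
    (fun y hy => by
      have := lnB_small h0 h1 (y := y + 0) (by linarith only [ht, hy, hy.1])
      linarith only [this])
  simp only [add_zero] at this
  linarith only [this]

/-- the slope is at least `-π/2` -/
theorem low0 {a t t' : ℝ} (h0 : 0 ≤ a) (h1 : a ≤ 3 / 2) (ht : 0 ≤ t) (htt : t ≤ t') :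
    uu a t - Real.pi / 2 * (t' - t) ≤ uu a t' := by
  have hp := Real.pi_pos
  have hm : 0 ≤ Real.pi / 2 * (t' - t) := by
    have : 0 ≤ t' - t := by linarith only [htt]
    positivity
  rcases le_total a (1 / 2) with h2 | h2
  · linarith only [h0, h2, ht, htt, slope_ge h0 h2 ht htt]
  rcases le_total a 1 with h3 | h3
  · linarith only [hm, h2, h3, ht, htt, (sl_half h2 h3 ht htt).1]
  · linarith only [hm, h3, h1, ht, htt, (sl_one h3 h1 ht htt).1]

/-- the slope is at most `π` -/
theorem upp0 {a t t' : ℝ} (h0 : 0 ≤ a) (h1 : a ≤ 3 / 2) (ht : 0 ≤ t) (htt : t ≤ t') :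
    uu a t' ≤ uu a t + Real.pi * (t' - t) := by
  have hp := Real.pi_pos
  have hm : 0 ≤ Real.pi / 2 * (t' - t) := by
    have : 0 ≤ t' - t := by linarith only [htt]
    positivity
  rcases le_total a (1 / 2) with h2 | h2
  · linarith only [hm, h0, h2, ht, htt, slope_le h0 h2 ht htt]
  rcases le_total a 1 with h3 | h3
  · linarith only [hm, h2, h3, ht, htt, (sl_half h2 h3 ht htt).2]
  · linarith only [h3, h1, ht, htt, (sl_one h3 h1 ht htt).2]

/-- `1/2 ≤ a ≤ 8/5`: the slope is between `0` and `11/10 π` -/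
theorem slH {a t t' : ℝ} (h0 : 1 / 2 ≤ a) (h1 : a ≤ 8 / 5) (ht : 0 ≤ t) (htt : t ≤ t') :
    uu a t ≤ uu a t' ∧ uu a t' ≤ uu a t + 11 / 10 * Real.pi * (t' - t) := by
  have hp := Real.pi_pos
  have hm : 0 ≤ Real.pi * (t' - t) := by
    have : 0 ≤ t' - t := by linarith only [htt]
    positivity
  rcases le_total a 1 with h3 | h3
  · have := sl_half h0 h3 ht htt
    constructor <;> linarith only [this, hm, this.1, this.2]
  rcases le_total a (3 / 2) with h2 | h2
  · have := sl_one h3 h2 ht htt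
    constructor <;> linarith only [hm, this, this.1, this.2]
  · rw [uu_sub_one ht, uu_sub_one (ht.trans htt)]
    have k1 := (sl_half (a := a - 1) (by linarith only [h2]) (by linarith only [h1]) ht htt).1
    have k2 := sl_small (a := a - 1) (by linarith only [h2]) (by linarith only [h1]) ht htt
    have k3 : Real.pi * (a - 1 - 1 / 2) * (t' - t) ≤ 1 / 10 * (Real.pi * (t' - t)) := by
      have : Real.pi * (a - 1 - 1 / 2) * (t' - t) = (a - 1 - 1 / 2) * (Real.pi * (t' - t)) := by ring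
      rw [this]
      exact mul_le_mul_of_nonneg_right (by linarith only [h1]) hm
    constructor <;> linarith only [hm, k1, k2, k3]

/-- `1 ≤ a ≤ 8/5`: the slope is at least `π/2` -/
theorem slQ {a t t' : ℝ} (h0 : 1 ≤ a) (h1 : a ≤ 8 / 5) (ht : 0 ≤ t) (htt : t ≤ t') :
    uu a t + Real.pi / 2 * (t' - t) ≤ uu a t' := by
  have hp := Real.pi_pos
  have hm : 0 ≤ Real.pi * (t' - t) := by
    have : 0 ≤ t' - t := by linarith only [htt]
    positivity
  rcases le_total a (3 / 2) with h2 | h2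
  · exact (sl_one h0 h2 ht htt).1
  · rw [uu_sub_one ht, uu_sub_one (ht.trans htt)]
    have k1 := (sl_half (a := a - 1) (by linarith only [h2]) (by linarith only [h1]) ht htt).1
    linarith only [hm, k1]

/-! ### `fR` near the real axis -/

theorem fR_low1 {x y σ η : ℝ} (h0 : 0 ≤ x) (h1 : x ≤ 1 / 2) (hσ : |σ| ≤ 1 / 2) (hη : 0 ≤ η)
    (hy : 0 ≤ y) : fR ⟨x, 0⟩ ⟨σ, η⟩ - 3 / 2 * Real.pi * y ≤ fR ⟨x, y⟩ ⟨σ, η⟩ := by
  obtain ⟨s0, s1⟩ := abs_le.1 hσ
  have hp := Real.pi_pos
  rw [fR_uu, fR_uu, zero_add, zero_sub, uu_neg]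
  have k1 := low0 (a := x + 1 / 2 + σ) (by linarith only [h0, s0]) (by linarith only [h1, s1]) hη (show η ≤ y + η by linarith only [hy])
  have k3 := slope_le h0 h1 le_rfl hy
  have k2 : uu (x + 1 / 2 - σ) η - Real.pi * y ≤ uu (x + 1 / 2 - σ) (y - η) := by
    rw [← uu_abs _ (y - η)]
    rcases le_total |y - η| η with h2 | h2
    · have := upp0 (a := x + 1 / 2 - σ) (by linarith only [h0, s1]) (by linarith only [h1, s0]) (abs_nonneg _) h2
      have h3 : η - |y - η| ≤ y := by linarith only [neg_abs_le (y - η)]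
      have := mul_le_mul_of_nonneg_left h3 hp.le
      linarith
    · have := low0 (a := x + 1 / 2 - σ) (by linarith only [h0, s1]) (by linarith only [h1, s0]) hη h2
      have h3 : |y - η| - η ≤ y := by
        rcases abs_choice (y - η) with e | e <;> rw [e] at * <;> linarith only [hη, hy]
      have := mul_le_mul_of_nonneg_left h3 (show (0 : ℝ) ≤ Real.pi / 2 by positivity)
      have : 0 ≤ Real.pi * y := by positivity
      linarith
  linarith only [k1, k3, k2]

theorem fR_low2 {x y σ η : ℝ} (h0 : 1 / 2 ≤ x) (h1 : x ≤ 6 / 10) (hσ : |σ| ≤ 1 / 2) (hη : 0 ≤ η)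
    (hy : 0 ≤ y) : fR ⟨x, 0⟩ ⟨σ, η⟩ - 13 / 10 * Real.pi * y ≤ fR ⟨x, y⟩ ⟨σ, η⟩ := by
  obtain ⟨s0, s1⟩ := abs_le.1 hσ
  have hp := Real.pi_pos
  rw [fR_uu, fR_uu, zero_add, zero_sub, uu_neg]
  have k1 := (slH (a := x + 1 / 2 + σ) (by linarith only [h0, s0]) (by linarith only [h1, s1]) hη
    (show η ≤ y + η by linarith only [hy])).1
  have k3 : uu x y ≤ uu x 0 + 1 / 10 * Real.pi * y := by
    have a1 := sl_small h0 (by linarith only [h1]) le_rfl hy
    have a2 : Real.pi * (x - 1 / 2) * (y - 0) ≤ 1 / 10 * Real.pi * y := by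
      have a3 : 0 ≤ Real.pi * y := by positivity
      have : Real.pi * (x - 1 / 2) * (y - 0) = (x - 1 / 2) * (Real.pi * y) := by ring
      rw [this]
      have := mul_le_mul_of_nonneg_right (show x - 1 / 2 ≤ 1 / 10 by linarith only [h1]) a3
      linarith only [this]
    linarith only [a1, a2]
  have k2 : uu (x + 1 / 2 - σ) η - 11 / 10 * Real.pi * y ≤ uu (x + 1 / 2 - σ) (y - η) := by
    rw [← uu_abs _ (y - η)]
    rcases le_total |y - η| η with h2 | h2
    · have := (slH (a := x + 1 / 2 - σ) (by linarith only [h0, s1]) (by linarith only [h1, s0]) (abs_nonneg _) h2).2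
      have h3 : η - |y - η| ≤ y := by linarith only [neg_abs_le (y - η)]
      have := mul_le_mul_of_nonneg_left h3 (show (0 : ℝ) ≤ 11 / 10 * Real.pi by positivity)
      linarith
    · have := (slH (a := x + 1 / 2 - σ) (by linarith only [h0, s1]) (by linarith only [h1, s0]) hη h2).1
      have : 0 ≤ 11 / 10 * Real.pi * y := by positivity
      linarith
  linarith only [k1, k3, k2]

/-! ### monotonicity -/

theorem Hp_mono {x v σ η d d' : ℝ} (h0 : 1 / 2 ≤ x) (h1 : x ≤ 6 / 10) (hv : 0 ≤ v) (hd : d ≤ d') :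
    Hp x v σ η d ≤ Hp x v σ η d' := by
  unfold Hp
  have a1 : (x + 15 / 100) * d ≤ (x + 15 / 100) * d' := mul_le_mul_of_nonneg_left hd (by linarith only [h0])
  have a2 : (1825 / 1000 - 5 / 2 * x) * (v * d) ≤ (1825 / 1000 - 5 / 2 * x) * (v * d') :=
    mul_le_mul_of_nonneg_left (mul_le_mul_of_nonneg_left hd hv) (by linarith only [h1])
  nlinarith only [a1, a2]

theorem HH_mono {x σ η u w : ℝ} (hu : 0 ≤ u) (huw : u < w)
    (hd : ∀ v, u < v → v < w → ∃ f', HasDerivAt (fun v => fR ⟨x, -v⟩ ⟨σ, η⟩) f' v ∧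
      0 < Hp x v σ η (Real.pi - f')) :
    HH x u (13 / 10 * Real.pi) σ η < HH x w (13 / 10 * Real.pi) σ η := by
  have hcont : Continuous (fun v => fR ⟨x, -v⟩ ⟨σ, η⟩) := by
    have e : (fun v => fR ⟨x, -v⟩ ⟨σ, η⟩) = fun v =>
        uu (x + 1 / 2 + σ) (-v + η) + uu (x + 1 / 2 - σ) (-v - η) - 2 * uu x (-v) := by
      funext v
      exact fR_uu _ _ _ _
    rw [e]
    exact ((cont_uu' (by fun_prop) (by fun_prop)).add (cont_uu' (by fun_prop) (by fun_prop))).sub
      ((cont_uu' (by fun_prop) (by fun_prop)).const_mul 2)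
  set f : ℝ → ℝ := fun v => fR ⟨x, -v⟩ ⟨σ, η⟩ with hf
  have e : ∀ v, HH x v (13 / 10 * Real.pi) σ η = (x + 15 / 100) * ((fR ⟨x, 0⟩ ⟨σ, η⟩ - f v) +
      v * (Real.pi - cN x - 7 / 1600 * (13 / 10 * Real.pi))) + (1825 / 1000 - 5 / 2 * x) * v *
      (2254 / 10000 + bR σ η + (Real.pi * v - f v)) := by
    intro v
    rfl
  have hm : StrictMonoOn (fun v => HH x v (13 / 10 * Real.pi) σ η) (Set.Icc u w) := by
    apply strictMonoOn_of_deriv_pos (convex_Icc u w)
    · simp only [e]
      fun_prop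
    · intro v hv
      rw [interior_Icc] at hv
      obtain ⟨f', h1, h2⟩ := hd v hv.1 hv.2
      have h3 : HasDerivAt (fun v => HH x v (13 / 10 * Real.pi) σ η)
          (Hp x v σ η (Real.pi - f')) v := by
        have e0 : (fun v => HH x v (13 / 10 * Real.pi) σ η) = fun v =>
          (x + 15 / 100) * ((fR ⟨x, 0⟩ ⟨σ, η⟩ - f v) +
          v * (Real.pi - cN x - 7 / 1600 * (13 / 10 * Real.pi))) + (1825 / 1000 - 5 / 2 * x) * v *
          (2254 / 10000 + bR σ η + (Real.pi * v - f v)) := by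
          funext v
          exact e v
        rw [e0]
        have d1 := ((((hasDerivAt_const v (fR ⟨x, 0⟩ ⟨σ, η⟩)).sub h1).add
          ((hasDerivAt_id v).mul_const (Real.pi - cN x - 7 / 1600 * (13 / 10 * Real.pi)))).const_mul
          (x + 15 / 100)).add (((hasDerivAt_id v).const_mul (1825 / 1000 - 5 / 2 * x)).mul
          (((((hasDerivAt_id v).const_mul Real.pi).sub h1)).const_add (2254 / 10000 + bR σ η)))
        refine HasDerivAt.congr_deriv d1 ?_
        unfold Hp nB0
        simp only [id, hf, Pi.sub_apply]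
        ring
      rw [h3.deriv]
      exact h2
  exact hm (Set.left_mem_Icc.2 huw.le) (Set.right_mem_Icc.2 huw.le) huw

theorem HH_zero (x κ σ η : ℝ) : HH x 0 κ σ η = 0 := by
  unfold HH
  rw [neg_zero]
  ring

end ZN

end ZD

end Pool.Agent.Work.MP_b30479_gtS.G2

end

section

/-!
# `RowsN`: a digit `3`, slot `2`: expressions
-/

set_option linter.unusedVariables false
set_option linter.unusedSimpArgs false

namespace Pool.Agent.Work.MP_b30479_gtS.G2

open NumUs (uu)
open NumLs (E)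
open NumLs.E (mn mn_val)

namespace ZD

namespace ZK

def x : E := .var 0
def k1 : E := .var 1
def l : E := .var 2
def T : E := .var 3
def dNE (x : E) : E := .add (.q 15 1000) (.add (.relu (.sub (.q 15 100) (.mul (.q 19 10) x))) (.mul (.q 84 100) (.relu (.sub x (.q 30 100)))))
def cNE (x : E) : E := .add (.q 45 1000) (.mul (.q 1 48) x)
/-- gD2 -/
def gD2E (x t k1 k2 : E) : E :=
  .sub (.sub (.uw (.add x k1) (.add t k2)) (.mul (.q 2 1) (.uw x t)))
    (.mul .pi (.add (.mul (.sub x k1) (.sub t k2)) (.mul (.q 1 2) t)))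
def kE (k1 l : E) : E := .mul l (mn (.q 16 100) (mn (.mul (.q 32 10) k1) (.mul (.q 32 10) (.sub (.q 80 100) k1))))
def tR (x : E) : E := .mul (.q 10 3) (.sub (.q 60 100) x)
def tL (x : E) : E := .mul (.q 100 13) x
def nB2E (x t T k1 k2 : E) : E :=
  .add (.sub (gD2E (.q 2 10) T k1 k2) (gD2E x (.mul (.q 16 100) t) k1 k2)) (.mul .pi (.mul (.q 16 100) t))
def nd2E (x t T k1 k2 : E) : E := .add (nB2E x t T k1 k2) (dNE x)
/-- `(x + 15/100) PN` -/
def pE (x : E) : E := .sub (.q 1825 1000) (.mul (.q 5 2) x)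
/-- `(x + 15/100) nD2` -/
def nD2E (x t T k1 k2 : E) : E :=
  .sub (.add (.add (.mul (.add x (.q 15 100)) (.add (gD2E x (.mul T t) k1 k2) (.mul .pi (.mul (.q 16 100) t))))
    (.mul (.mul (.mul (.q 16 100) t) (pE x)) (.add (gD2E (.q 2 10) T k1 k2) (.mul .pi (.mul (.q 16 100) t)))))
    (.mul (.mul (.q 16 100) t) (.mul (.add x (.q 15 100)) (cNE x))))
   (.mul (.add (.add x (.q 15 100)) (.mul (.mul (.q 16 100) t) (pE x))) (gD2E x (.mul (.q 16 100) t) k1 k2))
/-- `(x + 15/100) ((16/100 - T) π c + 16/100 π d + 16/100 (PN nB2 + cN))` -/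
def nCE (c d x t T k1 k2 : E) : E :=
  .add (.mul (.mul (.add x (.q 15 100)) .pi) (.add (.mul (.sub (.q 16 100) T) c) (.mul (.q 16 100) d)))
    (.mul (.q 16 100) (.add (.mul (pE x) (nB2E x t T k1 k2)) (.mul (.add x (.q 15 100)) (cNE x))))

def d1 : List E := [nd2E x (tL x) T k1 (kE k1 l)]
def d2 : List E := [nd2E x (.q 1 1) T k1 (kE k1 l)]
def d3 : List E := [nd2E x (tR x) T k1 (kE k1 l)]
def e1 : List E := [nCE (mn (.mul (.q 2 1) x) (.sub (.q 1 1) (.mul (.q 2 1) k1))) (.q 4 10) x (tL x) T k1 (kE k1 l)]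
def e2 : List E := [nD2E x (tL x) T k1 (kE k1 l)]
def e3 : List E := [nD2E x (.q 1 1) T k1 (kE k1 l)]
def e4 : List E := [nD2E x (tR x) T k1 (kE k1 l)]
def e5 : List E := [nCE (.sub x k1) (.q 1 1) x (tR x) T k1 (kE k1 l), .sub (.add x k1) (.q 1 1)]
def e6 : List E := [nCE (.sub (.sub x k1) (.q 1 2)) (.q 1 1) x (tR x) T k1 (kE k1 l), .sub (.q 1 1) (.add x k1)]


section

variable (x t T k1 k2 l c d : E) (xs : List ℝ)

theorem gD2E_val : (gD2E x t k1 k2).val xs =
    gD2 (x.val xs) (t.val xs) (k1.val xs) (k2.val xs) := by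
  simp only [gD2E, E.val, gD2]
  push_cast
  ring

theorem kE_val : (kE k1 l).val xs = l.val xs * min (16 / 100) (min (32 / 10 * k1.val xs)
    (32 / 10 * (80 / 100 - k1.val xs))) := by
  simp only [kE, E.val, mn_val]
  push_cast
  ring

theorem tR_val : (tR x).val xs = 10 / 3 * (60 / 100 - x.val xs) := by
  simp only [tR, E.val]
  push_cast
  ring

theorem tL_val : (tL x).val xs = 100 / 13 * x.val xs := by
  simp only [tL, E.val]
  push_cast
  ring

theorem dNE_val : (dNE x).val xs = dN (x.val xs) := by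
  simp only [dNE, E.val, dN]
  push_cast
  ring

theorem cNE_val : (cNE x).val xs = cN (x.val xs) := by
  simp only [cNE, E.val, cN]
  push_cast
  ring

theorem nB2E_val : (nB2E x t T k1 k2).val xs =
    nB2 (x.val xs) (t.val xs) (T.val xs) (k1.val xs) (k2.val xs) := by
  simp only [nB2E, E.val, gD2E_val, nB2]
  push_cast
  ring

theorem nd2E_val : (nd2E x t T k1 k2).val xs =
    nB2 (x.val xs) (t.val xs) (T.val xs) (k1.val xs) (k2.val xs) + dN (x.val xs) := by
  simp only [nd2E, E.val, nB2E_val, dNE_val]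

theorem pE_val (h : 0 < x.val xs + 15 / 100) :
    (pE x).val xs = (x.val xs + 15 / 100) * PN (x.val xs) := by
  have e : (x.val xs + 15 / 100) * (22 / 10 / (x.val xs + 15 / 100)) = 22 / 10 := by
    rw [← mul_div_assoc, mul_comm, mul_div_assoc, div_self h.ne', mul_one]
  simp only [pE, E.val, PN, mul_sub, e]
  push_cast
  ring

theorem nD2E_val (h : 0 < x.val xs + 15 / 100) : (nD2E x t T k1 k2).val xs =
    (x.val xs + 15 / 100) * (nA2 (x.val xs) (t.val xs) (T.val xs) (k1.val xs) (k2.val xs) +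
      16 / 100 * t.val xs * (PN (x.val xs) *
        nB2 (x.val xs) (t.val xs) (T.val xs) (k1.val xs) (k2.val xs) + cN (x.val xs))) := by
  simp only [nD2E, E.val, gD2E_val, nA2, nB2, cNE_val, pE_val x xs h]
  push_cast
  ring

theorem nCE_val (h : 0 < x.val xs + 15 / 100) : (nCE c d x t T k1 k2).val xs =
    (x.val xs + 15 / 100) * ((16 / 100 - T.val xs) * Real.pi * c.val xs +
      16 / 100 * Real.pi * d.val xs + 16 / 100 * (PN (x.val xs) *
        nB2 (x.val xs) (t.val xs) (T.val xs) (k1.val xs) (k2.val xs) + cN (x.val xs))) := by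
  simp only [nCE, E.val, nB2E_val, cNE_val, pE_val x xs h]
  push_cast
  ring

end

/-- the variables of the rows -/
theorem vals (a b c d : ℝ) : x.val [a, b, c, d] = a ∧ k1.val [a, b, c, d] = b ∧
    l.val [a, b, c, d] = c ∧ T.val [a, b, c, d] = d := by
  refine ⟨?_, ?_, ?_, ?_⟩ <;> simp only [x, k1, l, T, E.val, NumIs.lkR]

/-- the height of the digit variable -/
theorem ex_l {k1 k2 : ℝ} (h0 : |k2| ≤ 16 / 100) (h1 : |k2| ≤ 32 / 10 * k1)
    (h2 : |k2| ≤ 32 / 10 * (80 / 100 - k1)) : ∃ l : ℝ, -1 ≤ l ∧ l ≤ 1 ∧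
      k2 = l * min (16 / 100) (min (32 / 10 * k1) (32 / 10 * (80 / 100 - k1))) := by
  set K := min (16 / 100) (min (32 / 10 * k1) (32 / 10 * (80 / 100 - k1))) with hK
  have h : |k2| ≤ K := le_min h0 (le_min h1 h2)
  have h3 := abs_le.1 h
  rcases (abs_nonneg k2).trans h |>.eq_or_lt with h4 | h4
  · refine ⟨0, by norm_num, by norm_num, ?_⟩
    rw [← h4] at h
    rw [zero_mul]
    exact abs_nonpos_iff.1 h
  · refine ⟨k2 / K, ?_, ?_, ?_⟩
    · rw [le_div_iff₀ h4]; linarith
    · rw [div_le_iff₀ h4]; linarith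
    · rw [div_mul_cancel₀ _ h4.ne']

end ZK

end ZD

end Pool.Agent.Work.MP_b30479_gtS.G2

end

section

/-!
# `RowsN`: a digit `3`, slot `0`: expressions
-/

set_option linter.unusedVariables false
set_option linter.unusedSimpArgs false

namespace Pool.Agent.Work.MP_b30479_gtS.G2

open NumUs (uu)
open NumLs (E)
open NumLs.E (mn mn_val)

namespace ZD

namespace ZL

def x : E := .var 0
def k1 : E := .var 1
def l : E := .var 2
def T : E := .var 3
def dNE (x : E) : E := .add (.q 15 1000) (.add (.relu (.sub (.q 15 100) (.mul (.q 19 10) x))) (.mul (.q 84 100) (.relu (.sub x (.q 30 100)))))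
def cNE (x : E) : E := .add (.q 45 1000) (.mul (.q 1 48) x)
/-- gD1 -/
def gD1E (x t k1 k2 : E) : E :=
  .add (.sub (.uw (.add x k1) (.add t k2)) (.uw x t))
    (.mul .pi (.sub (.add (.mul x k2) (.mul t k1)) t))
def kE (k1 l : E) : E := .mul l (mn (.q 16 100) (mn (.mul (.q 32 10) (.sub k1 (.q 20 100))) (.mul (.q 32 10) (.sub (.q 1 1) k1))))
def tR (x : E) : E := .mul (.q 10 3) (.sub (.q 60 100) x)
def tL (x : E) : E := .mul (.q 100 12) x
def nB1E (x t T k1 k2 : E) : E :=
  .add (.sub (gD1E (.q 2 10) T k1 k2) (gD1E x (.mul (.q 16 100) t) k1 k2)) (.mul .pi (.mul (.q 16 100) t))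
def nd1E (x t T k1 k2 : E) : E := .add (nB1E x t T k1 k2) (dNE x)
/-- `(x + 15/100) PN` -/
def pE (x : E) : E := .sub (.q 1825 1000) (.mul (.q 5 2) x)
/-- `(x + 15/100) nD1` -/
def nD1E (x t T k1 k2 : E) : E :=
  .sub (.add (.add (.mul (.add x (.q 15 100)) (.add (gD1E x (.mul T t) k1 k2) (.mul .pi (.mul (.q 16 100) t))))
    (.mul (.mul (.mul (.q 16 100) t) (pE x)) (.add (gD1E (.q 2 10) T k1 k2) (.mul .pi (.mul (.q 16 100) t)))))
    (.mul (.mul (.q 16 100) t) (.mul (.add x (.q 15 100)) (cNE x))))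
   (.mul (.add (.add x (.q 15 100)) (.mul (.mul (.q 16 100) t) (pE x))) (gD1E x (.mul (.q 16 100) t) k1 k2))

def d1 : List E := [nd1E x (tL x) T k1 (kE k1 l)]
def d2 : List E := [nd1E x (.q 1 1) T k1 (kE k1 l)]
def d3 : List E := [nd1E x (tR x) T k1 (kE k1 l)]
def e2 : List E := [nD1E x (tL x) T k1 (kE k1 l)]
def e3 : List E := [nD1E x (.q 1 1) T k1 (kE k1 l)]
def e4 : List E := [nD1E x (tR x) T k1 (kE k1 l)]


section

variable (x t T k1 k2 l c d : E) (xs : List ℝ)

theorem gD1E_val : (gD1E x t k1 k2).val xs =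
    gD1 (x.val xs) (t.val xs) (k1.val xs) (k2.val xs) := by
  simp only [gD1E, E.val, gD1]
  ring

theorem kE_val : (kE k1 l).val xs = l.val xs * min (16 / 100) (min (32 / 10 * (k1.val xs -
    20 / 100)) (32 / 10 * (1 - k1.val xs))) := by
  simp only [kE, E.val, mn_val]
  push_cast
  rw [div_one]

theorem tR_val : (tR x).val xs = 10 / 3 * (60 / 100 - x.val xs) := by
  simp only [tR, E.val]
  push_cast
  ring

theorem tL_val : (tL x).val xs = 100 / 12 * x.val xs := by
  simp only [tL, E.val]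
  push_cast
  ring

theorem dNE_val : (dNE x).val xs = dN (x.val xs) := by
  simp only [dNE, E.val, dN]
  push_cast
  ring

theorem cNE_val : (cNE x).val xs = cN (x.val xs) := by
  simp only [cNE, E.val, cN]
  push_cast
  ring

theorem nB1E_val : (nB1E x t T k1 k2).val xs =
    nB1 (x.val xs) (t.val xs) (T.val xs) (k1.val xs) (k2.val xs) := by
  simp only [nB1E, E.val, gD1E_val, nB1]
  push_cast
  ring

theorem nd1E_val : (nd1E x t T k1 k2).val xs =
    nB1 (x.val xs) (t.val xs) (T.val xs) (k1.val xs) (k2.val xs) + dN (x.val xs) := by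
  simp only [nd1E, E.val, nB1E_val, dNE_val]

theorem pE_val (h : 0 < x.val xs + 15 / 100) :
    (pE x).val xs = (x.val xs + 15 / 100) * PN (x.val xs) := by
  have e : (x.val xs + 15 / 100) * (22 / 10 / (x.val xs + 15 / 100)) = 22 / 10 := by
    rw [← mul_div_assoc, mul_comm, mul_div_assoc, div_self h.ne', mul_one]
  simp only [pE, E.val, PN, mul_sub, e]
  push_cast
  ring

theorem nD1E_val (h : 0 < x.val xs + 15 / 100) : (nD1E x t T k1 k2).val xs =
    (x.val xs + 15 / 100) * (nA1 (x.val xs) (t.val xs) (T.val xs) (k1.val xs) (k2.val xs) +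
      16 / 100 * t.val xs * (PN (x.val xs) *
        nB1 (x.val xs) (t.val xs) (T.val xs) (k1.val xs) (k2.val xs) + cN (x.val xs))) := by
  simp only [nD1E, E.val, gD1E_val, nA1, nB1, cNE_val, pE_val x xs h]
  push_cast
  ring

end

/-- the variables of the rows -/
theorem vals (a b c d : ℝ) : x.val [a, b, c, d] = a ∧ k1.val [a, b, c, d] = b ∧
    l.val [a, b, c, d] = c ∧ T.val [a, b, c, d] = d := by
  refine ⟨?_, ?_, ?_, ?_⟩ <;> simp only [x, k1, l, T, E.val, NumIs.lkR]

/-- the height of the digit variable -/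
theorem ex_l {k1 k2 : ℝ} (h : dom3 k1 k2) : ∃ l : ℝ, -1 ≤ l ∧ l ≤ 1 ∧
      k2 = l * min (16 / 100) (min (32 / 10 * (k1 - 20 / 100)) (32 / 10 * (1 - k1))) := by
  obtain ⟨_, _, h0, h1, h2⟩ := h
  set K := min (16 / 100) (min (32 / 10 * (k1 - 20 / 100)) (32 / 10 * (1 - k1))) with hK
  have h : |k2| ≤ K := le_min h0 (le_min h1 h2)
  have h3 := abs_le.1 h
  rcases (abs_nonneg k2).trans h |>.eq_or_lt with h4 | h4
  · refine ⟨0, by norm_num, by norm_num, ?_⟩
    rw [← h4] at h
    rw [zero_mul]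
    exact abs_nonpos_iff.1 h
  · refine ⟨k2 / K, ?_, ?_, ?_⟩
    · rw [le_div_iff₀ h4]; linarith
    · rw [div_le_iff₀ h4]; linarith
    · rw [div_mul_cancel₀ _ h4.ne']

end ZL

end ZD

end Pool.Agent.Work.MP_b30479_gtS.G2

end
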