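import Pool.Agent.Work.MP_b30479_gt.TBS.G2.TK2a
import Pool.Agent.Work.MP_b30479_gt.TBS.G2.H13A

section

/-!
# Numerics with positive parts and values of `UU` at every real part: expressions and checker

Expressions: `var`, `q`, `pi`, `add`, `sub`, `mul`, `neg`, `sq`, `relu` (`max x 0`), `uw x t`
(`UU (x + i t)`, every real `x`, `|t| ≤ 1/2` near the integers), `lt` (let), `emb` (an expression of
`NumUs`), `ux x t` (`UU (x + i t)` again, also `|t| > 1/2` and better near the integers), `yw x t`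
(`YY (x + i t)`, the vertical derivative).  Search: `#eval cert es fuel box`; proof: `chkT` with `decide +kernel`, then `chkT_sound`.
-/

namespace Pool.Agent.Work.NumGs

open NumIs (A G V DR lkR lkA op0 op1 op2 op3 op0_some op1_some op2_some op3_some Encl_lk posO posA
  posA_spec mkEnv mkEnv_spec eps_le setL setR set_split best gradO lkR_zero lkR_one lkR_succ)
open NumUs (uu)

/-- expressions -/
inductive E where
  | var : ℕ → E
  | q : ℤ → ℕ → E
  | pi : E
  | add : E → E → E
  | sub : E → E → E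
  | mul : E → E → E
  | neg : E → E
  | sq : E → E
  | relu : E → E
  | uw : E → E → E
  | lt : E → E → E
  | emb : NumUs.E → E
  | ux : E → E → E
  | yw : E → E → E

namespace E

/-- the real value -/
noncomputable def val : E → List ℝ → ℝ
  | var i, xs => lkR xs i
  | q n d, _ => (n : ℝ) / d
  | pi, _ => Real.pi
  | add a b, xs => a.val xs + b.val xs
  | sub a b, xs => a.val xs - b.val xs
  | mul a b, xs => a.val xs * b.val xs
  | neg a, xs => -a.val xs
  | sq a, xs => (a.val xs) ^ 2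
  | relu a, xs => max (a.val xs) 0
  | uw a b, xs => uu (a.val xs) (b.val xs)
  | lt a b, xs => b.val (xs ++ [a.val xs])
  | emb e, xs => e.val xs
  | ux a b, xs => uu (a.val xs) (b.val xs)
  | yw a b, xs => NumXs.yy (a.val xs) (b.val xs)

/-- maximum -/
def mx (a b : E) : E := add b (relu (sub a b))
/-- minimum -/
def mn (a b : E) : E := sub a (relu (sub a b))
/-- absolute value -/
def ab (a : E) : E := add (relu a) (relu (neg a))

theorem mx_val (a b : E) (xs : List ℝ) : (mx a b).val xs = max (a.val xs) (b.val xs) := by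
  simp only [mx, val]
  rcases le_total (a.val xs) (b.val xs) with h | h
  · rw [max_eq_right h, max_eq_right (by linarith only [h]), add_zero]
  · rw [max_eq_left h, max_eq_left (by linarith only [h])]
    ring

theorem mn_val (a b : E) (xs : List ℝ) : (mn a b).val xs = min (a.val xs) (b.val xs) := by
  simp only [mn, val]
  rcases le_total (a.val xs) (b.val xs) with h | h
  · rw [min_eq_left h, max_eq_right (by linarith only [h]), sub_zero]
  · rw [min_eq_right h, max_eq_left (by linarith only [h])]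
    ring

theorem ab_val (a : E) (xs : List ℝ) : (ab a).val xs = |a.val xs| := by
  simp only [ab, val]
  rcases le_total 0 (a.val xs) with h0 | h0
  · rw [max_eq_left h0, max_eq_right (by linarith only [h0]), abs_of_nonneg h0, add_zero]
  · rw [max_eq_right h0, max_eq_left (by linarith only [h0]), abs_of_nonpos h0, zero_add]

end E

/-- evaluation with affine forms -/
def E.ev : E → List A → Option A
  | E.var i, xs => some (lkA xs i)
  | E.q n d, _ => some (A.cst n d)
  | E.pi, _ => some A.pi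
  | E.add a b, xs => op2 A.add (a.ev xs) (b.ev xs)
  | E.sub a b, xs => op2 A.sub (a.ev xs) (b.ev xs)
  | E.mul a b, xs => op2 A.mul (a.ev xs) (b.ev xs)
  | E.neg a, xs => op1 A.neg (a.ev xs)
  | E.sq a, xs => op1 A.sqn (a.ev xs)
  | E.relu a, xs => op1 reluA (a.ev xs)
  | E.uw a b, xs => op3 uwA (a.ev xs) (b.ev xs)
  | E.lt a b, xs => match a.ev xs with
    | none => none
    | some c => b.ev (xs ++ [c])
  | E.emb e, xs => NumUs.E.ev e xs
  | E.ux a b, xs => op3 uxA (a.ev xs) (b.ev xs)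
  | E.yw a b, xs => op3 ywA (a.ev xs) (b.ev xs)

theorem E.ev_sound {ε : ℕ → ℝ} (hε : ∀ i, |ε i| ≤ 1) : ∀ (e : E) {as : List A} {xs : List ℝ} {c : A},
    List.Forall₂ (fun a x => a.Encl ε x) as xs → e.ev as = some c → c.Encl ε (e.val xs)
  | E.var i, as, xs, c, h, he => by
    have := Option.some.inj he
    rw [← this]; exact Encl_lk h i
  | E.q n d, as, xs, c, h, he => by
    have := Option.some.inj he
    rw [← this]; exact A.Encl_cst n d ε
  | E.pi, as, xs, c, h, he => by
    have := Option.some.inj he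
    rw [← this]; exact A.Encl_pi ε
  | E.add a b, as, xs, c, h, he => by
    obtain ⟨u, v, hu, hv, rfl⟩ := op2_some he
    exact (E.ev_sound hε a h hu).add (E.ev_sound hε b h hv)
  | E.sub a b, as, xs, c, h, he => by
    obtain ⟨u, v, hu, hv, rfl⟩ := op2_some he
    exact (E.ev_sound hε a h hu).sub (E.ev_sound hε b h hv)
  | E.mul a b, as, xs, c, h, he => by
    obtain ⟨u, v, hu, hv, rfl⟩ := op2_some he
    exact (E.ev_sound hε a h hu).mul hε (E.ev_sound hε b h hv)
  | E.neg a, as, xs, c, h, he => by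
    obtain ⟨u, hu, rfl⟩ := op1_some he
    exact (E.ev_sound hε a h hu).neg
  | E.sq a, as, xs, c, h, he => by
    obtain ⟨u, hu, rfl⟩ := op1_some he
    exact ((E.ev_sound hε a h hu).nf).sq hε (A.nf_normal u)
  | E.relu a, as, xs, c, h, he => by
    obtain ⟨u, hu, rfl⟩ := op1_some he
    exact reluA_spec hε (E.ev_sound hε a h hu)
  | E.uw a b, as, xs, c, h, he => by
    obtain ⟨u, v, hu, hv, hc⟩ := op3_some he
    exact uwA_spec hε (E.ev_sound hε a h hu) (E.ev_sound hε b h hv) hc
  | E.lt a b, as, xs, c, h, he => by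
    unfold E.ev at he
    rcases ha : a.ev as with _ | u
    · rw [ha] at he; exact absurd he (by simp)
    · rw [ha] at he
      have h1 := E.ev_sound hε a h ha
      have h2 : List.Forall₂ (fun a x => a.Encl ε x) (as ++ [u]) (xs ++ [a.val xs]) :=
        List.rel_append h (List.Forall₂.cons h1 List.Forall₂.nil)
      exact E.ev_sound hε b h2 he
  | E.emb e, as, xs, c, h, he => NumUs.E.ev_sound hε e h he
  | E.ux a b, as, xs, c, h, he => by
    obtain ⟨u, v, hu, hv, hc⟩ := op3_some he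
    exact uxA_spec hε (E.ev_sound hε a h hu) (E.ev_sound hε b h hv) hc
  | E.yw a b, as, xs, c, h, he => by
    obtain ⟨u, v, hu, hv, hc⟩ := op3_some he
    exact ywA_spec hε (E.ev_sound hε a h hu) (E.ev_sound hε b h hv) hc

/-! ### the checker with a certificate -/

/-- the expression number `i` -/
def nth : List E → ℕ → E
  | [], _ => E.q 0 1
  | e :: _, 0 => e
  | _ :: es, n + 1 => nth es n

theorem nth_spec : ∀ (es : List E) (i : ℕ) {xs : List ℝ}, 0 < (nth es i).val xs →
    ∃ e ∈ es, 0 < e.val xs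
  | [], i, xs, h => by
    simp only [nth, E.val] at h
    norm_num at h
  | e :: es, 0, xs, h => ⟨e, List.mem_cons_self, h⟩
  | e :: es, i + 1, xs, h => by
    obtain ⟨e', he, hp⟩ := nth_spec es i h
    exact ⟨e', List.mem_cons_of_mem _ he, hp⟩

/-- `0`: failure, `c + 1`: success, `c` is the rest of the certificate -/
def runT (es : List E) : ℕ → ℕ → List V → ℕ
  | 0, _, _ => 0
  | n + 1, c, vs =>
    cond (Nat.ble 8 (Nat.mod c 16))
      (cond (posO ((nth es (Nat.sub (Nat.mod c 16) 8)).ev (mkEnv 0 vs)))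
        (Nat.add (Nat.div c 16) 1) 0)
      (match runT es n (Nat.div c 16) (setL (Nat.mod c 16) vs) with
        | 0 => 0
        | c' + 1 => runT es n c' (setR (Nat.mod c 16) vs))

/-- the checker with the certificate `c` -/
def chkT (es : List E) (n c : ℕ) (vs : List V) : Bool := Nat.ble 1 (runT es n c vs)

theorem leaf_sound {e : E} {vs : List V} (h : posO (e.ev (mkEnv 0 vs)) = true)
    {xs : List ℝ} (hx : List.Forall₂ V.Mem vs xs) : 0 < e.val xs := by
  have hε := eps_le hx
  rcases h2 : e.ev (mkEnv 0 vs) with _ | c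
  · rw [h2] at h; exact absurd h (by simp [posO])
  · rw [h2] at h
    exact posA_spec hε (E.ev_sound hε e (mkEnv_spec hx (fun n => rfl)) h2) h

theorem runT_sound {es : List E} : ∀ {n c : ℕ} {vs : List V}, runT es n c vs ≠ 0 →
    ∀ {xs : List ℝ}, List.Forall₂ V.Mem vs xs → ∃ e ∈ es, 0 < e.val xs
  | 0, c, vs, h, xs, hx => absurd rfl h
  | n + 1, c, vs, h, xs, hx => by
    unfold runT at h
    rcases hb : Nat.ble 8 (Nat.mod c 16) with _ | _
    · rw [hb, cond_false] at h
      rcases h1 : runT es n (Nat.div c 16) (setL (Nat.mod c 16) vs) with _ | c'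
      · rw [h1] at h; exact absurd rfl h
      · rw [h1] at h
        rcases set_split (i := Nat.mod c 16) hx with h3 | h3
        · exact runT_sound (by rw [h1]; exact Nat.succ_ne_zero _) h3
        · exact runT_sound h h3
    · rw [hb, cond_true] at h
      rcases hp : posO ((nth es (Nat.sub (Nat.mod c 16) 8)).ev (mkEnv 0 vs)) with _ | _
      · rw [hp, cond_false] at h; exact absurd rfl h
      · exact nth_spec es _ (leaf_sound hp hx)

theorem chkT_sound {es : List E} {n c : ℕ} {vs : List V} (h : chkT es n c vs = true)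
    {xs : List ℝ} (hx : List.Forall₂ V.Mem vs xs) : ∃ e ∈ es, 0 < e.val xs := by
  refine runT_sound (n := n) (c := c) ?_ hx
  unfold chkT at h
  have := Nat.le_of_ble_eq_true h
  omega

theorem chkT1 {es : List E} {fuel c N : ℕ} {l1 h1 : ℤ} {k1 : ℕ}
    (h : chkT es fuel c [V.of N l1 h1 k1] = true) (hN : 0 < N)
    {x : ℝ}
    (a1 : (l1 : ℝ) / N ≤ x) (b1 : x ≤ (h1 : ℝ) / N) : ∃ e ∈ es, 0 < e.val [x] :=
  chkT_sound h (List.Forall₂.cons (V.of_mem hN a1 b1) List.Forall₂.nil)

theorem chkT2 {es : List E} {fuel c N : ℕ} {l1 h1 l2 h2 : ℤ} {k1 k2 : ℕ}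
    (h : chkT es fuel c [V.of N l1 h1 k1, V.of N l2 h2 k2] = true) (hN : 0 < N)
    {x y : ℝ}
    (a1 : (l1 : ℝ) / N ≤ x) (b1 : x ≤ (h1 : ℝ) / N)
    (a2 : (l2 : ℝ) / N ≤ y) (b2 : y ≤ (h2 : ℝ) / N) : ∃ e ∈ es, 0 < e.val [x, y] :=
  chkT_sound h (List.Forall₂.cons (V.of_mem hN a1 b1) (List.Forall₂.cons (V.of_mem hN a2 b2) List.Forall₂.nil))

theorem chkT3 {es : List E} {fuel c N : ℕ} {l1 h1 l2 h2 l3 h3 : ℤ} {k1 k2 k3 : ℕ}
    (h : chkT es fuel c [V.of N l1 h1 k1, V.of N l2 h2 k2, V.of N l3 h3 k3] = true) (hN : 0 < N)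
    {x y z : ℝ}
    (a1 : (l1 : ℝ) / N ≤ x) (b1 : x ≤ (h1 : ℝ) / N)
    (a2 : (l2 : ℝ) / N ≤ y) (b2 : y ≤ (h2 : ℝ) / N)
    (a3 : (l3 : ℝ) / N ≤ z) (b3 : z ≤ (h3 : ℝ) / N) : ∃ e ∈ es, 0 < e.val [x, y, z] :=
  chkT_sound h (List.Forall₂.cons (V.of_mem hN a1 b1) (List.Forall₂.cons (V.of_mem hN a2 b2) (List.Forall₂.cons (V.of_mem hN a3 b3) List.Forall₂.nil)))

theorem chkT4 {es : List E} {fuel c N : ℕ} {l1 h1 l2 h2 l3 h3 l4 h4 : ℤ} {k1 k2 k3 k4 : ℕ}
    (h : chkT es fuel c [V.of N l1 h1 k1, V.of N l2 h2 k2, V.of N l3 h3 k3, V.of N l4 h4 k4] = true) (hN : 0 < N)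
    {x y z w : ℝ}
    (a1 : (l1 : ℝ) / N ≤ x) (b1 : x ≤ (h1 : ℝ) / N)
    (a2 : (l2 : ℝ) / N ≤ y) (b2 : y ≤ (h2 : ℝ) / N)
    (a3 : (l3 : ℝ) / N ≤ z) (b3 : z ≤ (h3 : ℝ) / N)
    (a4 : (l4 : ℝ) / N ≤ w) (b4 : w ≤ (h4 : ℝ) / N) : ∃ e ∈ es, 0 < e.val [x, y, z, w] :=
  chkT_sound h (List.Forall₂.cons (V.of_mem hN a1 b1) (List.Forall₂.cons (V.of_mem hN a2 b2) (List.Forall₂.cons (V.of_mem hN a3 b3) (List.Forall₂.cons (V.of_mem hN a4 b4) List.Forall₂.nil))))

theorem chkT5 {es : List E} {fuel c N : ℕ} {l1 h1 l2 h2 l3 h3 l4 h4 l5 h5 : ℤ} {k1 k2 k3 k4 k5 : ℕ}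
    (h : chkT es fuel c [V.of N l1 h1 k1, V.of N l2 h2 k2, V.of N l3 h3 k3, V.of N l4 h4 k4, V.of N l5 h5 k5] = true) (hN : 0 < N)
    {x y z w u : ℝ}
    (a1 : (l1 : ℝ) / N ≤ x) (b1 : x ≤ (h1 : ℝ) / N)
    (a2 : (l2 : ℝ) / N ≤ y) (b2 : y ≤ (h2 : ℝ) / N)
    (a3 : (l3 : ℝ) / N ≤ z) (b3 : z ≤ (h3 : ℝ) / N)
    (a4 : (l4 : ℝ) / N ≤ w) (b4 : w ≤ (h4 : ℝ) / N)
    (a5 : (l5 : ℝ) / N ≤ u) (b5 : u ≤ (h5 : ℝ) / N) : ∃ e ∈ es, 0 < e.val [x, y, z, w, u] :=
  chkT_sound h (List.Forall₂.cons (V.of_mem hN a1 b1) (List.Forall₂.cons (V.of_mem hN a2 b2) (List.Forall₂.cons (V.of_mem hN a3 b3) (List.Forall₂.cons (V.of_mem hN a4 b4) (List.Forall₂.cons (V.of_mem hN a5 b5) List.Forall₂.nil)))))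

theorem chkT6 {es : List E} {fuel c N : ℕ} {l1 h1 l2 h2 l3 h3 l4 h4 l5 h5 l6 h6 : ℤ} {k1 k2 k3 k4 k5 k6 : ℕ}
    (h : chkT es fuel c [V.of N l1 h1 k1, V.of N l2 h2 k2, V.of N l3 h3 k3, V.of N l4 h4 k4, V.of N l5 h5 k5, V.of N l6 h6 k6] = true) (hN : 0 < N)
    {x y z w u v : ℝ}
    (a1 : (l1 : ℝ) / N ≤ x) (b1 : x ≤ (h1 : ℝ) / N)
    (a2 : (l2 : ℝ) / N ≤ y) (b2 : y ≤ (h2 : ℝ) / N)
    (a3 : (l3 : ℝ) / N ≤ z) (b3 : z ≤ (h3 : ℝ) / N)
    (a4 : (l4 : ℝ) / N ≤ w) (b4 : w ≤ (h4 : ℝ) / N)
    (a5 : (l5 : ℝ) / N ≤ u) (b5 : u ≤ (h5 : ℝ) / N)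
    (a6 : (l6 : ℝ) / N ≤ v) (b6 : v ≤ (h6 : ℝ) / N) : ∃ e ∈ es, 0 < e.val [x, y, z, w, u, v] :=
  chkT_sound h (List.Forall₂.cons (V.of_mem hN a1 b1) (List.Forall₂.cons (V.of_mem hN a2 b2) (List.Forall₂.cons (V.of_mem hN a3 b3) (List.Forall₂.cons (V.of_mem hN a4 b4) (List.Forall₂.cons (V.of_mem hN a5 b5) (List.Forall₂.cons (V.of_mem hN a6 b6) List.Forall₂.nil))))))

theorem pos_of {e : E} {xs : List ℝ} (h : ∃ e' ∈ [e], 0 < e'.val xs) : 0 < e.val xs := by
  obtain ⟨e', he, hp⟩ := h
  simp only [List.mem_singleton] at he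
  rwa [he] at hp

/-! ### search (for `#eval` only) -/

/-- first alternative which is positive -/
def fstPos (env : List A) : List E → ℕ → Option ℕ
  | [], _ => none
  | e :: es, i => if posO (e.ev env) then some i else fstPos env es (i + 1)

/-- best lower bound (negative), `none` if nothing can be evaluated -/
def lowB (env : List A) : List E → Option ℤ
  | [] => none
  | e :: es =>
    let r := lowB env es
    match e.ev env with
    | none => r
    | some a =>
      let s : ℤ := (a.p : ℤ) - a.q - a.tot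
      match r with
      | none => some s
      | some t => some (max s t)

/-- score of a box: `0` if it is finished, otherwise the lower bound of the first `m` expressions -/
def scoreB (m : ℕ) (es : List E) (vs : List V) : ℤ :=
  match fstPos (mkEnv 0 vs) es 0 with
  | some _ => 0
  | none =>
    match lowB (mkEnv 0 vs) (es.take m) with
    | none => -(2 ^ 60)
    | some s => s

/-- the variable with the best score of the two halves -/
def pick (m : ℕ) (es : List E) (vs : List V) : ℕ :=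
  let r := (List.range vs.length).foldl (fun (b : ℕ × ℤ × ℕ) i =>
    let l := setL i vs
    let s := scoreB m es l + scoreB m es (setR i vs)
    let w := match vs[i]? with
      | some v => v.b - v.a
      | none => 0
    if b.2.1 < s ∨ (b.2.1 = s ∧ b.2.2 < w) then (i, s, w) else b) (0, -(2 ^ 62), 0)
  r.1

/-- digits of the certificate in preorder -/
def digs (m : ℕ) (es : List E) : ℕ → List V → Option (List ℕ)
  | 0, _ => none
  | n + 1, vs =>
    match fstPos (mkEnv 0 vs) es 0 with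
    | some i => some [8 + i]
    | none =>
      let i := pick m es vs
      match digs m es n (setL i vs) with
      | none => none
      | some l =>
        match digs m es n (setR i vs) with
        | none => none
        | some r => some (i :: (l ++ r))

/-- number of leaves and the certificate; `m` the number of main expressions -/
def cert (es : List E) (fuel : ℕ) (vs : List V) (m : ℕ := 1) : Option (ℕ × ℕ) :=
  (digs m es fuel vs).map fun l =>
    ((l.filter fun d => 8 ≤ d).length, l.foldr (fun d c => d + 16 * c) 0)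

end Pool.Agent.Work.NumGs

end

section

/-!
# Tails, slot `0` of an interior three: the regions of the rows
-/

set_option linter.unusedSimpArgs false
set_option linter.unusedTactic false

namespace Pool.Agent.Work.MP_b30479_gtS.G2

namespace TL

namespace L2

/-- constraints of the rows `o0` -/
structure RO0 (t X Y : ℝ) : Prop where
  h0 : 0 ≤ X
  h1 : X ≤ 860 / 1000
  h2 : Y ≤ (111 / 1000) - t
  h3 : (150 / 1000) * Y ≤ (49 / 1000) * X
  h4 : (150 / 1000) * Y ≤ ((111 / 1000) - t) * X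
  h5 : (200 / 1000) * Y ≤ (49 / 1000) * ((860 / 1000) - X)
  h6 : (200 / 1000) * Y ≤ ((111 / 1000) - t) * ((860 / 1000) - X)
  h7 : (-(22 / 1000)) - t ≤ Y
  h8 : (-(91 / 1000)) * X ≤ (150 / 1000) * Y
  h9 : ((-(22 / 1000)) - t) * X ≤ (150 / 1000) * Y
  h10 : (-(91 / 1000)) * ((860 / 1000) - X) ≤ (200 / 1000) * Y
  h11 : ((-(22 / 1000)) - t) * ((860 / 1000) - X) ≤ (200 / 1000) * Y
  h12 : -(91 / 1000) ≤ Y
  h13 : Y ≤ 49 / 1000

/-- the same as expressions -/
def eRO0 : List NumGs.E :=
  [.sub (.var 0) (.var 2),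
   .sub (.sub (.var 2) (.var 0)) (.q 860 1000),
   .sub (.var 3) (.sub (.q 111 1000) (.var 1)),
   .sub (.mul (.q 150 1000) (.var 3)) (.mul (.q 49 1000) (.sub (.var 2) (.var 0))),
   .sub (.mul (.q 150 1000) (.var 3)) (.mul (.sub (.q 111 1000) (.var 1)) (.sub (.var 2) (.var
    0))),
   .sub (.mul (.q 200 1000) (.var 3)) (.mul (.q 49 1000) (.sub (.q 860 1000) (.sub (.var 2)
    (.var 0)))),
   .sub (.mul (.q 200 1000) (.var 3)) (.mul (.sub (.q 111 1000) (.var 1)) (.sub (.q 860 1000)
    (.sub (.var 2) (.var 0)))),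
   .sub (.sub (.q (-22) 1000) (.var 1)) (.var 3),
   .sub (.mul (.q (-91) 1000) (.sub (.var 2) (.var 0))) (.mul (.q 150 1000) (.var 3)),
   .sub (.mul (.sub (.q (-22) 1000) (.var 1)) (.sub (.var 2) (.var 0))) (.mul (.q 150 1000)
    (.var 3)),
   .sub (.mul (.q (-91) 1000) (.sub (.q 860 1000) (.sub (.var 2) (.var 0)))) (.mul (.q 200 1000)
    (.var 3)),
   .sub (.mul (.sub (.q (-22) 1000) (.var 1)) (.sub (.q 860 1000) (.sub (.var 2) (.var 0))))
    (.mul (.q 200 1000) (.var 3))]

theorem RO0.neg {t X Y w : ℝ} (h : RO0 t X Y) {e : NumGs.E} (he : e ∈ eRO0) :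
    e.val [w, t, w + X, Y] ≤ 0 := by
  obtain ⟨h0, h1, h2, h3, h4, h5, h6, h7, h8, h9, h10, h11, h12, h13⟩ := h
  simp only [eRO0, List.mem_cons, List.not_mem_nil, or_false] at he
  rcases he with rfl | rfl | rfl | rfl | rfl | rfl | rfl | rfl | rfl | rfl | rfl | rfl
  · simp only [NumGs.E.val, NumIs.lkR, add_sub_cancel_left]
    push_cast
    linarith only [h0]
  · simp only [NumGs.E.val, NumIs.lkR, add_sub_cancel_left]
    push_cast
    linarith only [h1]
  · simp only [NumGs.E.val, NumIs.lkR, add_sub_cancel_left]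
    push_cast
    linarith only [h2]
  · simp only [NumGs.E.val, NumIs.lkR, add_sub_cancel_left]
    push_cast
    linarith only [h3]
  · simp only [NumGs.E.val, NumIs.lkR, add_sub_cancel_left]
    push_cast
    linarith only [h4]
  · simp only [NumGs.E.val, NumIs.lkR, add_sub_cancel_left]
    push_cast
    linarith only [h5]
  · simp only [NumGs.E.val, NumIs.lkR, add_sub_cancel_left]
    push_cast
    linarith only [h6]
  · simp only [NumGs.E.val, NumIs.lkR, add_sub_cancel_left]
    push_cast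
    linarith only [h7]
  · simp only [NumGs.E.val, NumIs.lkR, add_sub_cancel_left]
    push_cast
    linarith only [h8]
  · simp only [NumGs.E.val, NumIs.lkR, add_sub_cancel_left]
    push_cast
    linarith only [h9]
  · simp only [NumGs.E.val, NumIs.lkR, add_sub_cancel_left]
    push_cast
    linarith only [h10]
  · simp only [NumGs.E.val, NumIs.lkR, add_sub_cancel_left]
    push_cast
    linarith only [h11]

/-- constraints of the rows `o1` -/
structure RO1 (t X Y : ℝ) : Prop where
  h0 : 0 ≤ X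
  h1 : X ≤ 800 / 1000
  h2 : Y ≤ (148 / 1000) - t
  h3 : (160 / 1000) * Y ≤ (77 / 1000) * X
  h4 : (160 / 1000) * Y ≤ ((148 / 1000) - t) * X
  h5 : (290 / 1000) * Y ≤ (77 / 1000) * ((800 / 1000) - X)
  h6 : (290 / 1000) * Y ≤ ((148 / 1000) - t) * ((800 / 1000) - X)
  h7 : 0 / 1000 ≤ Y
  h8 : Y ≤ 77 / 1000

/-- the same as expressions -/
def eRO1 : List NumGs.E :=
  [.sub (.var 0) (.var 2),
   .sub (.sub (.var 2) (.var 0)) (.q 800 1000),
   .sub (.var 3) (.sub (.q 148 1000) (.var 1)),
   .sub (.mul (.q 160 1000) (.var 3)) (.mul (.q 77 1000) (.sub (.var 2) (.var 0))),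
   .sub (.mul (.q 160 1000) (.var 3)) (.mul (.sub (.q 148 1000) (.var 1)) (.sub (.var 2) (.var
    0))),
   .sub (.mul (.q 290 1000) (.var 3)) (.mul (.q 77 1000) (.sub (.q 800 1000) (.sub (.var 2)
    (.var 0)))),
   .sub (.mul (.q 290 1000) (.var 3)) (.mul (.sub (.q 148 1000) (.var 1)) (.sub (.q 800 1000)
    (.sub (.var 2) (.var 0))))]

theorem RO1.neg {t X Y w : ℝ} (h : RO1 t X Y) {e : NumGs.E} (he : e ∈ eRO1) :
    e.val [w, t, w + X, Y] ≤ 0 := by
  obtain ⟨h0, h1, h2, h3, h4, h5, h6, h7, h8⟩ := h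
  simp only [eRO1, List.mem_cons, List.not_mem_nil, or_false] at he
  rcases he with rfl | rfl | rfl | rfl | rfl | rfl | rfl
  · simp only [NumGs.E.val, NumIs.lkR, add_sub_cancel_left]
    push_cast
    linarith only [h0]
  · simp only [NumGs.E.val, NumIs.lkR, add_sub_cancel_left]
    push_cast
    linarith only [h1]
  · simp only [NumGs.E.val, NumIs.lkR, add_sub_cancel_left]
    push_cast
    linarith only [h2]
  · simp only [NumGs.E.val, NumIs.lkR, add_sub_cancel_left]
    push_cast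
    linarith only [h3]
  · simp only [NumGs.E.val, NumIs.lkR, add_sub_cancel_left]
    push_cast
    linarith only [h4]
  · simp only [NumGs.E.val, NumIs.lkR, add_sub_cancel_left]
    push_cast
    linarith only [h5]
  · simp only [NumGs.E.val, NumIs.lkR, add_sub_cancel_left]
    push_cast
    linarith only [h6]

/-- constraints of the rows `o2` -/
structure RO2 (t X Y : ℝ) : Prop where
  h0 : 0 ≤ X
  h1 : X ≤ 700 / 1000
  h2 : (51 / 1000) - t ≤ Y
  h3 : (-(45 / 1000)) * X ≤ (140 / 1000) * Y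
  h4 : ((51 / 1000) - t) * X ≤ (140 / 1000) * Y
  h5 : (-(45 / 1000)) * ((700 / 1000) - X) ≤ (350 / 1000) * Y
  h6 : ((51 / 1000) - t) * ((700 / 1000) - X) ≤ (350 / 1000) * Y
  h7 : 8 / 100 ≤ X
  h8 : -(45 / 1000) ≤ Y
  h9 : Y ≤ 0 / 1000

/-- the same as expressions -/
def eRO2 : List NumGs.E :=
  [.sub (.var 0) (.var 2),
   .sub (.sub (.var 2) (.var 0)) (.q 700 1000),
   .sub (.sub (.q 51 1000) (.var 1)) (.var 3),
   .sub (.mul (.q (-45) 1000) (.sub (.var 2) (.var 0))) (.mul (.q 140 1000) (.var 3)),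
   .sub (.mul (.sub (.q 51 1000) (.var 1)) (.sub (.var 2) (.var 0))) (.mul (.q 140 1000) (.var
    3)),
   .sub (.mul (.q (-45) 1000) (.sub (.q 700 1000) (.sub (.var 2) (.var 0)))) (.mul (.q 350 1000)
    (.var 3)),
   .sub (.mul (.sub (.q 51 1000) (.var 1)) (.sub (.q 700 1000) (.sub (.var 2) (.var 0)))) (.mul
    (.q 350 1000) (.var 3)),
   .sub (.q 8 100) (.sub (.var 2) (.var 0))]

theorem RO2.neg {t X Y w : ℝ} (h : RO2 t X Y) {e : NumGs.E} (he : e ∈ eRO2) :
    e.val [w, t, w + X, Y] ≤ 0 := by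
  obtain ⟨h0, h1, h2, h3, h4, h5, h6, h7, h8, h9⟩ := h
  simp only [eRO2, List.mem_cons, List.not_mem_nil, or_false] at he
  rcases he with rfl | rfl | rfl | rfl | rfl | rfl | rfl | rfl
  · simp only [NumGs.E.val, NumIs.lkR, add_sub_cancel_left]
    push_cast
    linarith only [h0]
  · simp only [NumGs.E.val, NumIs.lkR, add_sub_cancel_left]
    push_cast
    linarith only [h1]
  · simp only [NumGs.E.val, NumIs.lkR, add_sub_cancel_left]
    push_cast
    linarith only [h2]
  · simp only [NumGs.E.val, NumIs.lkR, add_sub_cancel_left]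
    push_cast
    linarith only [h3]
  · simp only [NumGs.E.val, NumIs.lkR, add_sub_cancel_left]
    push_cast
    linarith only [h4]
  · simp only [NumGs.E.val, NumIs.lkR, add_sub_cancel_left]
    push_cast
    linarith only [h5]
  · simp only [NumGs.E.val, NumIs.lkR, add_sub_cancel_left]
    push_cast
    linarith only [h6]
  · simp only [NumGs.E.val, NumIs.lkR, add_sub_cancel_left]
    push_cast
    linarith only [h7]

/-- constraints of the rows `tw` -/
structure RTw (t X Y : ℝ) : Prop where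
  h0 : 0 ≤ X
  h1 : X ≤ 6 / 10
  h2 : Y ≤ (0 / 100000) + (7700 / 10000) * X
  h3 : Y ≤ (20450 / 100000) + (-(3200 / 10000)) * X
  h4 : (0 / 100000) + (-(8500 / 10000)) * X ≤ Y
  h5 : (-(27200 / 100000)) + (3400 / 10000) * X ≤ Y
  h6 : -(985 / 10000) ≤ Y
  h7 : Y ≤ 96 / 1000

/-- the same as expressions -/
def eRTw : List NumGs.E :=
  [.sub (.var 0) (.var 2),
   .sub (.sub (.var 2) (.var 0)) (.q 6 10),
   .sub (.var 3) (.add (.q 0 100000) (.mul (.q 7700 10000) (.sub (.var 2) (.var 0)))),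
   .sub (.var 3) (.add (.q 20450 100000) (.mul (.q (-3200) 10000) (.sub (.var 2) (.var 0)))),
   .sub (.add (.q 0 100000) (.mul (.q (-8500) 10000) (.sub (.var 2) (.var 0)))) (.var 3),
   .sub (.add (.q (-27200) 100000) (.mul (.q 3400 10000) (.sub (.var 2) (.var 0)))) (.var 3)]

theorem RTw.neg {t X Y w : ℝ} (h : RTw t X Y) {e : NumGs.E} (he : e ∈ eRTw) :
    e.val [w, t, w + X, Y] ≤ 0 := by
  obtain ⟨h0, h1, h2, h3, h4, h5, h6, h7⟩ := h
  simp only [eRTw, List.mem_cons, List.not_mem_nil, or_false] at he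
  rcases he with rfl | rfl | rfl | rfl | rfl | rfl
  · simp only [NumGs.E.val, NumIs.lkR, add_sub_cancel_left]
    push_cast
    linarith only [h0]
  · simp only [NumGs.E.val, NumIs.lkR, add_sub_cancel_left]
    push_cast
    linarith only [h1]
  · simp only [NumGs.E.val, NumIs.lkR, add_sub_cancel_left]
    push_cast
    linarith only [h2]
  · simp only [NumGs.E.val, NumIs.lkR, add_sub_cancel_left]
    push_cast
    linarith only [h3]
  · simp only [NumGs.E.val, NumIs.lkR, add_sub_cancel_left]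
    push_cast
    linarith only [h4]
  · simp only [NumGs.E.val, NumIs.lkR, add_sub_cancel_left]
    push_cast
    linarith only [h5]

/-- constraints of the rows `tf` -/
structure RTf (t X Y : ℝ) : Prop where
  h0 : 0 ≤ X
  h1 : X ≤ 8 / 10
  h2 : 6 / 10 ≤ X
  h3 : Y ≤ (27200 / 100000) + (-(3400 / 10000)) * X
  h4 : (-(27200 / 100000)) + (3400 / 10000) * X ≤ Y
  h5 : -(68 / 1000) ≤ Y
  h6 : Y ≤ 68 / 1000

/-- the same as expressions -/
def eRTf : List NumGs.E :=
  [.sub (.var 0) (.var 2),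
   .sub (.sub (.var 2) (.var 0)) (.q 8 10),
   .sub (.q 6 10) (.sub (.var 2) (.var 0)),
   .sub (.var 3) (.add (.q 27200 100000) (.mul (.q (-3400) 10000) (.sub (.var 2) (.var 0)))),
   .sub (.add (.q (-27200) 100000) (.mul (.q 3400 10000) (.sub (.var 2) (.var 0)))) (.var 3)]

theorem RTf.neg {t X Y w : ℝ} (h : RTf t X Y) {e : NumGs.E} (he : e ∈ eRTf) :
    e.val [w, t, w + X, Y] ≤ 0 := by
  obtain ⟨h0, h1, h2, h3, h4, h5, h6⟩ := h
  simp only [eRTf, List.mem_cons, List.not_mem_nil, or_false] at he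
  rcases he with rfl | rfl | rfl | rfl | rfl
  · simp only [NumGs.E.val, NumIs.lkR, add_sub_cancel_left]
    push_cast
    linarith only [h0]
  · simp only [NumGs.E.val, NumIs.lkR, add_sub_cancel_left]
    push_cast
    linarith only [h1]
  · simp only [NumGs.E.val, NumIs.lkR, add_sub_cancel_left]
    push_cast
    linarith only [h2]
  · simp only [NumGs.E.val, NumIs.lkR, add_sub_cancel_left]
    push_cast
    linarith only [h3]
  · simp only [NumGs.E.val, NumIs.lkR, add_sub_cancel_left]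
    push_cast
    linarith only [h4]

/-- constraints of the rows `tk` -/
structure RTk (t X Y : ℝ) : Prop where
  h0 : 0 ≤ X
  h1 : X ≤ 8 / 10
  h2 : Y ≤ (0 / 100000) + (1000 / 10000) * X
  h3 : Y ≤ (8000 / 100000) + (-(1000 / 10000)) * X
  h4 : (0 / 100000) + (-(24600 / 10000)) * X ≤ Y
  h5 : (-(196800 / 100000)) + (24600 / 10000) * X ≤ Y
  h6 : -(123 / 1000) ≤ Y
  h7 : Y ≤ 5 / 1000

/-- the same as expressions -/
def eRTk : List NumGs.E :=
  [.sub (.var 0) (.var 2),
   .sub (.sub (.var 2) (.var 0)) (.q 8 10),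
   .sub (.var 3) (.add (.q 0 100000) (.mul (.q 1000 10000) (.sub (.var 2) (.var 0)))),
   .sub (.var 3) (.add (.q 8000 100000) (.mul (.q (-1000) 10000) (.sub (.var 2) (.var 0)))),
   .sub (.add (.q 0 100000) (.mul (.q (-24600) 10000) (.sub (.var 2) (.var 0)))) (.var 3),
   .sub (.add (.q (-196800) 100000) (.mul (.q 24600 10000) (.sub (.var 2) (.var 0)))) (.var 3)]

theorem RTk.neg {t X Y w : ℝ} (h : RTk t X Y) {e : NumGs.E} (he : e ∈ eRTk) :
    e.val [w, t, w + X, Y] ≤ 0 := by
  obtain ⟨h0, h1, h2, h3, h4, h5, h6, h7⟩ := h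
  simp only [eRTk, List.mem_cons, List.not_mem_nil, or_false] at he
  rcases he with rfl | rfl | rfl | rfl | rfl | rfl
  · simp only [NumGs.E.val, NumIs.lkR, add_sub_cancel_left]
    push_cast
    linarith only [h0]
  · simp only [NumGs.E.val, NumIs.lkR, add_sub_cancel_left]
    push_cast
    linarith only [h1]
  · simp only [NumGs.E.val, NumIs.lkR, add_sub_cancel_left]
    push_cast
    linarith only [h2]
  · simp only [NumGs.E.val, NumIs.lkR, add_sub_cancel_left]
    push_cast
    linarith only [h3]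
  · simp only [NumGs.E.val, NumIs.lkR, add_sub_cancel_left]
    push_cast
    linarith only [h4]
  · simp only [NumGs.E.val, NumIs.lkR, add_sub_cancel_left]
    push_cast
    linarith only [h5]

end L2

end TL

end Pool.Agent.Work.MP_b30479_gtS.G2

end

section

/-!
# The fast version (four noise symbols) of the positive part and of `UU` at every real part
-/

namespace Pool.Agent.Work.NumGs

open NumIs (A G F LS R3 DR DR_pos DN_cast posO' okB okB_sound TestOk)
open NumIs.F (toA map_cond lsF lnKF app2)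
open NumUs (uu uuA uuA_spec uC)

/-- affine form of `max x 0` -/
def reluF (a : F) : F :=
  let t := a.tot
  cond (Nat.ble (Nat.add a.q t) a.p) a
    (cond (Nat.ble (Nat.add a.p t) a.q) NumIs.fz
      (let hi := Nat.sub (Nat.add a.p t) a.q
       let lo := Nat.sub (Nat.add a.q t) a.p
       let S := Nat.div (Nat.mul hi 68719476736) (Nat.add hi lo)
       let h := Nat.div (Nat.add (Nat.div (Nat.mul (Nat.sub 68719476736 S) hi) 68719476736) 1) 2
       F.scl S 0 a (Nat.add (Nat.div (Nat.mul S a.p) 68719476736) h)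
        (Nat.div (Nat.mul S a.q) 68719476736)
        (Nat.add (Nat.add h 3) (Nat.add (Nat.div (Nat.mul S a.r) 68719476736) 4))))

theorem reluF_encl {a : F} {ε : ℕ → ℝ} {x : ℝ} (hε : ∀ i, |ε i| ≤ 1) (hx : a.Encl ε x) :
    (reluF a).Encl ε (max x 0) := by
  have h := reluA_spec hε (a := a.toA) hx
  unfold F.Encl reluF
  unfold reluA at h
  simp only at h ⊢
  rcases h1 : Nat.ble (Nat.add a.q a.tot) a.p with _ | _
  · rw [cond_false]
    have h1' : Nat.ble (Nat.add a.toA.q a.toA.tot) a.toA.p = false := h1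
    rw [h1', cond_false] at h
    rcases h2 : Nat.ble (Nat.add a.p a.tot) a.q with _ | _
    · rw [cond_false]
      have h2' : Nat.ble (Nat.add a.toA.p a.toA.tot) a.toA.q = false := h2
      rw [h2', cond_false] at h
      exact h
    · rw [cond_true]
      have h2' : Nat.ble (Nat.add a.toA.p a.toA.tot) a.toA.q = true := h2
      rw [h2', cond_true] at h
      have h0 : max x 0 = 0 := by
        unfold A.Encl at h
        simp only [G.ev, Nat.cast_zero, sub_zero, add_zero] at h
        have h3 := abs_nonpos_iff.1 h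
        rcases mul_eq_zero.1 h3 with h4 | h4
        · exact h4
        · exact absurd h4 DR_pos.ne'
      rw [h0]
      exact NumIs.fz_encl ε
  · rw [cond_true]
    have h1' : Nat.ble (Nat.add a.toA.q a.toA.tot) a.toA.p = true := h1
    rw [h1', cond_true] at h
    exact h

/-- value at the centre -/
def uVF (Xp Tp Tq : ℕ) : Option R3 :=
  let m := Nat.add Tp Tq
  cond (Nat.ble (Nat.mul 2 Xp) 68719476736) (uC Xp m)
    (match uC (Nat.sub 68719476736 Xp) m with
      | none => none
      | some r => some ⟨r.q, r.p, r.e⟩)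

/-- second order bound -/
def uKF (Xt Tt : ℕ) (l : LS) : ℕ :=
  let T2 := Nat.add Tt 1
  let a2 := Nat.mul Xt Xt
  let b2 := Nat.mul T2 T2
  let u := l.vU
  let w := l.vW
  Nat.add (Nat.add (Nat.div (Nat.add (Nat.mul (cond (Nat.ble a2 b2) b2 a2) (Nat.add (Nat.add u.p u.q) u.e))
    (Nat.mul (Nat.mul 2 (Nat.mul Xt T2)) (Nat.add (Nat.add w.p w.q) w.e))) 9444732965739290427392)
    (Nat.div (Nat.mul (Nat.add Xt T2) (lnKF Xt Tt l)) 206158430208)) 2

/-- `uu` of affine forms -/
def uuF (a b : F) : Option F :=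
  let X := a.nf
  let T := b.nf
  let Xt := X.tot
  let Tt := T.tot
  cond (Nat.beq X.q 0) (cond (Nat.ble (Nat.add Xt 1) X.p) (cond (Nat.ble (Nat.add (Nat.add X.p Xt) 1) 68719476736)
    (match lsF X.p X.q Xt T.p T.q with
    | none => none
    | some l => cond l.ok (match l.vB with
      | none => none
      | some w => match uVF X.p T.p T.q with
        | none => none
        | some v =>
          let u := l.vA
          cond (Nat.beq T.q 0)
            (some (app2 X T (Nat.add T.r 1) (Nat.add Tt 1) v.p v.q v.e u.p u.q u.e w.q w.p w.e (uKF Xt Tt l)))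
            (some (app2 X T (Nat.add T.r 1) (Nat.add Tt 1) v.p v.q v.e u.p u.q u.e w.p w.q w.e (uKF Xt Tt l)))) none)
      none) none) none

theorem toA_uuF (a b : F) : (uuF a b).map toA = uuA a.toA b.toA := by
  unfold uuF uuA
  simp only [map_cond]
  have e1 : a.toA.nf.q = a.nf.q := rfl
  have e2 : a.toA.nf.tot = a.nf.tot := rfl
  have e3 : a.toA.nf.p = a.nf.p := rfl
  have e4 : NumIs.lsD a.toA.nf b.toA.nf = lsF a.nf.p a.nf.q a.nf.tot b.nf.p b.nf.q := rfl
  have e5 : NumUs.uV a.toA.nf b.toA.nf = uVF a.nf.p b.nf.p b.nf.q := rfl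
  rw [e1, e2, e3, e4, e5]
  congr 3
  rcases lsF a.nf.p a.nf.q a.nf.tot b.nf.p b.nf.q with _ | l
  · rfl
  · simp only [map_cond]
    congr 1
    rcases l.vB with _ | w
    · rfl
    · simp only
      rcases uVF a.nf.p b.nf.p b.nf.q with _ | v
      · rfl
      · simp only [map_cond]
        rfl

theorem uuF_encl {a b c : F} {ε : ℕ → ℝ} {x t : ℝ} (hε : ∀ i, |ε i| ≤ 1) (hx : a.Encl ε x)
    (ht : b.Encl ε t) (h : uuF a b = some c) : c.Encl ε (uu x t) :=
  uuA_spec hε hx ht (NumIs.map_some_inv (toA_uuF a b) h)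

/-! ### every real part -/

def absF (a : F) : F := F.add (reluF a) (reluF a.neg)

theorem absF_encl {a : F} {ε : ℕ → ℝ} {x : ℝ} (hε : ∀ i, |ε i| ≤ 1) (hx : a.Encl ε x) :
    (absF a).Encl ε |x| := by
  have h := (reluF_encl hε hx).add (reluF_encl hε hx.neg)
  have e : max x 0 + max (-x) 0 = |x| := by
    rcases le_total 0 x with h0 | h0
    · rw [max_eq_left h0, max_eq_right (by linarith only [h0]), abs_of_nonneg h0, add_zero]
    · rw [max_eq_right h0, max_eq_left (by linarith only [h0]), abs_of_nonpos h0, zero_add]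
  rw [e] at h
  exact h

def addKF (n : ℕ) (u w : F) : F := cond (Nat.beq n 0) u (F.add u (F.mulq n 1 w))
def subKF (n : ℕ) (u w : F) : F := cond (Nat.beq n 0) u (F.sub u (F.mulq n 1 w))

theorem addKF_encl {u w : F} {ε : ℕ → ℝ} {x y : ℝ} (hε : ∀ i, |ε i| ≤ 1) (hx : u.Encl ε x)
    (hy : w.Encl ε y) (n : ℕ) : (addKF n u w).Encl ε (x + n * y) := by
  unfold addKF
  rcases h : Nat.beq n 0 with _ | _
  · rw [cond_false]
    have h1 := NumIs.F.Encl.mulq (n := n) (d := 1) one_pos hε hy
    rw [Nat.cast_one, div_one] at h1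
    exact hx.add h1
  · have h0 : n = 0 := Nat.eq_of_beq_eq_true h
    subst h0
    rw [cond_true]
    simpa using hx

theorem subKF_encl {u w : F} {ε : ℕ → ℝ} {x y : ℝ} (hε : ∀ i, |ε i| ≤ 1) (hx : u.Encl ε x)
    (hy : w.Encl ε y) (n : ℕ) : (subKF n u w).Encl ε (x - n * y) := by
  unfold subKF
  rcases h : Nat.beq n 0 with _ | _
  · rw [cond_false]
    have h1 := NumIs.F.Encl.mulq (n := n) (d := 1) one_pos hε hy
    rw [Nat.cast_one, div_one] at h1
    exact hx.sub h1
  · have h0 : n = 0 := Nat.eq_of_beq_eq_true h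
    subst h0
    rw [cond_true]
    simpa using hx

/-- shift by an integer: `x - n` -/
def shDF (n : ℕ) (a : F) : F := ⟨Nat.sub a.p (Nat.mul 68719476736 n),
  Nat.add a.q (Nat.sub (Nat.mul 68719476736 n) a.p), a.r, a.a0, a.b0, a.a1, a.b1, a.a2, a.b2,
  a.a3, a.b3⟩

theorem shDF_encl {a : F} {ε : ℕ → ℝ} {x : ℝ} (hx : a.Encl ε x) (n : ℕ) :
    (shDF n a).Encl ε (x - n) := shD_spec (a := a.toA) hx n

def shUF (n : ℕ) (a : F) : F := (shDF n a.neg).neg

theorem shUF_encl {a : F} {ε : ℕ → ℝ} {x : ℝ} (hx : a.Encl ε x) (n : ℕ) :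
    (shUF n a).Encl ε (x + n) := by
  have h := (shDF_encl hx.neg n).neg
  have e : -(-x - (n : ℝ)) = x + n := by ring
  rw [e] at h
  exact h

/-- the value near `0` -/
def strF (X T w : F) : Option F :=
  cond (Nat.ble (Nat.add (Nat.add T.p T.q) T.tot) 34359738368)
    (match sErr (Nat.add (Nat.add X.p X.q) X.tot) with
      | none => none
      | some k =>
        let v := (F.mulq 1 2 w).neg
        some ⟨v.p, v.q, Nat.add v.r k, v.a0, v.b0, v.a1, v.b1, v.a2, v.b2, v.a3, v.b3⟩) none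

theorem strF_encl {X T w c : F} {ε : ℕ → ℝ} {x t : ℝ} (hε : ∀ i, |ε i| ≤ 1) (hx : X.Encl ε x)
    (ht : T.Encl ε t) (hw : w.Encl ε (Real.pi * |t|)) (h : strF X T w = some c) :
    c.Encl ε (uu x t) := by
  have hD := DR_pos
  unfold strF at h
  obtain ⟨h1, h⟩ := NumUs.cond_some h
  have h2 : ((Nat.add (Nat.add T.p T.q) T.tot : ℕ) : ℝ) ≤ ((34359738368 : ℕ) : ℝ) := by
    exact_mod_cast Nat.le_of_ble_eq_true h1
  have h3 := abs_of_tot (a := T.toA) hε ht
  have h3' : |t| * DR ≤ ((Nat.add (Nat.add T.p T.q) T.tot : ℕ) : ℝ) := h3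
  have h4 : |t| ≤ 1 / 2 := by
    have e : ((34359738368 : ℕ) : ℝ) = 1 / 2 * DR := by unfold DR; norm_num
    rw [e] at h2
    exact le_of_mul_le_mul_right (h3'.trans h2) hD
  rcases h5 : sErr (Nat.add (Nat.add X.p X.q) X.tot) with _ | k
  · rw [h5] at h
    exact absurd h (by simp)
  rw [h5] at h
  simp only [Option.some.injEq] at h
  have h6 := sErr_spec h5 x t (abs_of_tot (a := X.toA) hε hx) h4
  have h7 := (NumIs.F.Encl.mulq (n := 1) (d := 2) two_pos hε hw).neg
  rw [← h]
  rw [NumIs.F.Encl_iff] at h7 ⊢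
  set v := (F.mulq 1 2 w).neg
  simp only
  change _ ≤ ((v.r + k : ℕ) : ℝ)
  push_cast at h7 ⊢
  have h8 : |uu x t + Real.pi / 2 * abs t| * DR = |(uu x t + Real.pi / 2 * abs t) * DR| := by
    rw [abs_mul, abs_of_pos hD]
  rw [h8] at h6
  set W := ((v.p : ℝ) - v.q + (((v.a0 : ℝ) - v.b0) * ε 0 + (((v.a1 : ℝ) - v.b1) * ε 1 +
    (((v.a2 : ℝ) - v.b2) * ε 2 + ((v.a3 : ℝ) - v.b3) * ε 3))))
  have e2 : uu x t * DR - W =
      (-(1 / 2 * (Real.pi * |t|)) * DR - W) + (uu x t + Real.pi / 2 * |t|) * DR := by ring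
  rw [e2]
  exact (abs_add_le _ _).trans (add_le_add h7 h6)

/-- the first result if its error is at most `1/64`, otherwise the better one -/
def pickF (s t : Option F) : Option F := match s with
  | none => t
  | some u => cond (Nat.ble u.r 1073741824) (some u) (match t with
    | none => some u
    | some v => cond (Nat.ble u.r v.r) (some u) (some v))

theorem pickF_spec {s t : Option F} {c : F} (h : pickF s t = some c) : s = some c ∨ t = some c := by
  unfold pickF at h
  rcases s with _ | u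
  · exact Or.inr h
  · simp only at h
    rcases hc : Nat.ble u.r 1073741824 with _ | _
    · rw [hc, cond_false] at h
      rcases t with _ | v
      · exact Or.inl h
      · simp only at h
        rcases hb : Nat.ble u.r v.r with _ | _
        · rw [hb, cond_false] at h; exact Or.inr h
        · rw [hb, cond_true] at h; exact Or.inl h
    · rw [hc, cond_true] at h; exact Or.inl h

def mapF (f : F → F) (x : Option F) : Option F := match x with
  | none => none
  | some a => some (f a)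

theorem mapF_some {f : F → F} {x : Option F} {c : F} (h : mapF f x = some c) :
    ∃ a, x = some a ∧ c = f a := by
  unfold mapF at h
  rcases x with _ | a
  · exact absurd h (by simp)
  · exact ⟨a, rfl, (Option.some.inj h).symm⟩

/-- `UU (x + i t)` for every real `x` -/
def uwF (a b : F) : Option F :=
  let X := a.nf
  let T := b.nf
  let w := F.mul F.pi (absF T)
  cond (Nat.beq X.q 0)
    (let n := Nat.div X.p 68719476736
     let m := Nat.div (Nat.add X.p 34359738368) 68719476736
     pickF (mapF (fun u => addKF n u w) (uuF (shDF n X) T))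
      (mapF (fun u => addKF m u w) (strF (shDF m X).nf T w)))
    (let n := Nat.div (Nat.add X.q 68719476735) 68719476736
     let m := Nat.div (Nat.add X.q 34359738368) 68719476736
     pickF (mapF (fun u => subKF n u w) (uuF (shUF n X) T))
      (mapF (fun u => subKF m u w) (strF (shUF m X).nf T w)))

theorem F.Encl.nf {a : F} {ε : ℕ → ℝ} {x : ℝ} (hx : a.Encl ε x) : (a.nf).Encl ε x := by
  unfold F.Encl at *
  rw [F.toA_nf]
  exact A.Encl.nf hx

theorem uwF_encl {a b c : F} {ε : ℕ → ℝ} {x t : ℝ} (hε : ∀ i, |ε i| ≤ 1) (hx : a.Encl ε x)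
    (ht : b.Encl ε t) (h : uwF a b = some c) : c.Encl ε (uu x t) := by
  unfold uwF at h
  simp only at h
  have hX := F.Encl.nf hx
  have hT := F.Encl.nf ht
  have hw : F.Encl (F.mul F.pi (absF b.nf)) ε (Real.pi * |t|) :=
    NumIs.F.Encl.mul hε (NumIs.F.pi_encl ε) (absF_encl hε hT)
  have eD : ∀ n : ℕ, uu x t = uu (x - n) t + n * (Real.pi * |t|) := by
    intro n
    rw [← uu_add_nat, sub_add_cancel]
  have eU : ∀ n : ℕ, uu x t = uu (x + n) t - n * (Real.pi * |t|) := by
    intro n
    rw [uu_add_nat]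
    ring
  rcases h1 : Nat.beq a.nf.q 0 with _ | _
  · rw [h1, cond_false] at h
    rcases pickF_spec h with h | h
    · obtain ⟨u, hu, rfl⟩ := mapF_some h
      rw [eU (Nat.div (Nat.add a.nf.q 68719476735) 68719476736)]
      exact subKF_encl hε (uuF_encl hε (shUF_encl hX _) hT hu) hw _
    · obtain ⟨u, hu, rfl⟩ := mapF_some h
      rw [eU (Nat.div (Nat.add a.nf.q 34359738368) 68719476736)]
      exact subKF_encl hε (strF_encl hε (F.Encl.nf (shUF_encl hX _)) hT hw hu) hw _
  · rw [h1, cond_true] at h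
    rcases pickF_spec h with h | h
    · obtain ⟨u, hu, rfl⟩ := mapF_some h
      rw [eD (Nat.div a.nf.p 68719476736)]
      exact addKF_encl hε (uuF_encl hε (shDF_encl hX _) hT hu) hw _
    · obtain ⟨u, hu, rfl⟩ := mapF_some h
      rw [eD (Nat.div (Nat.add a.nf.p 34359738368) 68719476736)]
      exact addKF_encl hε (strF_encl hε (F.Encl.nf (shDF_encl hX _)) hT hw hu) hw _

/-! ### the functions `ux` and `yw` -/

theorem F.tot_spec {f : F} {ε : ℕ → ℝ} {x : ℝ} (hε : ∀ i, |ε i| ≤ 1) (h : f.Encl ε x) :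
    |x * DR - ((f.p : ℝ) - f.q)| ≤ (f.tot : ℝ) := A.Encl.tot (a := f.toA) h hε

/-- add an error -/
def errF (v : F) (k : ℕ) : F :=
  ⟨v.p, v.q, Nat.add v.r k, v.a0, v.b0, v.a1, v.b1, v.a2, v.b2, v.a3, v.b3⟩

theorem errF_encl {v : F} {ε : ℕ → ℝ} {x y : ℝ} {k : ℕ} (h : v.Encl ε y)
    (hk : |x - y| * DR ≤ k) : (errF v k).Encl ε x := Encl_err (v := v.toA) h hk

def ip2F : F := ⟨10937044409, 0, 2, 0, 0, 0, 0, 0, 0, 0, 0⟩

theorem ip2F_encl (ε : ℕ → ℝ) : ip2F.Encl ε (1 / (2 * Real.pi)) := by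
  rw [NumIs.F.Encl_iff]
  have := ip2_real
  unfold ip2F
  push_cast
  simpa using this

/-- first term of the series; `w = π |t|` -/
def farF (X w : F) : Option F :=
  match F.exp (F.neg (F.add w w)) with
  | none => none
  | some e => some (errF
      (F.sub (F.mul w (F.sub X (F.rat 1 2))) (F.mul (F.mul e (F.sinPi (F.add X X))) ip2F))
      (farE (Nat.sub (Nat.add e.p e.tot) e.q)))

theorem farF_encl {X w c : F} {ε : ℕ → ℝ} {x t : ℝ} (hε : ∀ i, |ε i| ≤ 1) (hx : X.Encl ε x)
    (hw : w.Encl ε (Real.pi * |t|)) (ht : 3 / 10 ≤ |t|) (h : farF X w = some c) :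
    c.Encl ε (uu x t) := by
  have hD := DR_pos
  unfold farF at h
  rcases he : F.exp (F.neg (F.add w w)) with _ | e
  · rw [he] at h; exact absurd h (by simp)
  rw [he] at h
  simp only [Option.some.injEq] at h
  have h1 := NumIs.F.Encl.exp hε (F.Encl.neg (F.Encl.add hw hw)) he
  have h2 := F.Encl.sinPi hε (F.Encl.add hx hx)
  have h3 := NumIs.F.Encl.rat 1 2 ε
  rw [Nat.cast_one, Nat.cast_two] at h3
  have h4 := F.Encl.sub (F.Encl.mul hε hw (F.Encl.sub hx h3))
    (F.Encl.mul hε (F.Encl.mul hε h1 h2) (ip2F_encl ε))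
  rw [← h]
  refine errF_encl h4 ?_
  refine le_trans (mul_le_mul_of_nonneg_right (far_val rfl ht) hD.le) ?_
  exact farE_spec (Real.exp_pos _).le (exp_hi hε (e := e.toA) h1)

/-- `- w / 2 + x log (2 sinh w)`; `w = π |t|` -/
def nearF (X T w : F) : Option F :=
  cond (Nat.ble (Nat.add (Nat.add X.p X.q) X.tot) 34359738368) (cond (Nat.ble 1 (tLo T.p T.q T.tot))
    (match F.hyp false w with
      | none => none
      | some s => match F.log (F.add s s) with
        | none => none
        | some l => some (errF (F.sub (F.mul X l) (F.mulq 1 2 w))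
            (nearE (Nat.add (Nat.add X.p X.q) X.tot) (tLo T.p T.q T.tot)))) none) none

theorem nearF_encl {X T w c : F} {ε : ℕ → ℝ} {x t : ℝ} (hε : ∀ i, |ε i| ≤ 1) (hx : X.Encl ε x)
    (ht : T.Encl ε t) (hw : w.Encl ε (Real.pi * |t|)) (h : nearF X T w = some c) :
    c.Encl ε (uu x t) := by
  have hD := DR_pos
  unfold nearF at h
  obtain ⟨h1, h⟩ := NumUs.cond_some h
  obtain ⟨h2, h⟩ := NumUs.cond_some h
  have a1 : ((Nat.add (Nat.add X.p X.q) X.tot : ℕ) : ℝ) ≤ ((34359738368 : ℕ) : ℝ) := by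
    exact_mod_cast Nat.le_of_ble_eq_true h1
  have a2 : |x| * DR ≤ ((Nat.add (Nat.add X.p X.q) X.tot : ℕ) : ℝ) := abs_of_tot (a := X.toA) hε hx
  have a3 : |x| ≤ 1 / 2 := by
    have e : ((34359738368 : ℕ) : ℝ) = 1 / 2 * DR := by unfold DR; norm_num
    rw [e] at a1
    exact le_of_mul_le_mul_right (a2.trans a1) hD
  have a4 : 0 < tLo T.p T.q T.tot := Nat.le_of_ble_eq_true h2
  have a5 := tLo_spec (F.tot_spec hε ht)
  rw [abs_mul, abs_of_pos hD] at a5
  have a6 : t ≠ 0 := by
    rintro rfl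
    have : (0 : ℝ) < ((tLo T.p T.q T.tot : ℕ) : ℝ) := by exact_mod_cast a4
    rw [abs_zero, zero_mul] at a5
    linarith only [a5, this]
  rcases hs : F.hyp false w with _ | s
  · rw [hs] at h; exact absurd h (by simp)
  rw [hs] at h
  simp only at h
  rcases hl : F.log (F.add s s) with _ | l
  · rw [hl] at h; exact absurd h (by simp)
  rw [hl] at h
  simp only [Option.some.injEq] at h
  have b1 := NumIs.F.Encl.sinh hε hw hs
  have b2 := NumIs.F.Encl.log hε (F.Encl.add b1 b1) hl
  have b3 := NumIs.F.Encl.mulq (n := 1) (d := 2) two_pos hε hw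
  have b4 := F.Encl.sub (F.Encl.mul hε hx b2) b3
  rw [← h]
  refine errF_encl b4 ?_
  refine le_trans ?_ (nearE_spec a4 a2 a5)
  refine mul_le_mul_of_nonneg_right ?_ hD.le
  refine le_trans (le_of_eq ?_) (NumXs.near a6 (lt_of_le_of_lt a3 (by norm_num)))
  congr 1
  rw [← two_mul, Nat.cast_one, Nat.cast_two]
  ring

/-- the one with the smaller error -/
def minF (s t : Option F) : Option F := match s with
  | none => t
  | some u => match t with
    | none => some u
    | some v => cond (Nat.ble u.r v.r) (some u) (some v)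

theorem minF_spec {s t : Option F} {c : F} (h : minF s t = some c) : s = some c ∨ t = some c := by
  unfold minF at h
  rcases s with _ | u
  · exact Or.inr h
  · simp only at h
    rcases t with _ | v
    · exact Or.inl h
    · simp only at h
      rcases hb : Nat.ble u.r v.r with _ | _
      · rw [hb, cond_false] at h; exact Or.inr h
      · rw [hb, cond_true] at h; exact Or.inl h

/-- `UU (x + i t)` for every real `x` -/
def uxF (a b : F) : Option F :=
  let X := a.nf
  let T := b.nf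
  let w := F.mul F.pi (absF T)
  cond (Nat.ble 20615843021 (tLo T.p T.q T.tot)) (farF X w)
    (cond (Nat.beq X.q 0)
      (let n := Nat.div X.p 68719476736
       let m := Nat.div (Nat.add X.p 34359738368) 68719476736
       pickF (mapF (fun u => addKF n u w) (uuF (shDF n X) T))
        (mapF (fun u => addKF m u w) (minF (nearF (shDF m X).nf T w) (strF (shDF m X).nf T w))))
      (let n := Nat.div (Nat.add X.q 68719476735) 68719476736
       let m := Nat.div (Nat.add X.q 34359738368) 68719476736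
       pickF (mapF (fun u => subKF n u w) (uuF (shUF n X) T))
        (mapF (fun u => subKF m u w) (minF (nearF (shUF m X).nf T w) (strF (shUF m X).nf T w)))))

theorem nsF_encl {X T w c : F} {ε : ℕ → ℝ} {x t : ℝ} (hε : ∀ i, |ε i| ≤ 1) (hx : X.Encl ε x)
    (ht : T.Encl ε t) (hw : w.Encl ε (Real.pi * |t|))
    (h : minF (nearF X T w) (strF X T w) = some c) : c.Encl ε (uu x t) := by
  rcases minF_spec h with h | h
  · exact nearF_encl hε hx ht hw h
  · exact strF_encl hε hx ht hw h

theorem uxF_encl {a b c : F} {ε : ℕ → ℝ} {x t : ℝ} (hε : ∀ i, |ε i| ≤ 1) (hx : a.Encl ε x)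
    (ht : b.Encl ε t) (h : uxF a b = some c) : c.Encl ε (uu x t) := by
  unfold uxF at h
  simp only at h
  have hX := F.Encl.nf hx
  have hT := F.Encl.nf ht
  have hw : F.Encl (F.mul F.pi (absF b.nf)) ε (Real.pi * |t|) :=
    NumIs.F.Encl.mul hε (NumIs.F.pi_encl ε) (absF_encl hε hT)
  rcases h0 : Nat.ble 20615843021 (tLo b.nf.p b.nf.q b.nf.tot) with _ | _
  swap
  · rw [h0, cond_true] at h
    exact farF_encl hε hX hw (far_ok h0 (F.tot_spec hε hT)) h
  rw [h0, cond_false] at h
  have eD : ∀ n : ℕ, uu x t = uu (x - n) t + n * (Real.pi * |t|) := by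
    intro n
    rw [← uu_add_nat, sub_add_cancel]
  have eU : ∀ n : ℕ, uu x t = uu (x + n) t - n * (Real.pi * |t|) := by
    intro n
    rw [uu_add_nat]
    ring
  rcases h1 : Nat.beq a.nf.q 0 with _ | _
  · rw [h1, cond_false] at h
    rcases pickF_spec h with h | h
    · obtain ⟨u, hu, rfl⟩ := mapF_some h
      rw [eU (Nat.div (Nat.add a.nf.q 68719476735) 68719476736)]
      exact subKF_encl hε (uuF_encl hε (shUF_encl hX _) hT hu) hw _
    · obtain ⟨u, hu, rfl⟩ := mapF_some h
      rw [eU (Nat.div (Nat.add a.nf.q 34359738368) 68719476736)]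
      exact subKF_encl hε (nsF_encl hε (F.Encl.nf (shUF_encl hX _)) hT hw hu) hw _
  · rw [h1, cond_true] at h
    rcases pickF_spec h with h | h
    · obtain ⟨u, hu, rfl⟩ := mapF_some h
      rw [eD (Nat.div a.nf.p 68719476736)]
      exact addKF_encl hε (uuF_encl hε (shDF_encl hX _) hT hu) hw _
    · obtain ⟨u, hu, rfl⟩ := mapF_some h
      rw [eD (Nat.div (Nat.add a.nf.p 34359738368) 68719476736)]
      exact addKF_encl hε (nsF_encl hε (F.Encl.nf (shDF_encl hX _)) hT hw hu) hw _

/-- `v + n π sign t` -/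
def addSF (n : ℕ) (s : Option Bool) (v : F) : Option F :=
  cond (Nat.beq n 0) (some v) (match s with
    | none => none
    | some b => cond b (some (F.add v (F.mulq n 1 F.pi))) (some (F.sub v (F.mulq n 1 F.pi))))

theorem addSF_encl {n : ℕ} {s : Option Bool} {v c : F} {ε : ℕ → ℝ} {y t : ℝ}
    (hε : ∀ i, |ε i| ≤ 1) (hs : ∀ b, s = some b → NumXs.sg t = cond b 1 (-1)) (hv : v.Encl ε y)
    (h : addSF n s v = some c) : c.Encl ε (y + n * (Real.pi * NumXs.sg t)) := by
  unfold addSF at h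
  rcases h1 : Nat.beq n 0 with _ | _
  · rw [h1, cond_false] at h
    rcases s with _ | b
    · exact absurd h (by simp)
    · simp only at h
      rw [hs b rfl]
      have h3 := NumIs.F.Encl.mulq (n := n) (d := 1) one_pos hε (NumIs.F.pi_encl ε)
      rw [Nat.cast_one, div_one] at h3
      rcases b with _ | _
      · rw [cond_false] at h ⊢
        obtain rfl := Option.some.inj h
        have := F.Encl.sub hv h3
        have e2 : y + n * (Real.pi * -1) = y - n * Real.pi := by ring
        rw [e2]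
        exact this
      · rw [cond_true] at h ⊢
        obtain rfl := Option.some.inj h
        rw [mul_one]
        exact F.Encl.add hv h3
  · have h0 : n = 0 := Nat.eq_of_beq_eq_true h1
    subst h0
    rw [h1, cond_true] at h
    obtain rfl := Option.some.inj h
    simpa using hv

/-- `v - n π sign t` -/
def subSF (n : ℕ) (s : Option Bool) (v : F) : Option F :=
  cond (Nat.beq n 0) (some v) (match s with
    | none => none
    | some b => cond b (some (F.sub v (F.mulq n 1 F.pi))) (some (F.add v (F.mulq n 1 F.pi))))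

theorem subSF_encl {n : ℕ} {s : Option Bool} {v c : F} {ε : ℕ → ℝ} {y t : ℝ}
    (hε : ∀ i, |ε i| ≤ 1) (hs : ∀ b, s = some b → NumXs.sg t = cond b 1 (-1)) (hv : v.Encl ε y)
    (h : subSF n s v = some c) : c.Encl ε (y - n * (Real.pi * NumXs.sg t)) := by
  unfold subSF at h
  rcases h1 : Nat.beq n 0 with _ | _
  · rw [h1, cond_false] at h
    rcases s with _ | b
    · exact absurd h (by simp)
    · simp only at h
      rw [hs b rfl]
      have h3 := NumIs.F.Encl.mulq (n := n) (d := 1) one_pos hε (NumIs.F.pi_encl ε)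
      rw [Nat.cast_one, div_one] at h3
      rcases b with _ | _
      · rw [cond_false] at h ⊢
        obtain rfl := Option.some.inj h
        have := F.Encl.add hv h3
        have e2 : y - n * (Real.pi * -1) = y + n * Real.pi := by ring
        rw [e2]
        exact this
      · rw [cond_true] at h ⊢
        obtain rfl := Option.some.inj h
        rw [mul_one]
        exact F.Encl.sub hv h3
  · have h0 : n = 0 := Nat.eq_of_beq_eq_true h1
    subst h0
    rw [h1, cond_true] at h
    obtain rfl := Option.some.inj h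
    simpa using hv

/-- inside `(0, 1)` -/
def ycF (X T : F) : Option F :=
  cond (Nat.ble (Nat.add (Nat.add X.q X.tot) 1) X.p)
    (cond (Nat.ble (Nat.add (Nat.add X.p X.tot) 1) (Nat.add 68719476736 X.q))
      (mapF F.neg (F.lnB X T)) none) none

theorem ycF_encl {X T c : F} {ε : ℕ → ℝ} {x t : ℝ} (hε : ∀ i, |ε i| ≤ 1) (hx : X.Encl ε x)
    (ht : T.Encl ε t) (h : ycF X T = some c) : c.Encl ε (NumXs.yy x t) := by
  have hD := DR_pos
  unfold ycF at h
  obtain ⟨h1, h⟩ := NumUs.cond_some h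
  obtain ⟨h2, h⟩ := NumUs.cond_some h
  obtain ⟨u, hu, rfl⟩ := mapF_some h
  have a1 := abs_le.1 (F.tot_spec hε hx)
  have a2 : ((X.q + X.tot + 1 : ℕ) : ℝ) ≤ X.p := by exact_mod_cast Nat.le_of_ble_eq_true h1
  have a3 : ((X.p + X.tot + 1 : ℕ) : ℝ) ≤ ((68719476736 + X.q : ℕ) : ℝ) := by
    exact_mod_cast Nat.le_of_ble_eq_true h2
  rw [Nat.cast_add 68719476736, DN_cast] at a3
  push_cast at a2 a3
  have x0 : 0 < x := by
    have : 0 < x * DR := by linarith only [a1, a2, a1.1]
    exact (mul_pos_iff_of_pos_right hD).1 this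
  have x1 : x < 1 := by
    have : x * DR < 1 * DR := by linarith only [a1, a3, a1.2]
    exact lt_of_mul_lt_mul_right this hD.le
  rw [NumXs.yy_lnB x0 x1]
  exact F.Encl.neg (NumIs.F.Encl.lnB hε hx ht hu)

/-- near an integer: `- π / 2 sign t` -/
def ynF (X T : F) : Option F :=
  cond (Nat.ble (Nat.add (Nat.add X.p X.q) X.tot) 8589934592) (cond (Nat.ble 1 (tLo T.p T.q T.tot))
    (match sgB T.p T.q T.tot with
      | none => none
      | some b => cond b
        (some ⟨0, 107944301636, Nat.add 2 (ynE (Nat.add (Nat.add X.p X.q) X.tot)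
          (tLo T.p T.q T.tot)), 0, 0, 0, 0, 0, 0, 0, 0⟩)
        (some ⟨107944301636, 0, Nat.add 2 (ynE (Nat.add (Nat.add X.p X.q) X.tot)
          (tLo T.p T.q T.tot)), 0, 0, 0, 0, 0, 0, 0, 0⟩)) none) none

theorem ynF_encl {X T c : F} {ε : ℕ → ℝ} {x t : ℝ} (hε : ∀ i, |ε i| ≤ 1) (hx : X.Encl ε x)
    (ht : T.Encl ε t) (h : ynF X T = some c) : c.Encl ε (NumXs.yy x t) := by
  have hD := DR_pos
  unfold ynF at h
  obtain ⟨h1, h⟩ := NumUs.cond_some h
  obtain ⟨h2, h⟩ := NumUs.cond_some h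
  have a1 : ((Nat.add (Nat.add X.p X.q) X.tot : ℕ) : ℝ) ≤ ((8589934592 : ℕ) : ℝ) := by
    exact_mod_cast Nat.le_of_ble_eq_true h1
  have a2 : |x| * DR ≤ ((Nat.add (Nat.add X.p X.q) X.tot : ℕ) : ℝ) := abs_of_tot (a := X.toA) hε hx
  have a3 : |x| ≤ 1 / 8 := by
    have e : ((8589934592 : ℕ) : ℝ) = 1 / 8 * DR := by unfold DR; norm_num
    rw [e] at a1
    exact le_of_mul_le_mul_right (a2.trans a1) hD
  have a4 : 0 < tLo T.p T.q T.tot := Nat.le_of_ble_eq_true h2
  have a5 := tLo_spec (F.tot_spec hε ht)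
  rw [abs_mul, abs_of_pos hD] at a5
  have a6 : t ≠ 0 := by
    rintro rfl
    have : (0 : ℝ) < ((tLo T.p T.q T.tot : ℕ) : ℝ) := by exact_mod_cast a4
    rw [abs_zero, zero_mul] at a5
    linarith only [a5, this]
  rcases hb : sgB T.p T.q T.tot with _ | b
  · rw [hb] at h; exact absurd h (by simp)
  rw [hb] at h
  simp only at h
  have a7 := sgB_spec (F.tot_spec hε ht) hb
  have a8 := NumXs.yy_near a6 a3
  have a9 := ynE_spec a4 a2 a5
  have a10 := mul_le_mul_of_nonneg_right a8 hD.le
  have a11 := abs_le.1 half_pi_real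
  have e1 : |NumXs.yy x t + Real.pi / 2 * NumXs.sg t| * DR =
      |(NumXs.yy x t + Real.pi / 2 * NumXs.sg t) * DR| := by
    rw [abs_mul, abs_of_pos hD]
  rw [e1] at a10
  have a12 := abs_le.1 (a10.trans a9)
  rw [a7] at a12
  set E := ynE (Nat.add (Nat.add X.p X.q) X.tot) (tLo T.p T.q T.tot)
  rcases b with _ | _
  · rw [cond_false] at h a12
    obtain rfl := Option.some.inj h
    rw [NumIs.F.Encl_iff]
    simp only [Nat.cast_zero, sub_zero, zero_mul, add_zero]
    change _ ≤ ((2 + E : ℕ) : ℝ)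
    push_cast
    rw [abs_le]
    constructor <;> nlinarith only [a11, a12, a12.1, a12.2, a11.1, a11.2]
  · rw [cond_true] at h a12
    obtain rfl := Option.some.inj h
    rw [NumIs.F.Encl_iff]
    simp only [Nat.cast_zero, sub_zero, zero_mul, add_zero]
    change _ ≤ ((2 + E : ℕ) : ℝ)
    push_cast
    rw [abs_le]
    constructor <;> nlinarith only [a11, a12, a12.1, a12.2, a11.1, a11.2]

def yrF (X : F) : Option F := match yrE X.p X.q X.tot with
  | none => none
  | some k => some ⟨0, 0, k, 0, 0, 0, 0, 0, 0, 0, 0⟩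

theorem yrF_encl {X c : F} {ε : ℕ → ℝ} {x : ℝ} (t : ℝ) (hε : ∀ i, |ε i| ≤ 1) (hx : X.Encl ε x)
    (h : yrF X = some c) : c.Encl ε (NumXs.yy x t) := by
  have hD := DR_pos
  unfold yrF at h
  rcases hk : yrE X.p X.q X.tot with _ | k
  · rw [hk] at h; exact absurd h (by simp)
  rw [hk] at h
  obtain rfl := Option.some.inj h
  have h1 := yrE_spec (t := t) (F.tot_spec hε hx) hk
  rw [NumIs.F.Encl_iff]
  simpa [abs_mul, abs_of_pos hD] using h1

/-- bind -/
def bindF (x : Option F) (f : F → Option F) : Option F := match x with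
  | none => none
  | some a => f a

theorem bindF_some {f : F → Option F} {x : Option F} {c : F} (h : bindF x f = some c) :
    ∃ a, x = some a ∧ f a = some c := by
  unfold bindF at h
  rcases x with _ | a
  · exact absurd h (by simp)
  · exact ⟨a, rfl, h⟩

/-- `YY (x + i t)` for every real `x` -/
def ywF (a b : F) : Option F :=
  let X := a.nf
  let T := b.nf
  let s := sgB T.p T.q T.tot
  cond (Nat.beq X.q 0)
    (let n := Nat.div X.p 68719476736
     let m := Nat.div (Nat.add X.p 34359738368) 68719476736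
     pickF (bindF (ycF (shDF n X) T) (addSF n s))
      (minF (bindF (ynF (shDF m X).nf T) (addSF m s)) (yrF X)))
    (let n := Nat.div (Nat.add X.q 68719476735) 68719476736
     let m := Nat.div (Nat.add X.q 34359738368) 68719476736
     pickF (bindF (ycF (shUF n X) T) (subSF n s))
      (minF (bindF (ynF (shUF m X).nf T) (subSF m s)) (yrF X)))

theorem ywF_encl {a b c : F} {ε : ℕ → ℝ} {x t : ℝ} (hε : ∀ i, |ε i| ≤ 1) (hx : a.Encl ε x)
    (ht : b.Encl ε t) (h : ywF a b = some c) : c.Encl ε (NumXs.yy x t) := by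
  unfold ywF at h
  simp only at h
  have hX := F.Encl.nf hx
  have hT := F.Encl.nf ht
  have hs : ∀ c, sgB b.nf.p b.nf.q b.nf.tot = some c → NumXs.sg t = cond c 1 (-1) := fun c hc =>
    sgB_spec (F.tot_spec hε hT) hc
  have eD : ∀ n : ℕ, NumXs.yy x t = NumXs.yy (x - n) t + n * (Real.pi * NumXs.sg t) := by
    intro n
    rw [← yy_add_nat, sub_add_cancel]
  have eU : ∀ n : ℕ, NumXs.yy x t = NumXs.yy (x + n) t - n * (Real.pi * NumXs.sg t) := by
    intro n
    rw [yy_add_nat]
    ring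
  rcases h1 : Nat.beq a.nf.q 0 with _ | _
  · rw [h1, cond_false] at h
    rcases pickF_spec h with h | h
    · obtain ⟨u, hu, h⟩ := bindF_some h
      rw [eU (Nat.div (Nat.add a.nf.q 68719476735) 68719476736)]
      exact subSF_encl hε hs (ycF_encl hε (shUF_encl hX _) hT hu) h
    · rcases minF_spec h with h | h
      · obtain ⟨u, hu, h⟩ := bindF_some h
        rw [eU (Nat.div (Nat.add a.nf.q 34359738368) 68719476736)]
        exact subSF_encl hε hs (ynF_encl hε (F.Encl.nf (shUF_encl hX _)) hT hu) h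
      · exact yrF_encl t hε hX h
  · rw [h1, cond_true] at h
    rcases pickF_spec h with h | h
    · obtain ⟨u, hu, h⟩ := bindF_some h
      rw [eD (Nat.div a.nf.p 68719476736)]
      exact addSF_encl hε hs (ycF_encl hε (shDF_encl hX _) hT hu) h
    · rcases minF_spec h with h | h
      · obtain ⟨u, hu, h⟩ := bindF_some h
        rw [eD (Nat.div (Nat.add a.nf.p 34359738368) 68719476736)]
        exact addSF_encl hε hs (ynF_encl hε (F.Encl.nf (shDF_encl hX _)) hT hu) h
      · exact yrF_encl t hε hX h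

/-! ### evaluation -/

/-- evaluation by the recursor -/
noncomputable def E.evR (e : E) : List F → Option F :=
  E.rec (motive := fun _ => List F → Option F)
    (fun i xs => some (NumIs.lkF xs i))
    (fun n d _ => some (F.cst n d))
    (fun _ => some F.pi)
    (fun _ _ a b xs => NumIs.o2 F.add (a xs) (b xs))
    (fun _ _ a b xs => NumIs.o2 F.sub (a xs) (b xs))
    (fun _ _ a b xs => NumIs.o2 F.mul (a xs) (b xs))
    (fun _ a xs => NumIs.o1 F.neg (a xs))
    (fun _ a xs => NumIs.o1 F.sqn (a xs))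
    (fun _ a xs => NumIs.o1 reluF (a xs))
    (fun _ _ a b xs => NumIs.o3 uwF (a xs) (b xs))
    (fun _ _ a b xs => NumIs.o0 (fun c => b (xs ++ [c])) (a xs))
    (fun _ _ => none)
    (fun _ _ a b xs => NumIs.o3 uxF (a xs) (b xs))
    (fun _ _ a b xs => NumIs.o3 ywF (a xs) (b xs)) e

theorem E.evR_sound {ε : ℕ → ℝ} (hε : ∀ i, |ε i| ≤ 1) (e : E) : ∀ {fs : List F} {xs : List ℝ}
    {c : F}, List.Forall₂ (fun f x => F.Encl f ε x) fs xs → e.evR fs = some c →
      c.Encl ε (e.val xs) := by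
  induction e with
  | var i =>
    intro fs xs c h he
    have := Option.some.inj he
    rw [← this]; exact NumIs.lkF_encl h i
  | q n d =>
    intro fs xs c h he
    have := Option.some.inj he
    rw [← this]; exact F.cst_encl n d ε
  | pi =>
    intro fs xs c h he
    have := Option.some.inj he
    rw [← this]; exact F.pi_encl ε
  | add a b iha ihb =>
    intro fs xs c h he
    obtain ⟨u, v, hu, hv, rfl⟩ := NumIs.o2_some he
    exact F.Encl.add (iha h hu) (ihb h hv)
  | sub a b iha ihb =>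
    intro fs xs c h he
    obtain ⟨u, v, hu, hv, rfl⟩ := NumIs.o2_some he
    exact F.Encl.sub (iha h hu) (ihb h hv)
  | mul a b iha ihb =>
    intro fs xs c h he
    obtain ⟨u, v, hu, hv, rfl⟩ := NumIs.o2_some he
    exact F.Encl.mul hε (iha h hu) (ihb h hv)
  | neg a iha =>
    intro fs xs c h he
    obtain ⟨u, hu, rfl⟩ := NumIs.o1_some he
    exact F.Encl.neg (iha h hu)
  | sq a iha =>
    intro fs xs c h he
    obtain ⟨u, hu, rfl⟩ := NumIs.o1_some he
    exact F.Encl.sqn hε (iha h hu)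
  | relu a iha =>
    intro fs xs c h he
    obtain ⟨u, hu, rfl⟩ := NumIs.o1_some he
    exact reluF_encl hε (iha h hu)
  | uw a b iha ihb =>
    intro fs xs c h he
    obtain ⟨u, v, hu, hv, hc⟩ := NumIs.o3_some he
    exact uwF_encl hε (iha h hu) (ihb h hv) hc
  | lt a b iha ihb =>
    intro fs xs c h he
    obtain ⟨u, hu, hc⟩ := NumIs.o0_some he
    refine ihb ?_ hc
    exact List.rel_append h (List.Forall₂.cons (iha h hu) List.Forall₂.nil)
  | emb a =>
    intro fs xs c h he
    exact absurd he (by simp [E.evR])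
  | ux a b iha ihb =>
    intro fs xs c h he
    obtain ⟨u, v, hu, hv, hc⟩ := NumIs.o3_some he
    exact uxF_encl hε (iha h hu) (ihb h hv) hc
  | yw a b iha ihb =>
    intro fs xs c h he
    obtain ⟨u, v, hu, hv, hc⟩ := NumIs.o3_some he
    exact ywF_encl hε (iha h hu) (ihb h hv) hc

/-! ### the checker: certificates of `NumIs.Tree` -/

/-- the expression number `k` -/
noncomputable def nthR (es : List E) : ℕ → E :=
  List.rec (motive := fun _ => ℕ → E) (fun _ => E.q 0 1)
    (fun x _ ih i => Nat.rec (motive := fun _ => E) x (fun j _ => ih j) i) es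

theorem nthR_spec : ∀ (es : List E) (i : ℕ) {xs : List ℝ}, 0 < (nthR es i).val xs →
    ∃ e ∈ es, 0 < e.val xs
  | [], i, xs, h => by
    change 0 < (E.q 0 1).val xs at h
    simp only [E.val] at h
    norm_num at h
  | e :: es, 0, xs, h => ⟨e, List.mem_cons_self, h⟩
  | e :: es, i + 1, xs, h => by
    obtain ⟨e', he, hp⟩ := nthR_spec es i h
    exact ⟨e', List.mem_cons_of_mem _ he, hp⟩

/-- the tests: the expression number `k` is positive -/
noncomputable def tst (es : List E) (k : ℕ) (X Y Z W : F) : Bool :=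
  posO' ((nthR es k).evR [X, Y, Z, W])

theorem tst_ok (es : List E) : TestOk (tst es) fun x y z w => ∃ e ∈ es, 0 < e.val [x, y, z, w] := by
  intro k X Y Z W ε x y z w hε hX hY hZ hW h
  unfold tst at h
  rcases h1 : (nthR es k).evR [X, Y, Z, W] with _ | c
  · rw [h1] at h
    exact absurd h (by simp [posO'])
  · rw [h1] at h
    refine nthR_spec es k (NumIs.posF_spec hε (E.evR_sound hε _ ?_ h1) h)
    exact List.Forall₂.cons hX (List.Forall₂.cons hY (List.Forall₂.cons hZ
      (List.Forall₂.cons hW List.Forall₂.nil)))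

/-- the checker on a box `[(l - o) / N, (h - o) / N]` of four variables -/
noncomputable def chkF (es : List E) (N o0 o1 o2 o3 fuel l0 h0 l1 h1 l2 h2 l3 h3 c : ℕ) : Bool :=
  okB N (tst es) o0 o1 o2 o3 fuel l0 h0 l1 h1 l2 h2 l3 h3 c

theorem chkF4 {es : List E} {N o0 o1 o2 o3 fuel l0 h0 l1 h1 l2 h2 l3 h3 c : ℕ}
    (h : chkF es N o0 o1 o2 o3 fuel l0 h0 l1 h1 l2 h2 l3 h3 c = true) (hN : 0 < N) {x y z w : ℝ}
    (hx : ((l0 : ℝ) - o0) / N ≤ x) (hx' : x ≤ ((h0 : ℝ) - o0) / N)
    (hy : ((l1 : ℝ) - o1) / N ≤ y) (hy' : y ≤ ((h1 : ℝ) - o1) / N)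
    (hz : ((l2 : ℝ) - o2) / N ≤ z) (hz' : z ≤ ((h2 : ℝ) - o2) / N)
    (hw : ((l3 : ℝ) - o3) / N ≤ w) (hw' : w ≤ ((h3 : ℝ) - o3) / N) :
    ∃ e ∈ es, 0 < e.val [x, y, z, w] :=
  okB_sound hN (tst_ok es) h hx hx' hy hy' hz hz' hw hw'

end Pool.Agent.Work.NumGs

end
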